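import Pool.Agent.V7H1.LV.Main
import Pool.Agent.TH187.SA.Classes

set_option autoImplicit false
set_option linter.unusedSectionVars false
set_option linter.unusedVariables false

/-! # The criterion for Rees flats -/

namespace Pool.Agent.V7H1.LV

open Module Pool.Agent.TH187.SA

/-- the codimension of a linear subspace -/
noncomputable def codim {V : Type} [AddCommGroup V] [Module ℂ V] (W : Submodule ℂ V) : ℕ :=
  finrank ℂ (V ⧸ W)

open Classical in
/-- The set of the indices `s ∈ A` with `G ⊆ H s`. -/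
noncomputable def above {V S : Type} [AddCommGroup V] [Module ℂ V] [Fintype S]
    (H : S → Submodule ℂ V) (A : S → Prop) (G : Submodule ℂ V) : Finset S :=
  Finset.univ.filter fun s => A s ∧ G ≤ H s

open Classical in
/-- The partition inequality: for every partition of the set `above H A G` of the indices `s ∈ A` with
`G ⊆ H s`, the sum over the parts `P` of `codim (⋂_{s ∈ P} H s) - 1` is at least `codim G - 1`. A
partition is given by a labelling `p`; the parts are the sets of the indices with the same label. -/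
def PartitionIneq {V S : Type} [AddCommGroup V] [Module ℂ V] [Fintype S]
    (H : S → Submodule ℂ V) (A : S → Prop) (G : Submodule ℂ V) : Prop :=
  ∀ p : S → S, codim G + ((above H A G).image p).card ≤
    1 + ∑ k ∈ (above H A G).image p, codim (⨅ s ∈ (above H A G).filter fun s => p s = k, H s)

section

variable {V : Type} [AddCommGroup V] [Module ℂ V] [FiniteDimensional ℂ V]

theorem codim_add (W : Submodule ℂ V) : codim W + finrank ℂ W = finrank ℂ V :=
  Submodule.finrank_quotient_add_finrank W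

theorem codim_dual (W : Submodule ℂ V) : codim W = finrank ℂ W.dualAnnihilator := by
  have h1 := codim_add W
  have h2 := Subspace.finrank_add_finrank_dualAnnihilator_eq W
  omega

theorem codim_inf_le (W W' : Submodule ℂ V) : codim (W ⊓ W') ≤ codim W + codim W' := by
  have h1 := codim_add W
  have h2 := codim_add W'
  have h3 := codim_add (W ⊓ W')
  have h4 := Submodule.finrank_sup_add_finrank_inf_eq W W'
  have h5 := Submodule.finrank_le (W ⊔ W')
  omega

theorem codim_mono {W W' : Submodule ℂ V} (h : W ≤ W') : codim W' ≤ codim W := by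
  have h1 := codim_add W
  have h2 := codim_add W'
  have h3 := Submodule.finrank_mono h
  omega

theorem codim_top : codim (⊤ : Submodule ℂ V) = 0 := by
  have h1 := codim_add (⊤ : Submodule ℂ V)
  rw [finrank_top] at h1
  omega

theorem codim_iInf_le {S : Type} [DecidableEq S] (T : Finset S) (W : S → Submodule ℂ V) :
    codim (⨅ k ∈ T, W k) ≤ ∑ k ∈ T, codim (W k) := by
  induction T using Finset.induction_on with
  | empty =>
    have : (⨅ k ∈ (∅ : Finset S), W k) = ⊤ := by simp
    rw [this, codim_top]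
    exact Nat.zero_le _
  | insert k0 T hk0 ih =>
    rw [Finset.sum_insert hk0, Finset.iInf_insert]
    exact (codim_inf_le _ _).trans (Nat.add_le_add_left ih _)

theorem codim_sup_span {W : Submodule ℂ V} {u : V} (hu : u ∉ W) :
    codim (W ⊔ Submodule.span ℂ {u}) + 1 = codim W := by
  have h0 : u ≠ 0 := by
    rintro rfl
    exact hu (Submodule.zero_mem _)
  have h1 := codim_add W
  have h2 := codim_add (W ⊔ Submodule.span ℂ {u})
  have h3 := Submodule.finrank_sup_add_finrank_inf_eq W (Submodule.span ℂ {u})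
  have h4 : W ⊓ Submodule.span ℂ {u} = ⊥ := by
    rw [eq_bot_iff]
    rintro x ⟨hx, hx'⟩
    obtain ⟨r, rfl⟩ := Submodule.mem_span_singleton.1 hx'
    by_cases hr : r = 0
    · rw [hr, zero_smul]; exact Submodule.zero_mem _
    · exact absurd ((Submodule.smul_mem_iff _ hr).1 hx) hu
  rw [h4, finrank_bot, finrank_span_singleton h0] at h3
  omega

theorem dual_iInf {S : Type} (T : Finset S) (H : S → Submodule ℂ V) :
    (⨅ s ∈ T, H s).dualAnnihilator = ⨆ s ∈ T, (H s).dualAnnihilator := by
  have h1 : (⨅ s ∈ T, H s) = ⨅ s : {s // s ∈ T}, H s.1 := iInf_subtype'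
  have h2 : (⨆ s ∈ T, (H s).dualAnnihilator) = ⨆ s : {s // s ∈ T}, (H s.1).dualAnnihilator :=
    iSup_subtype'
  rw [h1, h2]
  exact Subspace.dualAnnihilator_iInf_eq _

variable {S : Type} [Fintype S] (H : S → Submodule ℂ V) (A : S → Prop) (G : Submodule ℂ V)

theorem mem_above {s : S} : s ∈ above H A G ↔ A s ∧ G ≤ H s := by
  classical
  rw [above, Finset.mem_filter]
  exact ⟨fun h => h.2, fun h => ⟨Finset.mem_univ _, h⟩⟩

/-- one direction -/
theorem ineq_of_rees (h : IsReesFlat H A G) : PartitionIneq H A G := by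
  classical
  obtain ⟨⟨s0, hs0, hG0⟩, u, hu, huv⟩ := h
  intro p
  set X := above H A G with hX
  set L : S → Submodule ℂ V := fun k => ⨅ s ∈ X.filter fun s => p s = k, H s with hL
  have hmem : ∀ s, s ∈ X ↔ A s ∧ G ≤ H s := fun s => mem_above H A G
  have huL : ∀ k ∈ X.image p, u ∉ L k := by
    intro k hk hmemL
    obtain ⟨s, hs, rfl⟩ := Finset.mem_image.1 hk
    have h1 : L (p s) ≤ H s := iInf₂_le_of_le s (Finset.mem_filter.2 ⟨hs, rfl⟩) le_rfl
    exact hu s ((hmem s).1 hs).1 ((hmem s).1 hs).2 (h1 hmemL)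
  have huG : u ∉ G := fun h => hu s0 hs0 hG0 (hG0 h)
  have h1 : (⨅ k ∈ X.image p, L k ⊔ Submodule.span ℂ {u}) ≤ G ⊔ Submodule.span ℂ {u} := by
    intro v hv
    refine huv v fun s hs hGs => ?_
    have hsX : s ∈ X := (hmem s).2 ⟨hs, hGs⟩
    have h2 : (⨅ k ∈ X.image p, L k ⊔ Submodule.span ℂ {u}) ≤ L (p s) ⊔ Submodule.span ℂ {u} :=
      iInf₂_le_of_le (p s) (Finset.mem_image_of_mem p hsX) le_rfl
    have h3 : L (p s) ≤ H s := iInf₂_le_of_le s (Finset.mem_filter.2 ⟨hsX, rfl⟩) le_rfl
    exact sup_le_sup_right h3 _ (h2 hv)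
  have h2 := codim_mono h1
  have h3 := codim_iInf_le (X.image p) fun k => L k ⊔ Submodule.span ℂ {u}
  have h4 := codim_sup_span huG
  have h5 : ∑ k ∈ X.image p, codim (L k) =
      ∑ k ∈ X.image p, codim (L k ⊔ Submodule.span ℂ {u}) + (X.image p).card := by
    rw [Finset.card_eq_sum_ones, ← Finset.sum_add_distrib]
    exact Finset.sum_congr rfl fun k hk => (codim_sup_span (huL k hk)).symm
  change codim G + (X.image p).card ≤ 1 + ∑ k ∈ X.image p, codim (L k)
  omega

/-- **the other direction**, from the generic hyperplane theorem -/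
theorem rees_of_ineq (hH : ∀ s, A s → H s ≠ ⊤) (hne : ∃ s, A s ∧ G ≤ H s)
    (h : PartitionIneq H A G) : IsReesFlat H A G := by
  classical
  refine ⟨hne, ?_⟩
  set X := above H A G with hX
  have hmem : ∀ s, s ∈ X ↔ A s ∧ G ≤ H s := fun s => mem_above H A G
  set B : S → Submodule ℂ (Dual ℂ V) := fun s => (H s).dualAnnihilator with hB
  have hB0 : ∀ s ∈ X, B s ≠ ⊥ := by
    intro s hs hbot
    apply hH s ((hmem s).1 hs).1
    rw [Submodule.eq_top_iff']
    intro x
    rw [← Subspace.forall_mem_dualAnnihilator_apply_eq_zero_iff]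
    intro φ hφ
    have h1 : φ ∈ B s := hφ
    rw [hbot, Submodule.mem_bot] at h1
    rw [h1, LinearMap.zero_apply]
  obtain ⟨v, hv, p, hp⟩ := exists_section hB0
  -- `G` is the intersection
  obtain ⟨s0, hs0, hG0⟩ := hne
  have hs0X : s0 ∈ X := (hmem s0).2 ⟨hs0, hG0⟩
  have hGle : G ≤ ⨅ s ∈ X, H s := le_iInf₂ fun s hs => ((hmem s).1 hs).2
  have hGeq : G = ⨅ s ∈ X, H s := by
    have h1 := h fun _ => s0
    have h2 : X.image (fun _ : S => s0) = {s0} := Finset.image_const ⟨s0, hs0X⟩ s0
    have h3 : (X.filter fun _ => s0 = s0) = X := Finset.filter_true_of_mem fun _ _ => rfl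
    rw [← hX, h2, Finset.card_singleton, Finset.sum_singleton, h3] at h1
    refine Submodule.eq_of_le_of_finrank_le hGle ?_
    have e1 := codim_add G
    have e2 := codim_add (⨅ s ∈ X, H s)
    omega
  have hC : G.dualAnnihilator = ⨆ s ∈ X, B s := by
    rw [hGeq]
    exact dual_iInf X H
  have hcl : ∀ k, codim (⨅ s ∈ X.filter fun s => p s = k, H s) = finrank ℂ (Cl X B p k) := by
    intro k
    rw [codim_dual, dual_iInf]
    rfl
  have h1 := h p
  rw [← hX, Finset.sum_congr rfl fun k _ => hcl k, codim_dual G] at h1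
  -- the two subspaces
  have hle : Bd X B v ≤ G.dualAnnihilator ⊓ ann v := le_inf (hC ▸ bd_le) bd_le_ann
  have hlt : finrank ℂ (G.dualAnnihilator ⊓ ann v : Submodule ℂ (Dual ℂ V)) <
      finrank ℂ G.dualAnnihilator := by
    refine Submodule.finrank_lt_finrank_of_lt (lt_of_le_of_ne inf_le_left ?_)
    intro heq
    obtain ⟨x, hx, hx1⟩ := hv s0 hs0X
    have h2 : x ∈ G.dualAnnihilator := by
      rw [hC]
      exact (le_iSup₂_of_le (f := fun i (_ : i ∈ X) => B i) s0 hs0X le_rfl) hx
    rw [← heq] at h2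
    have h3 := mem_ann.1 h2.2
    rw [hx1] at h3
    exact one_ne_zero h3
  have heq : Bd X B v = G.dualAnnihilator ⊓ ann v :=
    Submodule.eq_of_le_of_finrank_le hle (by omega)
  refine ⟨v, fun s hs hGs hvs => ?_, fun v' hv' => ?_⟩
  · obtain ⟨x, hx, hx1⟩ := hv s ((hmem s).2 ⟨hs, hGs⟩)
    have h2 := (Submodule.mem_dualAnnihilator x).1 hx v hvs
    rw [hx1] at h2
    exact one_ne_zero h2
  · rw [← Subspace.forall_mem_dualAnnihilator_apply_eq_zero_iff]
    intro φ hφ
    have h2 : φ ∈ Bd X B v := by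
      rw [heq]
      refine ⟨?_, ?_⟩
      · rw [SetLike.mem_coe, Submodule.mem_dualAnnihilator]
        intro w hw
        exact (Submodule.mem_dualAnnihilator φ).1 hφ w (Submodule.mem_sup_left hw)
      · rw [SetLike.mem_coe, mem_ann]
        exact (Submodule.mem_dualAnnihilator φ).1 hφ v
          (Submodule.mem_sup_right (Submodule.mem_span_singleton_self v))
    have h3 : Bd X B v ≤ ann v' := by
      refine iSup₂_le fun s hs ψ hψ => ?_
      rw [mem_ann]
      obtain ⟨hs1, hs2⟩ := (hmem s).1 hs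
      obtain ⟨y, hy, z, hz, rfl⟩ := Submodule.mem_sup.1 (hv' s hs1 hs2)
      obtain ⟨r, rfl⟩ := Submodule.mem_span_singleton.1 hz
      rw [map_add, map_smul, (Submodule.mem_dualAnnihilator ψ).1 hψ.1 y hy, mem_ann.1 hψ.2,
        smul_zero, add_zero]
    exact mem_ann.1 (h3 h2)

/-- **The criterion.** -/
theorem rees_iff (hH : ∀ s, A s → H s ≠ ⊤) :
    IsReesFlat H A G ↔ (∃ s, A s ∧ G ≤ H s) ∧ PartitionIneq H A G :=
  ⟨fun h => ⟨h.1, ineq_of_rees H A G h⟩, fun h => rees_of_ineq H A G hH h.1 h.2⟩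

end

end Pool.Agent.V7H1.LV
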