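import Pool.Agent.V7H1.LV.Tang
import Pool.Agent.V7H1.LV.Crit

set_option autoImplicit false
set_option linter.unusedSectionVars false
set_option linter.unusedVariables false

/-! # The roots of the components of a resolution of products of ideals of smooth varieties -/

namespace Pool.Agent.V7H1.LV

open MvPowerSeries Pool.Agent.W574.SM Pool.Agent.TH187.SA Pool.Agent.Y231.RF
  Pool.Agent.TH192.DT Pool.Agent.R852.SC

variable {σ τ : Type} [Fintype σ] [DecidableEq σ] [Fintype τ] [DecidableEq τ] {κ : τ → Type}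
  [∀ t, Fintype (κ t)] [∀ t, DecidableEq (κ t)]

/-- Local structure at a point: the data. -/
structure LocalData (g : (t : τ) → κ t → MvPolynomial σ ℂ) (c : ℕ) (M : τ → ℕ) (p : σ → ℂ) where
  /-- the number of the ideals -/
  k : ℕ
  /-- local coordinates at `p` (up to their values at `p`) -/
  h : σ → MvPolynomial σ ℂ
  /-- the coordinates which define the centre -/
  N : Finset σ
  /-- a denominator -/
  u : MvPolynomial σ ℂ
  /-- the ideals -/
  K : Fin k → Ideal (MvPolynomial σ ℂ)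
  /-- the exponents -/
  m : τ → Fin k → ℕ
  det_ne : (Matrix.of fun i s => MvPolynomial.eval p (MvPolynomial.pderiv i (h s))).det ≠ 0
  card_eq : N.card = c
  eval_h : ∀ s ∈ N, MvPolynomial.eval p (h s) = 0
  eval_u : MvPolynomial.eval p u ≠ 0
  le_center : ∀ s, K s ≤ Ideal.span (h '' (N : Set σ))
  sum_eq : ∀ t, ∑ s, m t s = M t
  occurs : ∀ s, ∃ t, m t s ≠ 0
  mem_prod : ∀ t j, u * g t j ∈ ∏ s, K s ^ m t s
  prod_mem : ∀ t, ∀ x ∈ ∏ s, K s ^ m t s, u * x ∈ Ideal.span (Set.range (g t))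

/-- the centre -/
noncomputable def LocalData.J {g : (t : τ) → κ t → MvPolynomial σ ℂ} {c : ℕ} {M : τ → ℕ} {p : σ → ℂ}
    (L : LocalData g c M p) : Ideal (MvPolynomial σ ℂ) := Ideal.span (L.h '' (L.N : Set σ))

section

variable {g : (t : τ) → κ t → MvPolynomial σ ℂ} {c : ℕ} {M : τ → ℕ} {p : σ → ℂ}

theorem mem_tang_J (L : LocalData g c M p) {v : σ → ℂ} :
    v ∈ tang p L.J ↔ ∀ s ∈ L.N, dif p v (L.h s) = 0 := by
  constructor
  · exact fun hv s hs => hv _ (Ideal.subset_span ⟨s, hs, rfl⟩)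
  · intro hv f hf
    have : MvPolynomial.eval p f = 0 ∧ dif p v f = 0 := by
      unfold LocalData.J at hf
      induction hf using Submodule.span_induction with
      | mem f hf =>
        obtain ⟨s, hs, rfl⟩ := hf
        exact ⟨L.eval_h s hs, hv s hs⟩
      | zero => exact ⟨map_zero _, dif_zero _ _⟩
      | add f g _ _ hf hg => exact ⟨by rw [map_add, hf.1, hg.1, add_zero], by
          rw [dif_add, hf.2, hg.2, add_zero]⟩
      | smul q f _ hf => exact ⟨by rw [smul_eq_mul, map_mul, hf.1, mul_zero], by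
          rw [smul_eq_mul, dif_mul, hf.1, hf.2, mul_zero, zero_mul, add_zero]⟩
    exact this.2

theorem prod_le (L : LocalData g c M p) (t : τ) : ∏ s, L.K s ^ L.m t s ≤ L.J ^ M t := by
  rw [← L.sum_eq t, ← Finset.prod_pow_eq_pow_sum]
  exact Finset.prod_le_prod' fun s _ => Ideal.pow_right_mono (L.le_center s) _

theorem cc_der (r : σ) (a b : MvPowerSeries σ ℂ) : constantCoeff (pderiv ℂ r (a * b)) =
    constantCoeff a * constantCoeff (pderiv ℂ r b) +
      constantCoeff b * constantCoeff (pderiv ℂ r a) := by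
  rw [Derivation.leibniz, smul_eq_mul, smul_eq_mul, map_add, map_mul, map_mul]

/-- what one of the ideals gives in the chart -/
theorem one_ideal (L : LocalData g c M p) (w₀ : σ → ℂ) (z : σ) (hz : z ∈ L.N)
    (ξ : σ → MvPowerSeries σ ℂ) (e : σ → σ → ℂ)
    (hcc : ∀ q, constantCoeff (MvPolynomial.aeval ξ q) = MvPolynomial.eval p q)
    (had : ∀ r ∈ L.N, r ≠ z → ∀ q : MvPolynomial σ ℂ,
        constantCoeff (pderiv ℂ r (MvPolynomial.aeval ξ q)) = 0)
    (hJ : ∀ f ∈ L.J, MvPolynomial.eval p f = 0 ∧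
        ∃ v : MvPowerSeries σ ℂ, MvPolynomial.aeval ξ f = X z * v ∧ constantCoeff v = dif p w₀ f ∧
          ∀ r ∈ L.N, r ≠ z → constantCoeff (pderiv ℂ r v) = dif p (e r) f)
    (hw : ∀ s, w₀ ∉ tang p (L.K s)) (t : τ) :
    HasOrd z ξ (M t) (g t) ∧ ∀ s, L.m t s ≠ 0 → ∀ k₁ ∈ L.K s, dif p w₀ k₁ = 0 →
      ∃ ℓ : σ → ℂ, Cov z ξ (M t) (g t) ℓ ∧ ∀ r ∈ L.N, r ≠ z → ℓ r = dif p (e r) k₁ := by
  have hJm : ∀ (k : ℕ), ∀ y ∈ L.J ^ k,
      (X z : MvPowerSeries σ ℂ) ^ k ∣ MvPolynomial.aeval ξ y := fun k y hy =>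
    dvd_of_mem_pow (MvPolynomial.aeval ξ : MvPolynomial σ ℂ →ₐ[ℂ] MvPowerSeries σ ℂ).toRingHom
      _ _ (fun f hf => by
        obtain ⟨_, v, hv, _⟩ := hJ f hf
        exact ⟨v, hv⟩) k y hy
  have huu : IsUnit (MvPolynomial.aeval ξ L.u) := by
    rw [MvPowerSeries.isUnit_iff_constantCoeff, hcc]
    exact isUnit_iff_ne_zero.2 L.eval_u
  have hdiv : ∀ j, (X z : MvPowerSeries σ ℂ) ^ M t ∣ MvPolynomial.aeval ξ (g t j) := by
    intro j
    have h1 := hJm (M t) _ (prod_le L t (L.mem_prod t j))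
    rw [map_mul] at h1
    exact (huu.dvd_mul_left).1 h1
  choose V hV using hdiv
  have hXz : (X z : MvPowerSeries σ ℂ) ≠ 0 := X_ne0 z
  -- the relations
  have hrel : ∀ (y : MvPolynomial σ ℂ) (v : MvPowerSeries σ ℂ),
      y ∈ ∏ s, L.K s ^ L.m t s → MvPolynomial.aeval ξ y = X z ^ M t * v →
      ∃ a : κ t → MvPolynomial σ ℂ,
        MvPolynomial.aeval ξ L.u * v = ∑ j, MvPolynomial.aeval ξ (a j) * V j := by
    intro y v hy hv
    obtain ⟨a, ha⟩ := Ideal.mem_span_range_iff_exists_fun.1 (L.prod_mem t y hy)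
    refine ⟨a, ?_⟩
    apply mul_left_cancel₀ (pow_ne_zero (M t) hXz)
    have h1 := congrArg (MvPolynomial.aeval ξ) ha
    rw [map_sum, map_mul, hv] at h1
    calc X z ^ M t * (MvPolynomial.aeval ξ L.u * v) =
        MvPolynomial.aeval ξ L.u * (X z ^ M t * v) := by ring
      _ = ∑ j, MvPolynomial.aeval ξ (a j * g t j) := h1.symm
      _ = _ := by
        rw [Finset.mul_sum]
        refine Finset.sum_congr rfl fun j _ => ?_
        rw [map_mul, hV j]
        ring
  -- elements of order one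
  have hk0 : ∀ s, ∃ f ∈ L.K s, ∃ v : MvPowerSeries σ ℂ, MvPolynomial.aeval ξ f = X z * v ∧
      constantCoeff v ≠ 0 := by
    intro s
    have h1 := hw s
    rw [mem_tang] at h1
    push Not at h1
    obtain ⟨f, hf, hne⟩ := h1
    obtain ⟨_, v, hv, hv0, _⟩ := hJ f (L.le_center s hf)
    exact ⟨f, hf, v, hv, by rw [hv0]; exact hne⟩
  choose k0 hk0K v0 hk0v hv0 using hk0
  constructor
  · obtain ⟨a, ha⟩ := hrel (∏ s, k0 s ^ L.m t s) (∏ s, v0 s ^ L.m t s)
      (Ideal.prod_mem_prod fun s _ => Ideal.pow_mem_pow (hk0K s) _) (by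
        rw [map_prod, ← L.sum_eq t, ← Finset.prod_pow_eq_pow_sum, ← Finset.prod_mul_distrib]
        refine Finset.prod_congr rfl fun s _ => ?_
        rw [map_pow, hk0v s, mul_pow])
    obtain ⟨j, hj⟩ : ∃ j, constantCoeff (V j) ≠ 0 := by
      by_contra hcon
      push Not at hcon
      have h1 := congrArg constantCoeff ha
      rw [map_mul, hcc, map_sum, map_prod] at h1
      have h2 : ∑ j, constantCoeff (MvPolynomial.aeval ξ (a j) * V j) = 0 :=
        Finset.sum_eq_zero fun j _ => by rw [map_mul, hcon j, mul_zero]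
      rw [h2] at h1
      rcases mul_eq_zero.1 h1 with h3 | h3
      · exact L.eval_u h3
      · obtain ⟨s, _, h4⟩ := Finset.prod_eq_zero_iff.1 h3
        rw [map_pow] at h4
        exact hv0 s (eq_zero_of_pow_eq_zero h4)
    exact ⟨fun j => ⟨V j, hV j⟩, g t j, Submodule.subset_span ⟨j, rfl⟩, V j, hj, hV j⟩
  · intro s hs k₁ hk₁ hd
    obtain ⟨_, v₁, hv₁, hv₁0, hv₁r⟩ := hJ k₁ (L.le_center s hk₁)
    rw [hd] at hv₁0
    -- the product with one factor replaced
    obtain ⟨n, hn⟩ := Nat.exists_eq_succ_of_ne_zero hs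
    set R : MvPowerSeries σ ℂ := v0 s ^ n * ∏ s' ∈ Finset.univ.erase s, v0 s' ^ L.m t s' with hR
    have hR0 : constantCoeff R ≠ 0 := by
      rw [hR, map_mul, map_pow, map_prod]
      refine mul_ne_zero (pow_ne_zero _ (hv0 s)) (Finset.prod_ne_zero_iff.2 fun s' _ => ?_)
      rw [map_pow]
      exact pow_ne_zero _ (hv0 s')
    obtain ⟨a, ha⟩ := hrel (∏ s', if s' = s then k₁ * k0 s ^ n else k0 s' ^ L.m t s') (v₁ * R)
      (Ideal.prod_mem_prod fun s' _ => by
        by_cases h : s' = s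
        · subst h
          rw [if_pos rfl, hn, Nat.succ_eq_add_one, pow_succ']
          exact Ideal.mul_mem_mul hk₁ (Ideal.pow_mem_pow (hk0K _) _)
        · rw [if_neg h]
          exact Ideal.pow_mem_pow (hk0K _) _) (by
        rw [map_prod, ← Finset.mul_prod_erase _ _ (Finset.mem_univ s), if_pos rfl, map_mul,
          map_pow, hv₁, hk0v s]
        have h1 : ∏ s' ∈ Finset.univ.erase s, MvPolynomial.aeval ξ
            (if s' = s then k₁ * k0 s ^ n else k0 s' ^ L.m t s') =
            (∏ s' ∈ Finset.univ.erase s, X z ^ L.m t s') *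
              ∏ s' ∈ Finset.univ.erase s, v0 s' ^ L.m t s' := by
          rw [← Finset.prod_mul_distrib]
          refine Finset.prod_congr rfl fun s' hs' => ?_
          rw [if_neg (Finset.ne_of_mem_erase hs'), map_pow, hk0v s', mul_pow]
        have h2 : (X z : MvPowerSeries σ ℂ) ^ M t =
            X z ^ (n + 1) * ∏ s' ∈ Finset.univ.erase s, X z ^ L.m t s' := by
          rw [← L.sum_eq t, ← Finset.prod_pow_eq_pow_sum,
            ← Finset.mul_prod_erase _ _ (Finset.mem_univ s), hn]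
        rw [h1, h2, hR, mul_pow, pow_succ']
        ring)
    set w : MvPowerSeries σ ℂ := ∑ j, C (MvPolynomial.eval p (a j)) * V j with hwdef
    have hw0 : constantCoeff w = 0 := by
      have h1 := congrArg constantCoeff ha
      rw [map_mul, map_mul, hv₁0, zero_mul, mul_zero, map_sum] at h1
      rw [hwdef, map_sum, h1]
      refine Finset.sum_congr rfl fun j _ => ?_
      rw [map_mul, map_mul, constantCoeff_C, hcc]
    have hwr : ∀ r ∈ L.N, r ≠ z → constantCoeff (pderiv ℂ r w) =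
        MvPolynomial.eval p L.u * constantCoeff R * dif p (e r) k₁ := by
      intro r hr hrz
      have h1 : constantCoeff (pderiv ℂ r (MvPolynomial.aeval ξ L.u * (v₁ * R))) =
          constantCoeff (pderiv ℂ r (∑ j, MvPolynomial.aeval ξ (a j) * V j)) := by rw [ha]
      rw [cc_der, had r hr hrz, mul_zero, add_zero, hcc, cc_der, hv₁0, zero_mul, zero_add,
        hv₁r r hr hrz, map_sum, map_sum] at h1
      rw [hwdef, map_sum, map_sum]
      rw [mul_assoc, h1]
      refine Finset.sum_congr rfl fun j _ => ?_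
      rw [cc_der, pderiv_C, map_zero, mul_zero, add_zero, constantCoeff_C, cc_der,
        had r hr hrz, mul_zero, add_zero, hcc]
    set ρ : ℂ := MvPolynomial.eval p L.u * constantCoeff R with hρ
    have hρ0 : ρ ≠ 0 := mul_ne_zero L.eval_u hR0
    have hcov : Cov z ξ (M t) (g t) fun l => coeff (Finsupp.single l 1) w := by
      refine ⟨∑ j, MvPolynomial.eval p (a j) • g t j, Submodule.sum_mem _ fun j _ =>
        Submodule.smul_mem _ _ (Submodule.subset_span ⟨j, rfl⟩), w, hw0, fun l _ => rfl, ?_⟩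
      rw [map_sum, hwdef, Finset.mul_sum]
      refine Finset.sum_congr rfl fun j _ => ?_
      rw [map_smul, hV j, smul_eq_C_mul]
      ring
    refine ⟨_, cov_smul ρ⁻¹ hcov, fun r hr hrz => ?_⟩
    rw [Pi.smul_apply, smul_eq_mul]
    have h3 : coeff (Finsupp.single r 1) w = constantCoeff (pderiv ℂ r w) := by
      rw [← coeff_zero_eq_constantCoeff_apply, coeff_pderiv]
      simp
    rw [h3, hwr r hr hrz, ← mul_assoc, inv_mul_cancel₀ hρ0, one_mul]

end

end Pool.Agent.V7H1.LV
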