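import Pool.Agent.V7H1.LV.Fin

set_option autoImplicit false
set_option linter.unusedSectionVars false
set_option linter.unusedVariables false

/-! # The chart of a Rees divisor which belongs to a centre -/

namespace Pool.Agent.V7H1.LV

open MvPowerSeries Pool.Agent.W574.SM Pool.Agent.W574.LM Pool.Agent.W574.HS
  Pool.Agent.TH187.SA Pool.Agent.Y231.RF
  Pool.Agent.TH192.DT Pool.Agent.R852.SC

variable {σ τ : Type} [Fintype σ] [DecidableEq σ] [Fintype τ] [DecidableEq τ] {κ : τ → Type}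
  [∀ t, Fintype (κ t)] [∀ t, DecidableEq (κ t)]

/-- a basis in a spanning set, indexed by the coordinates -/
theorem exists_basis_in {D : Type} [Fintype D] (C : Set (D → ℂ))
    (hC : Submodule.span ℂ C = ⊤) : ∃ β : D → D → ℂ, (∀ r, β r ∈ C) ∧ LinearIndependent ℂ β := by
  classical
  obtain ⟨b, hbC, hspan, hli⟩ := exists_linearIndependent ℂ C
  rw [hC] at hspan
  let B : Module.Basis b ℂ (D → ℂ) := Module.Basis.mk hli (by
    rw [Subtype.range_coe]
    exact hspan.ge)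
  have hfin : Finite b := Module.Finite.finite_basis B
  have := Fintype.ofFinite b
  have hcard : Fintype.card D = Fintype.card b := by
    rw [← Module.finrank_eq_card_basis B, Module.finrank_fintype_fun_eq_card]
  let e : D ≃ b := Fintype.equivOfCardEq hcard
  refine ⟨fun r => (e r : D → ℂ), fun r => hbC (e r).2, ?_⟩
  exact hli.comp e e.injective

/-- what a covector of one ideal gives -/
theorem coord_of_cov {ι : Type} [Fintype ι] (f : ι → MvPolynomial σ ℂ) (z : σ)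
    (ξ : σ → MvPowerSeries σ ℂ) (A : ℕ) (V : MvPowerSeries σ ℂ) (hV : constantCoeff V ≠ 0)
    (j0 : ι) (hj0 : MvPolynomial.aeval ξ (f j0) = X z ^ A * V) (ℓ : σ → ℂ)
    (h : Cov z ξ A f ℓ) :
    ∃ w : MvPowerSeries σ ℂ, constantCoeff w = 0 ∧
      (∀ r, r ≠ z → constantCoeff (pderiv ℂ r w) = constantCoeff V⁻¹ * ℓ r) ∧
      ∃ c : ι → ℂ, ∑ j, c j • MvPolynomial.aeval ξ (f j) =
        MvPolynomial.aeval ξ (f j0) * w := by
  obtain ⟨G, hG, y, hy0, hy1, hy2⟩ := h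
  obtain ⟨cf, hcf⟩ := (Submodule.mem_span_range_iff_exists_fun ℂ).1 hG
  refine ⟨y * V⁻¹, ?_, fun r hrz => ?_, cf, ?_⟩
  · rw [map_mul, hy0, zero_mul]
  · have h2 : coeff (Finsupp.single r 1) y = constantCoeff (pderiv ℂ r y) := by
      rw [← coeff_zero_eq_constantCoeff_apply, coeff_pderiv]
      simp
    rw [cc_der, hy0, zero_mul, zero_add, ← h2, hy1 r hrz]
  · have h3 : X z ^ A * V * (y * V⁻¹) = X z ^ A * y := by
      have h4 : V * V⁻¹ = 1 := MvPowerSeries.mul_inv_cancel _ hV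
      calc X z ^ A * V * (y * V⁻¹) = X z ^ A * y * (V * V⁻¹) := by ring
        _ = X z ^ A * y := by rw [h4, mul_one]
    rw [hj0, h3, ← hy2, ← hcf, map_sum]
    exact Finset.sum_congr rfl fun j _ => (map_smul _ _ _).symm

/-- **The chart of the Rees divisor which belongs to a centre.** -/
theorem exists_chart (g : (t : τ) → κ t → MvPolynomial σ ℂ)
    (c : ℕ) (M : τ → ℕ) (p : σ → ℂ) (L : LocalData g c M p) (A : τ → Prop)
    (hA : ∀ s, ∃ t, A t ∧ L.m t s ≠ 0)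
    (hR : IsReesFlat (fun s => tang p (L.K s)) (fun _ => True) (tang p L.J)) :
    ∃ E : Chart g, E.k + 1 = c ∧ E.m = M ∧ E.IsRees A ∧
      ∀ H, MvPolynomial.eval p H ≠ 0 → constantCoeff (MvPolynomial.aeval E.ξ H) ≠ 0 := by
  classical
  obtain ⟨⟨s0, _, _⟩, w₀, hw1, hw2⟩ := hR
  have hle : ∀ s, tang p L.J ≤ tang p (L.K s) := fun s => tang_mono p (L.le_center s)
  have hwK : ∀ s, w₀ ∉ tang p (L.K s) := fun s => hw1 s trivial (hle s)
  obtain ⟨z, hz, hω⟩ : ∃ z ∈ L.N, dif p w₀ (L.h z) ≠ 0 := by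
    by_contra hcon
    push Not at hcon
    exact hwK s0 (hle s0 ((mem_tang_J L).2 hcon))
  obtain ⟨ξ, e, hcc, ⟨U0, hU0, hJac⟩, he, hT, hhz, had, hJ⟩ :=
    exists_blow L.h L.N p w₀ L.det_ne L.eval_h z hz hω
  have hone := one_ideal L w₀ z hz ξ e hcc had hJ hwK
  have hgen := fun t => exists_unit_gen (g t) z ξ (M t) (hone t).1
  choose V hV j0 hj0 using hgen
  -- the covectors
  let CC : Set (σ → ℂ) := {ℓ | ∃ t, A t ∧ Cov z ξ (M t) (g t) ℓ}
  have hW : ∀ s, ∀ k₁ ∈ L.K s, dif p w₀ k₁ = 0 →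
      ∃ ℓ ∈ Submodule.span ℂ CC, ∀ r ∈ L.N, r ≠ z → ℓ r = dif p (e r) k₁ := by
    intro s k₁ hk₁ hd
    obtain ⟨t, hAt, ht⟩ := hA s
    obtain ⟨ℓ, hℓ, hℓr⟩ := (hone t).2 s ht k₁ hk₁ hd
    exact ⟨ℓ, Submodule.subset_span ⟨t, hAt, hℓ⟩, hℓr⟩
  have hcov := fun s hs hsz => exists_covs L w₀ hwK
    (fun v hv => hw2 v fun s _ _ => hv s) z hz hω e he _ hW s hs hsz
  let D : Type := {r : σ // r ∈ L.N ∧ r ≠ z}
  let R : (σ → ℂ) →ₗ[ℂ] (D → ℂ) := LinearMap.pi fun r => LinearMap.proj r.1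
  have hspan : Submodule.span ℂ (R '' CC) = ⊤ := by
    rw [Submodule.span_image, eq_top_iff]
    intro x _
    have hx : x = ∑ r : D, x r • (Pi.single r (1 : ℂ) : D → ℂ) := by
      funext r
      rw [Finset.sum_apply, Finset.sum_eq_single r]
      · simp
      · intro r' _ hr'
        rw [Pi.smul_apply, Pi.single_eq_of_ne (Ne.symm hr'), smul_zero]
      · intro h
        exact absurd (Finset.mem_univ r) h
    rw [hx]
    refine Submodule.sum_mem _ fun r _ => Submodule.smul_mem _ _ ?_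
    obtain ⟨ℓ, hℓ, hℓr⟩ := hcov r.1 r.2.1 r.2.2
    refine ⟨ℓ, hℓ, ?_⟩
    funext r'
    change ℓ r'.1 = (Pi.single r (1 : ℂ) : D → ℂ) r'
    rw [hℓr r'.1 r'.2.1 r'.2.2, Pi.single_apply]
    by_cases h : r' = r
    · rw [if_pos h, if_pos (congrArg Subtype.val h)]
    · rw [if_neg h, if_neg fun h' => h (Subtype.ext h')]
  obtain ⟨β, hβ, hβli⟩ := exists_basis_in (R '' CC) hspan
  -- the coordinates
  have hex : ∀ r : σ, ∃ w : MvPowerSeries σ ℂ, ∃ u : ℂ, u ≠ 0 ∧ constantCoeff w = 0 ∧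
      (¬ (r ∈ L.N ∧ r ≠ z) → w = X r) ∧
      ∀ hr : r ∈ L.N ∧ r ≠ z, (∀ r' : D, constantCoeff (pderiv ℂ r'.1 w) = u * β ⟨r, hr⟩ r') ∧
        ∃ t, A t ∧ ∃ cf : κ t → ℂ, ∑ j, cf j • MvPolynomial.aeval ξ (g t j) =
          MvPolynomial.aeval ξ (g t (j0 t)) * w := by
    intro r
    by_cases hr : r ∈ L.N ∧ r ≠ z
    · obtain ⟨ℓ, ⟨t, hAt, hℓ⟩, hℓβ⟩ := hβ ⟨r, hr⟩
      obtain ⟨w, hw0, hw1, cf, hcf⟩ := coord_of_cov (g t) z ξ (M t) (V t (j0 t)) (hj0 t) (j0 t)
        (hV t (j0 t)) ℓ hℓ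
      refine ⟨w, constantCoeff (V t (j0 t))⁻¹, ?_, hw0, fun h => absurd hr h, fun _ => ⟨fun r' => ?_,
        t, hAt, cf, hcf⟩⟩
      · intro h0
        have h2 := congrArg constantCoeff (MvPowerSeries.mul_inv_cancel (V t (j0 t)) (hj0 t))
        rw [map_mul, h0, mul_zero, map_one] at h2
        exact zero_ne_one h2
      · rw [hw1 r'.1 r'.2.2, ← hℓβ]
        rfl
    · exact ⟨X r, 1, one_ne_zero, constantCoeff_X r, fun _ => rfl, fun h => absurd h hr⟩
  choose w u hu hw0 hwX hwN using hex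
  have hdet : (Matrix.of fun s t => constantCoeff (pderiv ℂ s (w t))).det ≠ 0 := by
    intro hdet0
    obtain ⟨x, hx0, hx⟩ := Matrix.exists_mulVec_eq_zero_iff.2 hdet0
    apply hx0
    have hrow : ∀ r, ∑ s, constantCoeff (pderiv ℂ r (w s)) * x s = 0 := fun r => congrFun hx r
    have hD : ∀ r : D, x r.1 = 0 := by
      have h1 : ∑ r : D, (u r.1 * x r.1) • β r = 0 := by
        funext r'
        rw [Finset.sum_apply, Pi.zero_apply, ← hrow r'.1]
        have h2 : ∀ s, ¬ (s ∈ L.N ∧ s ≠ z) → constantCoeff (pderiv ℂ r'.1 (w s)) * x s = 0 := by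
          intro s hs
          have hne : r'.1 ≠ s := fun h => hs (h ▸ r'.2)
          rw [hwX s hs, pderiv_X_of_ne (Ne.symm hne), map_zero, zero_mul]
        have h3 : ∑ s, constantCoeff (pderiv ℂ r'.1 (w s)) * x s =
            ∑ r : D, constantCoeff (pderiv ℂ r'.1 (w r.1)) * x r.1 := by
          rw [← Finset.sum_subset (Finset.subset_univ
            (Finset.univ.filter fun s => s ∈ L.N ∧ s ≠ z))]
          · exact Finset.sum_subtype _ (fun s => by simp) _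
          · intro s _ hs
            exact h2 s fun h => hs (Finset.mem_filter.2 ⟨Finset.mem_univ s, h⟩)
        rw [h3]
        refine Finset.sum_congr rfl fun r _ => ?_
        rw [(hwN r.1 r.2).1 r', Pi.smul_apply, smul_eq_mul]
        ring
      intro r
      have h2 := Fintype.linearIndependent_iff.1 hβli _ h1 r
      exact (mul_eq_zero.1 h2).resolve_left (hu r.1)
    funext r
    by_cases hr : r ∈ L.N ∧ r ≠ z
    · exact hD ⟨r, hr⟩
    · have h2 := hrow r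
      rw [Finset.sum_eq_single r] at h2
      · rw [hwX r hr, pderiv_X_self, map_one, one_mul] at h2
        exact h2
      · intro s _ hsr
        by_cases hs : s ∈ L.N ∧ s ≠ z
        · rw [hD ⟨s, hs⟩, mul_zero]
        · rw [hwX s hs, pderiv_X_of_ne hsr, map_zero, zero_mul]
      · intro h
        exact absurd (Finset.mem_univ r) h
  refine ⟨⟨z, ξ, L.N.card - 1, M, j0, ⟨U0, hU0, hJac⟩, fun t j => ⟨V t j, hV t j⟩,
    fun t => ⟨V t (j0 t), hj0 t, hV t (j0 t)⟩⟩, ?_, rfl, ⟨w, hwX z fun h => h.2 rfl, hw0, hdet,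
    fun s hsz => ?_⟩, fun H hH => ?_⟩
  · have h2 : L.N.card - 1 + 1 = L.N.card := Nat.sub_add_cancel (Finset.card_pos.2 ⟨z, hz⟩)
    exact h2.trans L.card_eq
  · by_cases hs : s ∈ L.N
    · obtain ⟨t, hAt, cf, hcf⟩ := (hwN s ⟨hs, hsz⟩).2
      exact Or.inr ⟨t, hAt, cf, hcf⟩
    · refine Or.inl ⟨L.h s - MvPolynomial.C (MvPolynomial.eval p (L.h s)), ?_⟩
      rw [hwX s fun h => hs h.1]
      exact hT s hs
  · change constantCoeff (MvPolynomial.aeval ξ H) ≠ 0
    rw [hcc]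
    exact hH

end Pool.Agent.V7H1.LV
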