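import Mathlib

set_option autoImplicit false
set_option linter.unusedSectionVars false
set_option linter.unusedVariables false

/-! # Generic hyperplane sections of families of subspaces (Lovász) -/

namespace Pool.Agent.V7H1.LV

open Module Filter Topology

section

variable {V : Type*} [AddCommGroup V] [Module ℂ V]

/-- the linear forms which vanish at `v` -/
def ann (v : V) : Submodule ℂ (Dual ℂ V) := LinearMap.ker (Dual.eval ℂ V v)

theorem mem_ann {v : V} {x : Dual ℂ V} : x ∈ ann v ↔ x v = 0 := by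
  rw [ann, LinearMap.mem_ker, Dual.eval_apply]

variable [FiniteDimensional ℂ V]

theorem eventually_indep {k : ℕ} (p q : Fin k → Dual ℂ V) (h : LinearIndependent ℂ p) :
    ∀ᶠ t : ℂ in 𝓝 0, LinearIndependent ℂ fun i => p i + t • q i := by
  let e : Dual ℂ V ≃ₗ[ℂ] (Fin (finrank ℂ (Dual ℂ V)) → ℂ) :=
    (Module.finBasis ℂ (Dual ℂ V)).equivFun
  have hc : Continuous fun t : ℂ => (fun i => e (p i) + t • e (q i) :
      Fin k → (Fin (finrank ℂ (Dual ℂ V)) → ℂ)) := by fun_prop
  have ho : IsOpen {f : Fin k → (Fin (finrank ℂ (Dual ℂ V)) → ℂ) | LinearIndependent ℂ f} :=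
    isOpen_setOfPred_linearIndependent
  have h0 : (fun i => e (p i) + (0 : ℂ) • e (q i)) ∈
      {f : Fin k → (Fin (finrank ℂ (Dual ℂ V)) → ℂ) | LinearIndependent ℂ f} := by
    change LinearIndependent ℂ _
    have : (fun i => e (p i) + (0 : ℂ) • e (q i)) = e.toLinearMap ∘ p := by
      funext i
      rw [zero_smul, add_zero]
      rfl
    rw [this]
    exact h.map' e.toLinearMap (LinearMap.ker_eq_bot_of_injective e.injective)
  have h1 := (ho.preimage hc).mem_nhds h0
  filter_upwards [h1] with t ht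
  have h2 : LinearIndependent ℂ fun i => e (p i) + t • e (q i) := ht
  refine LinearIndependent.of_comp e.toLinearMap ?_
  convert h2 using 1
  funext i
  simp

end

variable {V S : Type*} [AddCommGroup V] [Module ℂ V]

/-- the span of the sections with the hyperplane `v = 0` of the dual space -/
def Bd (X : Finset S) (A : S → Submodule ℂ (Dual ℂ V)) (v : V) : Submodule ℂ (Dual ℂ V) :=
  ⨆ i ∈ X, A i ⊓ ann v

/-- all members have elements which do not vanish at `v` -/
def Adm (X : Finset S) (A : S → Submodule ℂ (Dual ℂ V)) (v : V) : Prop :=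
  ∀ i ∈ X, ∃ x ∈ A i, x v = 1

/-- `A i` and `A j` give the same point of the quotient by `Bd X A v`. -/
def Rel (X : Finset S) (A : S → Submodule ℂ (Dual ℂ V)) (v : V) (i j : S) : Prop :=
  ∀ x ∈ A i, ∀ y ∈ A j, x v = y v → x - y ∈ Bd X A v

section

variable {X : Finset S} {A : S → Submodule ℂ (Dual ℂ V)} {v : V}

theorem le_bd {i : S} (hi : i ∈ X) : A i ⊓ ann v ≤ Bd X A v :=
  le_iSup₂_of_le (f := fun i (_ : i ∈ X) => A i ⊓ ann v) i hi le_rfl

theorem mem_bd {i : S} (hi : i ∈ X) {x : Dual ℂ V} (hx : x ∈ A i) (h : x v = 0) :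
    x ∈ Bd X A v := le_bd hi ⟨hx, mem_ann.2 h⟩

theorem bd_le_ann : Bd X A v ≤ ann v := iSup₂_le fun _ _ => inf_le_right

theorem bd_le : Bd X A v ≤ ⨆ i ∈ X, A i :=
  iSup₂_mono fun _ _ => inf_le_left

theorem rel_refl {i : S} (hi : i ∈ X) : Rel X A v i i := fun x hx y hy h =>
  mem_bd hi (Submodule.sub_mem _ hx hy) (by rw [LinearMap.sub_apply, h, sub_self])

theorem Rel.symm {i j : S} (h : Rel X A v i j) : Rel X A v j i := fun x hx y hy hxy => by
  rw [← neg_sub]
  exact Submodule.neg_mem _ (h y hy x hx hxy.symm)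

theorem Rel.trans (hv : Adm X A v) {i j k : S} (hj : j ∈ X) (h : Rel X A v i j)
    (h' : Rel X A v j k) : Rel X A v i k := fun x hx z hz hxz => by
  obtain ⟨a, ha, ha1⟩ := hv j hj
  have e1 := h x hx (x v • a) (Submodule.smul_mem _ _ ha) (by
    rw [LinearMap.smul_apply, ha1, smul_eq_mul, mul_one])
  have e2 := h' (x v • a) (Submodule.smul_mem _ _ ha) z hz (by
    rw [LinearMap.smul_apply, ha1, smul_eq_mul, mul_one, hxz])
  have := Submodule.add_mem _ e1 e2
  rwa [sub_add_sub_cancel] at this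

/-- a form in the span of the sections, moved along with the hyperplane -/
theorem pert {i : S} (hi : i ∈ X) {x y : Dual ℂ V} (hx : x ∈ A i) (hy : y ∈ A i) (v' : V) :
    y v' • x - x v' • y ∈ Bd X A v' := by
  refine mem_bd hi (Submodule.sub_mem _ (Submodule.smul_mem _ _ hx) (Submodule.smul_mem _ _ hy)) ?_
  rw [LinearMap.sub_apply, LinearMap.smul_apply, LinearMap.smul_apply, smul_eq_mul, smul_eq_mul,
    mul_comm, sub_self]

theorem bd_eq_span : Bd X A v = Submodule.span ℂ {x | ∃ i ∈ X, x ∈ A i ∧ x v = 0} := by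
  apply le_antisymm
  · refine iSup₂_le fun i hi x hx => Submodule.subset_span ⟨i, hi, hx.1, mem_ann.1 hx.2⟩
  · rw [Submodule.span_le]
    rintro x ⟨i, hi, hx, h⟩
    exact mem_bd hi hx h

variable [FiniteDimensional ℂ V]

/-- a basis of the span of the sections, moved along with the hyperplane -/
theorem exists_moving (hv : Adm X A v) (w : V) :
    ∃ p q : Fin (finrank ℂ (Bd X A v)) → Dual ℂ V, LinearIndependent ℂ p ∧
      Submodule.span ℂ (Set.range p) = Bd X A v ∧
      ∀ t : ℂ, ∀ i, p i + t • q i ∈ Bd X A (v + t • w) := by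
  obtain ⟨f, hf, hspan, hind⟩ := Submodule.exists_fun_fin_finrank_span_eq ℂ
    {x : Dual ℂ V | ∃ i ∈ X, x ∈ A i ∧ x v = 0}
  have hspan' := hspan.trans bd_eq_span.symm
  have hr : finrank ℂ (Submodule.span ℂ {x : Dual ℂ V | ∃ i ∈ X, x ∈ A i ∧ x v = 0}) =
      finrank ℂ (Bd X A v) := by rw [← bd_eq_span]
  have key : ∀ i, ∃ q : Dual ℂ V, ∀ t : ℂ, f i + t • q ∈ Bd X A (v + t • w) := by
    intro i
    obtain ⟨j, hj, hx, h0⟩ := hf i
    obtain ⟨y, hy, hy1⟩ := hv j hj
    refine ⟨y w • f i - f i w • y, fun t => ?_⟩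
    have := pert hj hx hy (v + t • w)
    rw [map_add, map_add, hy1, h0, map_smul, map_smul, zero_add, smul_eq_mul, smul_eq_mul,
      add_smul, one_smul] at this
    convert this using 1
    rw [smul_sub, smul_smul, smul_smul]
    abel
  choose q hq using key
  refine ⟨fun i => f (finCongr hr.symm i), fun i => q (finCongr hr.symm i), ?_, ?_, ?_⟩
  · exact hind.comp _ (finCongr hr.symm).injective
  · refine Eq.trans ?_ hspan'
    congr 1
    ext x
    constructor
    · rintro ⟨i, rfl⟩
      exact ⟨_, rfl⟩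
    · rintro ⟨i, rfl⟩
      exact ⟨finCongr hr i, by simp⟩
  · exact fun t i => hq _ t

/-- lower semicontinuity of the dimension -/
theorem eventually_finrank (hv : Adm X A v) (w : V) :
    ∀ᶠ t : ℂ in 𝓝 0, finrank ℂ (Bd X A v) ≤ finrank ℂ (Bd X A (v + t • w)) := by
  obtain ⟨p, q, hp, -, hq⟩ := exists_moving hv w
  filter_upwards [eventually_indep p q hp] with t ht
  let f : Fin (finrank ℂ (Bd X A v)) → Bd X A (v + t • w) := fun i => ⟨_, hq t i⟩
  have hf : LinearIndependent ℂ f := by
    refine LinearIndependent.of_comp (Bd X A (v + t • w)).subtype ?_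
    exact ht
  have := hf.fintype_card_le_finrank
  rwa [Fintype.card_fin] at this

/-- closedness of the span of the sections where the dimension is constant -/
theorem eventually_notMem (hv : Adm X A v) (w : V)
    (hmax : ∀ v', Adm X A v' → finrank ℂ (Bd X A v') ≤ finrank ℂ (Bd X A v))
    (hadm : ∀ᶠ t : ℂ in 𝓝 0, Adm X A (v + t • w)) (p q : Dual ℂ V) (hp : p ∉ Bd X A v) :
    ∀ᶠ t : ℂ in 𝓝 0, p + t • q ∉ Bd X A (v + t • w) := by
  obtain ⟨p', q', hp', hspan, hq'⟩ := exists_moving hv w
  have h1 : LinearIndependent ℂ (Fin.cons p p' : Fin (finrank ℂ (Bd X A v) + 1) → Dual ℂ V) := by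
    rw [linearIndependent_finCons]
    exact ⟨hp', by rwa [hspan]⟩
  filter_upwards [eventually_indep _ (Fin.cons q q') h1, hadm] with t ht hadm' hmem
  let f : Fin (finrank ℂ (Bd X A v) + 1) → Bd X A (v + t • w) :=
    Fin.cons ⟨p + t • q, hmem⟩ fun i => ⟨_, hq' t i⟩
  have hf : LinearIndependent ℂ f := by
    refine LinearIndependent.of_comp (Bd X A (v + t • w)).subtype ?_
    convert ht using 1
    funext i
    refine Fin.cases ?_ (fun i => ?_) i
    · rfl
    · rfl
  have h2 := hf.fintype_card_le_finrank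
  rw [Fintype.card_fin] at h2
  have h3 := hmax _ hadm'
  omega

end

end Pool.Agent.V7H1.LV
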