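import Pool.Agent.V7H1.LV.Roots
import Pool.Agent.R852.SC.Main
import Pool.Agent.Y228.RR.Top
import Pool.Agent.TH187.SA.Classes

set_option autoImplicit false
set_option linter.unusedSectionVars false
set_option linter.unusedVariables false

/-! # The roots and the poles -/

namespace Pool.Agent.V7H1.LV

open MvPowerSeries Pool.Agent.W574.SM Pool.Agent.W574.LM Pool.Agent.W574.HS
  Pool.Agent.H628R4.TP Pool.Agent.TH187.SA Pool.Agent.Y231.RF Pool.Agent.Y228.RR
  Pool.Agent.TH192.DT Pool.Agent.R852.SC

section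

variable {σ τ : Type} [Fintype σ] [DecidableEq σ] [Fintype τ] [DecidableEq τ] {κ : τ → Type}
  [∀ t, Fintype (κ t)] [∀ t, DecidableEq (κ t)]

open Classical in
/-- The partition inequality for a finite family of subspaces `H s` and a number `ν`: for every
partition of the family into blocks, `ν - 1` is at most the sum of the numbers `codim - 1` over the
blocks, where `codim` is the codimension of the intersection of the `H s` in the block. The blocks
are the fibres of a map `q`. -/
def BlockIneq {V S : Type} [AddCommGroup V] [Module ℂ V] [Fintype S] (ν : ℕ)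
    (H : S → Submodule ℂ V) : Prop :=
  ∀ q : S → S, ν + (Finset.univ.image q).card ≤
    1 + ∑ i ∈ Finset.univ.image q, codim (⨅ s ∈ Finset.univ.filter (fun s => q s = i), H s)

/-- The partition inequality at a point, for the tangent spaces of the ideals. -/
def LocalData.Ineq {g : (t : τ) → κ t → MvPolynomial σ ℂ} {ν : ℕ} {M : τ → ℕ} {p : σ → ℂ}
    (L : LocalData g ν M p) : Prop :=
  BlockIneq ν fun s => tang p (L.K s)

theorem codim_tang_J {g : (t : τ) → κ t → MvPolynomial σ ℂ} {ν : ℕ} {M : τ → ℕ} {p : σ → ℂ}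
    (L : LocalData g ν M p) : codim (tang p L.J) ≤ ν := by
  classical
  let D : σ → ((σ → ℂ) →ₗ[ℂ] ℂ) := fun s =>
    { toFun := fun v => dif p v (L.h s)
      map_add' := fun v v' => dif_add_dir p v v' _
      map_smul' := fun r v => dif_smul_dir p v r _ }
  have h1 : tang p L.J = ⨅ s ∈ L.N, LinearMap.ker (D s) := by
    ext v
    rw [mem_tang_J]
    simp only [Submodule.mem_iInf, LinearMap.mem_ker]
    rfl
  have h2 : ∀ s, codim (LinearMap.ker (D s)) ≤ 1 := by
    intro s
    have h3 := (D s).quotKerEquivRange.finrank_eq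
    unfold codim
    rw [h3]
    have h4 := Submodule.finrank_le (LinearMap.range (D s))
    simpa using h4
  have h3 : ∀ N : Finset σ, codim (⨅ s ∈ N, LinearMap.ker (D s)) ≤ N.card := by
    intro N
    induction N using Finset.induction_on with
    | empty =>
      simp only [Finset.notMem_empty, iInf_false, iInf_top, Finset.card_empty]
      exact codim_top.le
    | insert s N hs ih =>
      rw [Finset.iInf_insert, Finset.card_insert_of_notMem hs]
      have h4 := codim_inf_le (LinearMap.ker (D s)) (⨅ s ∈ N, LinearMap.ker (D s))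
      have h5 := h2 s
      omega
  rw [h1]
  exact (h3 _).trans L.card_eq.le

/-- the flat is a Rees flat -/
theorem LocalData.rees {g : (t : τ) → κ t → MvPolynomial σ ℂ} {ν : ℕ} {M : τ → ℕ} {p : σ → ℂ}
    (L : LocalData g ν M p) (hk : 0 < L.k) (hK : ∀ s, tang p (L.K s) ≠ ⊤) (hI : L.Ineq) :
    IsReesFlat (fun s => tang p (L.K s)) (fun _ => True) (tang p L.J) := by
  have hle : ∀ s, tang p L.J ≤ tang p (L.K s) := fun s => tang_mono p (L.le_center s)
  refine rees_of_ineq _ _ _ (fun s _ => hK s) ⟨⟨0, hk⟩, trivial, hle _⟩ fun q => ?_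
  have ha : above (fun s => tang p (L.K s)) (fun _ => True) (tang p L.J) = Finset.univ := by
    ext s
    rw [mem_above]
    exact ⟨fun _ => Finset.mem_univ s, fun _ => ⟨trivial, hle s⟩⟩
  rw [ha]
  refine Nat.le_trans (Nat.add_le_add_right (codim_tang_J L) _) ?_
  exact hI q

/-- The numerical data `ν`, `M` of a component `E` of a resolution are detected: either `E` is the
component of a centre of codimension `ν` at a general point of which the ideals are products of ideals of smooth
varieties for which the partition inequality holds; or the ideals are generated by forms of the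
degrees `M t`, `E` is the exceptional divisor of the blow-up of the origin, and for some `t` there
are algebraically independent forms `g t (e s)`, `s ∈ σ`. -/
def Detected (g : (t : τ) → κ t → MvPolynomial σ ℂ) (ν : ℕ) (M : τ → ℕ) : Prop :=
  (∃ (p : σ → ℂ) (L : LocalData g ν M p), 0 < L.k ∧ (∀ s, tang p (L.K s) ≠ ⊤) ∧ L.Ineq) ∨
  (ν = Fintype.card σ ∧ (∀ t, 0 < M t) ∧ (∀ t j, (g t j).IsHomogeneous (M t)) ∧
    ∃ t, ∃ e : σ → κ t, (Matrix.of fun i s => MvPolynomial.pderiv i (g t (e s))).det ≠ 0)

/-- **The root of a detected component.** -/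
theorem detected_root (a : τ → ℕ) (ha : ∀ t, 0 < a t) (g : (t : τ) → κ t → MvPolynomial σ ℂ)
    (hg : ∀ t, ∃ j, g t j ≠ 0) (ν : ℕ) (M : τ → ℕ) (h : Detected g ν M)
    (hN : 0 < ∑ t, a t * M t) (b : Polynomial ℂ) (hb : IsBFunction (powProd a g) b) :
    b.eval (-(ν : ℂ) / (∑ t, a t * M t : ℕ)) = 0 := by
  obtain ⟨t0, _, ht0⟩ := Finset.exists_ne_zero_of_sum_ne_zero hN.ne'
  obtain ⟨H, hH, hHb⟩ := locEq_global a g b hb ⟨t0, left_ne_zero_of_mul ht0⟩
  rcases h with ⟨p, L, hk, hK, hI⟩ | ⟨rfl, hM, hhom, t1, e, he⟩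
  · have hHp : MvPolynomial.eval p H ≠ 0 := by
      have h1 := hH fun s => C (p s)
      have h2 : (constantCoeff : MvPowerSeries σ ℂ →+* ℂ).comp
          (MvPolynomial.aeval fun s => (C (p s) : MvPowerSeries σ ℂ) :
            MvPolynomial σ ℂ →ₐ[ℂ] MvPowerSeries σ ℂ).toRingHom = MvPolynomial.eval p := by
        refine MvPolynomial.ringHom_ext (fun r => ?_) fun i => ?_
        · rw [RingHom.comp_apply, MvPolynomial.eval_C]
          change constantCoeff (MvPolynomial.aeval _ (MvPolynomial.C r)) = r
          rw [MvPolynomial.aeval_C]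
          exact constantCoeff_C r
        · rw [RingHom.comp_apply, MvPolynomial.eval_X]
          change constantCoeff (MvPolynomial.aeval _ (MvPolynomial.X i)) = p i
          rw [MvPolynomial.aeval_X]
          exact constantCoeff_C _
      rw [← h2]
      exact h1
    have h1 := comp_root a ha g ν M p L (L.rees hk hK hI) b H hHp hHb 0 hN
    rw [Nat.cast_zero, add_zero] at h1
    exact h1
  · obtain ⟨E, hk, hm, hR, hc⟩ := cone_chart g M hM hhom hg (fun t => a t ≠ 0) t1
      (ha t1).ne' e he
    have h1 := rees_prod a g b H hHb E hR (hH _) 0 (by rw [Chart.mul, hm]; exact hN) 1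
      ⟨1, by rw [map_one]; exact one_ne_zero, by rw [map_one, pow_zero, one_mul]⟩
    rw [Nat.cast_zero, add_zero, Chart.mul, hm] at h1
    rw [← hk]
    push_cast at h1 ⊢
    exact h1

/-- **The poles of topological zeta functions.** -/
theorem top_clean {I : Type} [Fintype I] (g : (t : τ) → κ t → MvPolynomial σ ℂ)
    (hg : ∀ t, ∃ j, g t j ≠ 0) (a : τ → ℕ) (ha : ∀ t, 0 < a t) (ν : I → ℕ) (hν : ∀ i, 0 < ν i)
    (M : I → τ → ℕ) (χ : Finset (I ⊕ τ) → ℤ)
    (hE : ∀ J, χ J ≠ 0 → ∀ i, Sum.inl i ∈ J → Detected g (ν i) (M i)) (s₀ : ℂ)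
    (hs : (topZ (Sum.elim ν fun _ => 1) (mulR a M) χ).denom.eval s₀ = 0)
    (b : Polynomial ℂ) (hb : IsBFunction (powProd a g) b) : b.eval s₀ = 0 := by
  obtain ⟨J, hJ, x, hx, hN, rfl⟩ := pole_topZ' _ _ χ (by
    rintro (i | t)
    · exact hν i
    · exact one_pos) s₀ hs
  rcases x with i | t
  · exact detected_root a ha g hg (ν i) (M i) (hE J hJ i hx) hN b hb
  · have h := (powData_global a g hg b hb).strict t 0 (ha t)
    rw [Nat.cast_zero, add_zero] at h
    change b.eval (-((1 : ℕ) : ℂ) / a t) = 0
    rw [Nat.cast_one]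
    exact h

end

end Pool.Agent.V7H1.LV
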