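import Pool.Agent.V7H1.LV.Lin

set_option autoImplicit false
set_option linter.unusedSectionVars false
set_option linter.unusedVariables false

/-! # Multiples of hyperplane arrangements with short linear relations -/

namespace Pool.Agent.V7H1.LV

open Module Pool.Agent.TH187.SA

variable {ι : Type} [Fintype ι] [DecidableEq ι]

/-- the vectors orthogonal to a subspace -/
def perp (M : Submodule ℂ (ι → ℂ)) : Submodule ℂ (ι → ℂ) where
  carrier := {x | ∀ a ∈ M, a ⬝ᵥ x = 0}
  add_mem' := by
    intro x y hx hy a ha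
    rw [dotProduct_add, hx a ha, hy a ha, add_zero]
  zero_mem' := fun a _ => dotProduct_zero a
  smul_mem' := by
    intro r x hx a ha
    rw [dotProduct_smul, hx a ha, smul_zero]

/-- the common kernel of the functionals `a ↦ a ⬝ᵥ u k` -/
def cut {m : ℕ} (u : Fin m → ι → ℂ) (M : Submodule ℂ (ι → ℂ)) : Submodule ℂ (ι → ℂ) where
  carrier := {a | a ∈ M ∧ ∀ k, a ⬝ᵥ u k = 0}
  add_mem' := by
    rintro a b ⟨ha, ha'⟩ ⟨hb, hb'⟩
    exact ⟨M.add_mem ha hb, fun k => by rw [add_dotProduct, ha' k, hb' k, add_zero]⟩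
  zero_mem' := ⟨M.zero_mem, fun k => zero_dotProduct _⟩
  smul_mem' := by
    rintro r a ⟨ha, ha'⟩
    exact ⟨M.smul_mem r ha, fun k => by rw [smul_dotProduct, ha' k, smul_zero]⟩

/-- **Generic vectors**: `m` vectors which cut the dimensions of finitely many subspaces by `m`. -/
theorem exists_cut (m : ℕ) : ∀ {J : Type} [Finite J] (M : J → Submodule ℂ (ι → ℂ)),
    ∃ u : Fin m → ι → ℂ, ∀ j, finrank ℂ (cut u (M j)) ≤ finrank ℂ (M j) - m := by
  induction m with
  | zero =>
    intro J _ M
    refine ⟨Fin.elim0, fun j => ?_⟩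
    exact Submodule.finrank_mono fun a ha => ha.1
  | succ m ih =>
    intro J _ M
    obtain ⟨x, _, hx⟩ := exists_generic (fun j => perp (M j)) ⊤
    let u₁ : Fin 1 → ι → ℂ := fun _ => x
    obtain ⟨u, hu⟩ := ih fun j => cut u₁ (M j)
    have h1 : ∀ j, finrank ℂ (cut u₁ (M j)) ≤ finrank ℂ (M j) - 1 := by
      intro j
      by_cases hM : M j = ⊥
      · have : cut u₁ (M j) ≤ M j := fun a ha => ha.1
        have h2 := Submodule.finrank_mono this
        rw [hM, finrank_bot] at h2 ⊢
        rw [← hM]
        rw [hM]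
        omega
      · have hlt : cut u₁ (M j) < M j := by
          refine lt_of_le_of_ne (fun a ha => ha.1) fun heq => ?_
          have hxM : x ∈ perp (M j) := by
            intro a ha
            rw [← heq] at ha
            exact ha.2 0
          refine hx j (fun htop => hM ?_) hxM
          rw [eq_bot_iff]
          intro a ha
          rw [Submodule.mem_bot]
          funext i
          have h3 : (Pi.single i (1 : ℂ) : ι → ℂ) ∈ perp (M j) := htop trivial
          have h4 := h3 a ha
          rwa [dotProduct_single, mul_one] at h4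
        have h2 := Submodule.finrank_lt_finrank_of_lt hlt
        omega
    refine ⟨Fin.cons x u, fun j => ?_⟩
    have h2 : cut (Fin.cons x u : Fin (m + 1) → ι → ℂ) (M j) ≤ cut u (cut u₁ (M j)) := by
      rintro a ⟨ha, hak⟩
      refine ⟨⟨ha, fun _ => ?_⟩, fun k => ?_⟩
      · have := hak 0
        rwa [Fin.cons_zero] at this
      · have := hak k.succ
        rwa [Fin.cons_succ] at this
    have h3 := Submodule.finrank_mono h2
    have h4 := hu j
    have h5 := h1 j
    omega

variable {S : Type} [Fintype S]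

/-- The linear relations between the forms `α s` with `s ∈ A` which vanish on `X` are generated by
the relations with at most `m + 1` terms. -/
def ShortRelations (m : ℕ) (α : S → ι → ℂ) (A : S → Prop) (X : Submodule ℂ (ι → ℂ)) : Prop :=
  ∀ r : S → ℂ, (∀ s, r s ≠ 0 → A s ∧ X ≤ hyp (α s)) → ∑ s, r s • α s = 0 →
    r ∈ Submodule.span ℂ {q : S → ℂ | (∀ s, q s ≠ 0 → A s ∧ X ≤ hyp (α s)) ∧
      ∑ s, q s • α s = 0 ∧ {s | q s ≠ 0}.ncard ≤ m + 1}

/-- **Multiples of hyperplane arrangements, with short relations.** -/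
theorem rees_short (m : ℕ) (hm : 0 < m) (α : S → ι → ℂ) (A : S → Prop)
    (X : Submodule ℂ (ι → ℂ)) (h0 : ∀ s, A s → α s ≠ 0) (hX : IsIrreducibleFlat α A X)
    (hR : ShortRelations m α A X) :
    IsReesFlat (fun s => zeros (copies m (α s))) A (power m X) := by
  classical
  obtain ⟨hne, hflat, hirr⟩ := hX
  have hle : ∀ s, power m X ≤ zeros (copies m (α s)) ↔ ∀ x ∈ X, α s ⬝ᵥ x = 0 :=
    fun s => power_le_copies m hm (α s) X
  obtain ⟨s0, hs0, hs0X⟩ : ∃ s, A s ∧ ∀ x ∈ X, α s ⬝ᵥ x = 0 := by
    by_contra hcon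
    push Not at hcon
    apply hne
    rw [eq_top_iff]
    intro w _
    apply hflat
    intro s hs hsX
    obtain ⟨x, hx, hx0⟩ := hcon s hs
    exact absurd (hsX x hx) hx0
  -- the generic vectors
  obtain ⟨u', hu'⟩ := exists_cut m fun C : Finset S => Submodule.span ℂ (α '' (C : Set S))
  let u : ι × Fin m → ℂ := fun p => u' p.2 p.1
  have hinj : ∀ C : Finset S, C.card ≤ m → ∀ a ∈ Submodule.span ℂ (α '' (C : Set S)),
      dots m u a = 0 → a = 0 := by
    intro C hC a ha h
    have h1 : finrank ℂ (Submodule.span ℂ (α '' (C : Set S))) ≤ C.card := by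
      rw [← Finset.coe_image]
      exact (finrank_span_finset_le_card _).trans Finset.card_image_le
    have h2 : finrank ℂ (cut u' (Submodule.span ℂ (α '' (C : Set S)))) = 0 := by
      have := hu' C
      omega
    have h3 := Submodule.finrank_eq_zero.1 h2
    have h4 : a ∈ cut u' (Submodule.span ℂ (α '' (C : Set S))) :=
      ⟨ha, fun k => congrFun h k⟩
    rw [h3] at h4
    exact (Submodule.mem_bot ℂ).1 h4
  refine ⟨⟨s0, hs0, (hle s0).2 hs0X⟩, u, ?_, ?_⟩
  · intro s hs hsX hus
    apply h0 s hs
    refine hinj {s} (by rw [Finset.card_singleton]; exact hm) _ (Submodule.subset_span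
      ⟨s, by simp, rfl⟩) ?_
    funext k
    exact (mem_zeros_copies m (α s) u).1 hus k
  · intro v hv
    have hlam : ∀ s, ∃ r : ℂ, A s → (∀ x ∈ X, α s ⬝ᵥ x = 0) →
        dots m v (α s) = r • dots m u (α s) := by
      intro s
      by_cases hs : A s ∧ ∀ x ∈ X, α s ⬝ᵥ x = 0
      · obtain ⟨y, hy, z, hz, hyz⟩ := Submodule.mem_sup.1 (hv s hs.1 ((hle s).2 hs.2))
        obtain ⟨r, rfl⟩ := Submodule.mem_span_singleton.1 hz
        refine ⟨r, fun _ _ => ?_⟩
        funext k
        have h1 := (mem_zeros_copies m (α s) y).1 hy k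
        show α s ⬝ᵥ (fun i => v (i, k)) = r * (α s ⬝ᵥ fun i => u (i, k))
        have h2 : (fun i => v (i, k)) = (fun i => y (i, k)) + r • fun i => u (i, k) := by
          funext i
          rw [← hyz]
          rfl
        rw [h2, dotProduct_add, h1, zero_add, dotProduct_smul, smul_eq_mul]
      · exact ⟨0, fun h1 h2 => absurd ⟨h1, h2⟩ hs⟩
    choose lam hlam using hlam
    -- the relations are stable
    have hshort : ∀ q : S → ℂ, (∀ s, q s ≠ 0 → A s ∧ X ≤ hyp (α s)) → ∑ s, q s • α s = 0 →
        {s | q s ≠ 0}.ncard ≤ m + 1 → ∑ s, q s • lam s • α s = 0 := by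
      intro q hqA hq hcard
      by_cases hq0 : ∀ s, q s = 0
      · exact Finset.sum_eq_zero fun s _ => by rw [hq0 s, zero_smul]
      push Not at hq0
      obtain ⟨s1, hs1⟩ := hq0
      set C : Finset S := (Finset.univ.filter fun s => q s ≠ 0).erase s1 with hC
      have hcC : C.card ≤ m := by
        have h1 : ({s | q s ≠ 0} : Set S) = ((Finset.univ.filter fun s => q s ≠ 0 : Finset S) :
            Set S) := by
          ext s
          simp
        rw [h1, Set.ncard_coe_finset] at hcard
        have h2 : s1 ∈ (Finset.univ.filter fun s => q s ≠ 0 : Finset S) :=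
          Finset.mem_filter.2 ⟨Finset.mem_univ _, hs1⟩
        rw [hC, Finset.card_erase_of_mem h2]
        omega
      have hin : ∀ s, q s ≠ 0 → α s ∈ Submodule.span ℂ (α '' (C : Set S)) := by
        have hother : ∀ s, s ≠ s1 → q s ≠ 0 → α s ∈ Submodule.span ℂ (α '' (C : Set S)) := by
          intro s hs hqs
          refine Submodule.subset_span ⟨s, ?_, rfl⟩
          rw [Finset.mem_coe, hC, Finset.mem_erase, Finset.mem_filter]
          exact ⟨hs, Finset.mem_univ _, hqs⟩
        intro s hqs
        by_cases hs : s = s1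
        · rw [hs]
          have h1 : q s1 • α s1 = -∑ s ∈ Finset.univ.erase s1, q s • α s := by
            rw [← Finset.add_sum_erase _ _ (Finset.mem_univ s1)] at hq
            exact eq_neg_of_add_eq_zero_left hq
          have h2 : α s1 = (q s1)⁻¹ • (q s1 • α s1) := by
            rw [smul_smul, inv_mul_cancel₀ hs1, one_smul]
          rw [h2, h1]
          refine Submodule.smul_mem _ _ (Submodule.neg_mem _ (Submodule.sum_mem _ fun s hs => ?_))
          by_cases hqs : q s = 0
          · rw [hqs, zero_smul]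
            exact Submodule.zero_mem _
          · exact Submodule.smul_mem _ _ (hother s (Finset.ne_of_mem_erase hs) hqs)
        · exact hother s hs hqs
      refine hinj C hcC _ (Submodule.sum_mem _ fun s _ => ?_) ?_
      · by_cases hqs : q s = 0
        · rw [hqs, zero_smul]
          exact Submodule.zero_mem _
        · exact Submodule.smul_mem _ _ (Submodule.smul_mem _ _ (hin s hqs))
      · rw [map_sum]
        have h1 : ∀ s, dots m u (q s • lam s • α s) = dots m v (q s • α s) := by
          intro s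
          by_cases hqs : q s = 0
          · rw [hqs, zero_smul, zero_smul, map_zero, map_zero]
          · rw [map_smul, map_smul, map_smul, hlam s (hqA s hqs).1 (hqA s hqs).2]
        rw [Finset.sum_congr rfl fun s _ => h1 s, ← map_sum, hq, map_zero]
    let Ψ : (S → ℂ) →ₗ[ℂ] (ι → ℂ) := Fintype.linearCombination ℂ fun s => lam s • α s
    have hΨ : ∀ r : S → ℂ, Ψ r = ∑ s, r s • lam s • α s := fun r =>
      Fintype.linearCombination_apply ℂ _ _
    have hstab : ∀ r : S → ℂ, (∀ s, r s ≠ 0 → A s ∧ X ≤ hyp (α s)) → ∑ s, r s • α s = 0 →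
        ∑ s, r s • lam s • α s = 0 := by
      intro r hrA hr
      have h1 : Submodule.span ℂ {q : S → ℂ | (∀ s, q s ≠ 0 → A s ∧ X ≤ hyp (α s)) ∧
          ∑ s, q s • α s = 0 ∧ {s | q s ≠ 0}.ncard ≤ m + 1} ≤ LinearMap.ker Ψ := by
        rw [Submodule.span_le]
        rintro q ⟨hq1, hq2, hq3⟩
        change Ψ q = 0
        rw [hΨ]
        exact hshort q hq1 hq2 hq3
      rw [← hΨ]
      exact h1 (hR r hrA hr)
    -- the endomorphism with the eigenvectors `α s`
    let α' : S → ι → ℂ := fun s => if A s ∧ X ≤ hyp (α s) then α s else 0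
    let Φ' : (S → ℂ) →ₗ[ℂ] (ι → ℂ) := Fintype.linearCombination ℂ α'
    let Ψ' : (S → ℂ) →ₗ[ℂ] (ι → ℂ) := Fintype.linearCombination ℂ fun s => lam s • α' s
    have hker : LinearMap.ker Φ' ≤ LinearMap.ker Ψ' := by
      intro r hr
      have h1 : ∑ s, r s • α' s = 0 := hr
      change ∑ s, r s • lam s • α' s = 0
      let r' : S → ℂ := fun s => if A s ∧ X ≤ hyp (α s) then r s else 0
      have h2 : ∀ s, r s • α' s = r' s • α s := by
        intro s
        by_cases hs : A s ∧ X ≤ hyp (α s)
        · simp only [α', r', if_pos hs]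
        · simp only [α', r', if_neg hs, smul_zero, zero_smul]
      have h3 : ∀ s, r s • lam s • α' s = r' s • lam s • α s := by
        intro s
        rw [smul_comm, h2, smul_comm]
      rw [Finset.sum_congr rfl fun s _ => h3 s]
      refine hstab r' (fun s hs => ?_) ?_
      · by_contra hcon
        exact hs (if_neg hcon)
      · rw [← Finset.sum_congr rfl fun s _ => h2 s]
        exact h1
    let T0 : LinearMap.range Φ' →ₗ[ℂ] (ι → ℂ) :=
      (LinearMap.ker Φ').liftQ Ψ' hker ∘ₗ Φ'.quotKerEquivRange.symm.toLinearMap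
    obtain ⟨T, hT0⟩ := LinearMap.exists_extend T0
    have hT : ∀ s, A s → (∀ x ∈ X, α s ⬝ᵥ x = 0) → T (α s) = lam s • α s := by
      intro s hs hsX
      have hss : A s ∧ X ≤ hyp (α s) := ⟨hs, hsX⟩
      have h1 : α' s = α s := if_pos hss
      have h2 : Φ' (Pi.single s 1) = α s := by
        change ∑ j, (Pi.single s (1 : ℂ) : S → ℂ) j • α' j = α s
        rw [Finset.sum_eq_single s]
        · rw [Pi.single_eq_same, one_smul, h1]
        · intro j _ hj
          rw [Pi.single_eq_of_ne hj, zero_smul]
        · intro h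
          exact absurd (Finset.mem_univ s) h
      have h3 : Ψ' (Pi.single s 1) = lam s • α s := by
        change ∑ j, (Pi.single s (1 : ℂ) : S → ℂ) j • lam j • α' j = _
        rw [Finset.sum_eq_single s]
        · rw [Pi.single_eq_same, one_smul, h1]
        · intro j _ hj
          rw [Pi.single_eq_of_ne hj, zero_smul]
        · intro h
          exact absurd (Finset.mem_univ s) h
      have h4 : T0 ⟨Φ' (Pi.single s 1), LinearMap.mem_range_self _ _⟩ = lam s • α s := by
        have h5 : Φ'.quotKerEquivRange.symm ⟨Φ' (Pi.single s 1), LinearMap.mem_range_self _ _⟩ =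
            (LinearMap.ker Φ').mkQ (Pi.single s 1) :=
          Φ'.quotKerEquivRange_symm_apply_image _ _
        change (LinearMap.ker Φ').liftQ Ψ' hker (Φ'.quotKerEquivRange.symm _) = _
        rw [h5, Submodule.mkQ_apply, Submodule.liftQ_apply, h3]
      have h5 := LinearMap.congr_fun hT0 ⟨Φ' (Pi.single s 1), LinearMap.mem_range_self _ _⟩
      rw [h4] at h5
      have h6 : T (Φ' (Pi.single s 1)) = lam s • α s := h5
      rw [h2] at h6
      exact h6
    have hlams : ∀ s, A s → (∀ x ∈ X, α s ⬝ᵥ x = 0) → lam s = lam s0 := by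
      let P : Submodule ℂ (ι → ℂ) := Module.End.eigenspace T (lam s0)
      let Q : Submodule ℂ (ι → ℂ) := ⨆ j, ⨆ (_ : j ≠ lam s0), Module.End.eigenspace T j
      have hPQ : Disjoint P Q := Module.End.eigenspaces_iSupIndep T (lam s0)
      have hdich : ∀ s, A s → (∀ x ∈ X, α s ⬝ᵥ x = 0) → α s ∈ P ∨ α s ∈ Q := by
        intro s hs hsX
        by_cases hrr : lam s = lam s0
        · left
          have h1 := hT s hs hsX
          rw [hrr] at h1
          exact Module.End.mem_eigenspace_iff.2 h1
        · right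
          exact Submodule.mem_iSup_of_mem (lam s) (Submodule.mem_iSup_of_mem hrr
            (Module.End.mem_eigenspace_iff.2 (hT s hs hsX)))
      have hall : ∀ s, A s → (∀ x ∈ X, α s ⬝ᵥ x = 0) → α s ∈ P := by
        rcases hirr P Q hPQ hdich with h1 | h1
        · exact h1
        · exfalso
          exact h0 s0 hs0 ((Submodule.disjoint_def.1 hPQ) _
            (Module.End.mem_eigenspace_iff.2 (hT s0 hs0 hs0X)) (h1 s0 hs0 hs0X))
      intro s hs hsX
      have h1 := Module.End.mem_eigenspace_iff.1 (hall s hs hsX)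
      rw [hT s hs hsX] at h1
      have h3 : (lam s - lam s0) • α s = 0 := by
        rw [sub_smul, h1, sub_self]
      rcases smul_eq_zero.1 h3 with h4 | h4
      · exact sub_eq_zero.1 h4
      · exact absurd h4 (h0 s hs)
    refine Submodule.mem_sup.2 ⟨v - lam s0 • u, ?_, lam s0 • u,
      Submodule.mem_span_singleton.2 ⟨lam s0, rfl⟩, sub_add_cancel _ _⟩
    intro k
    apply hflat
    intro s hs hsX
    have h1 := congrFun (hlam s hs hsX) k
    rw [hlams s hs hsX] at h1
    have h2 : α s ⬝ᵥ (fun i => v (i, k)) = lam s0 * (α s ⬝ᵥ fun i => u (i, k)) := h1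
    have h3 : (fun i => (v - lam s0 • u) (i, k)) =
        (fun i => v (i, k)) - lam s0 • fun i => u (i, k) := by
      funext i
      rfl
    rw [h3, dotProduct_sub, h2, dotProduct_smul, smul_eq_mul, sub_self]

end Pool.Agent.V7H1.LV
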