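import Pool.Agent.V7H1.LV.InitTop
import Pool.Agent.V7H1.LV.Form

set_option autoImplicit false
set_option linter.unusedSectionVars false
set_option linter.unusedVariables false

/-! # Components with clean centres or with unramified initial forms -/

namespace Pool.Agent.V7H1.LV

open MvPowerSeries Pool.Agent.W574.SM Pool.Agent.W574.LM Pool.Agent.W574.HS
  Pool.Agent.H628R4.TP Pool.Agent.TH187.SA Pool.Agent.Y231.RF Pool.Agent.Y228.RR
  Pool.Agent.TH192.DT Pool.Agent.R852.SC

section

variable {σ τ : Type} [Fintype σ] [DecidableEq σ] [Fintype τ] [DecidableEq τ] {κ : τ → Type}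
  [∀ t, Fintype (κ t)] [∀ t, DecidableEq (κ t)]

/-- The numerical data `ν`, `M` of a component `E` of a resolution are detected: `E` is the
exceptional divisor of the blow-up of a smooth centre of codimension `ν` at a general point of which
the ideals are products of ideals of smooth varieties for which the partition inequality holds; or
`E` is the exceptional divisor of a weighted blow-up of a smooth centre, and the maps given by the
initial forms of the ideals are together unramified at some point of it. -/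
def DetectedW (g : (t : τ) → κ t → MvPolynomial σ ℂ) (ν : ℕ) (M : τ → ℕ) : Prop :=
  (∃ (p : σ → ℂ) (L : LocalData g ν M p), 0 < L.k ∧ (∀ s, tang p (L.K s) ≠ ⊤) ∧ L.Ineq) ∨
  (∃ p : σ → ℂ, Nonempty (InitialData g ν M p))

/-- Forms with a nonzero Jacobian. -/
theorem cone_init (g : (t : τ) → κ t → MvPolynomial σ ℂ) (hg : ∀ t, ∃ j, g t j ≠ 0) (M : τ → ℕ)
    (hM : ∀ t, 0 < M t) (hhom : ∀ t j, (g t j).IsHomogeneous (M t)) (t1 : τ) (e : σ → κ t1)
    (he : (Matrix.of fun i s => MvPolynomial.pderiv i (g t1 (e s))).det ≠ 0) :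
    ∃ p : σ → ℂ, Nonempty (InitialData g (Fintype.card σ) M p) := by
  classical
  choose j0 hj0 using hg
  have hprod : (Matrix.of fun i s => MvPolynomial.pderiv i (g t1 (e s))).det *
      ∏ t, g t (j0 t) ≠ 0 := mul_ne_zero he (Finset.prod_ne_zero_iff.2 fun t _ => hj0 t)
  obtain ⟨c, hc⟩ : ∃ c : σ → ℂ, MvPolynomial.eval c
      ((Matrix.of fun i s => MvPolynomial.pderiv i (g t1 (e s))).det * ∏ t, g t (j0 t)) ≠ 0 := by
    by_contra hcon
    push Not at hcon
    exact hprod (MvPolynomial.funext fun x => by rw [hcon x, map_zero])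
  rw [map_mul, map_prod] at hc
  have hc1 := left_ne_zero_of_mul hc
  have hc2 := fun t => Finset.prod_ne_zero_iff.1 (right_ne_zero_of_mul hc) t (Finset.mem_univ t)
  have heuler : ∀ t j, dif c c (g t j) = M t * MvPolynomial.eval c (g t j) := by
    intro t j
    have h1 := congrArg (MvPolynomial.eval c) (hhom t j).sum_X_mul_pderiv
    rw [map_sum, map_nsmul, nsmul_eq_mul] at h1
    rw [← h1]
    unfold dif
    refine Finset.sum_congr rfl fun i _ => ?_
    rw [map_mul, MvPolynomial.eval_X]
  refine ⟨0, ⟨⟨fun s => MvPolynomial.X s, fun _ => 1, 1, g, c, ?_, ?_, ?_, ?_, ?_, ?_, ?_, ?_,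
    ?_⟩⟩⟩
  · have h1 : (Matrix.of fun i s : σ => MvPolynomial.eval (0 : σ → ℂ) (MvPolynomial.pderiv i
        (MvPolynomial.X s : MvPolynomial σ ℂ))) = 1 := by
      ext i s
      rw [Matrix.of_apply, MvPolynomial.pderiv_X, Matrix.one_apply]
      by_cases h : i = s
      · subst h
        rw [Pi.single_eq_same, if_pos rfl, map_one]
      · rw [Pi.single_eq_of_ne (Ne.symm h), if_neg h, map_zero]
    rw [h1, Matrix.det_one]
    exact one_ne_zero
  · intro s _
    rw [MvPolynomial.eval_X, Pi.zero_apply]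
  · intro s h
    exact absurd h one_ne_zero
  · rw [map_one]
    exact one_ne_zero
  · simp
  · intro t j α hα
    have h1 := hhom t j hα
    rw [Finsupp.weight_apply, Finsupp.sum_fintype _ _ (by simp)] at h1
    rw [← h1]
    refine Finset.sum_congr rfl fun s _ => ?_
    simp
  · intro t j
    rw [one_mul, MvPolynomial.aeval_X_left_apply, sub_self]
    exact Submodule.zero_mem _
  · exact fun t => ⟨j0 t, hc2 t⟩
  · intro x _ hx
    set b := MvPolynomial.eval c (g t1 (j0 t1)) with hb
    have hb0 : b ≠ 0 := hc2 t1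
    set l := dif c x (g t1 (j0 t1)) / b with hl
    have h1 : ∀ j, dif c x (g t1 j) = l * MvPolynomial.eval c (g t1 j) := by
      intro j
      have h2 := hx t1 j (j0 t1)
      rw [← hb] at h2
      rw [hl]
      rw [div_mul_eq_mul_div, eq_div_iff hb0, mul_comm, h2, mul_comm]
    have hM1 : (M t1 : ℂ) ≠ 0 := Nat.cast_ne_zero.2 (hM t1).ne'
    have h3 : ∀ j, dif c (x + (-(l / M t1)) • c) (g t1 j) = 0 := by
      intro j
      rw [dif_add_dir, dif_smul_dir, h1, heuler]
      field_simp
      ring
    have h4 : x + (-(l / M t1)) • c = 0 := by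
      have h5 : Matrix.vecMul (x + (-(l / M t1)) • c)
          (Matrix.of fun i s => MvPolynomial.eval c (MvPolynomial.pderiv i (g t1 (e s)))) = 0 := by
        funext s
        exact h3 (e s)
      have h6 : (Matrix.of fun i s => MvPolynomial.eval c
          (MvPolynomial.pderiv i (g t1 (e s)))).det ≠ 0 := by
        have h7 : (Matrix.of fun i s => MvPolynomial.eval c
            (MvPolynomial.pderiv i (g t1 (e s)))) =
            (MvPolynomial.eval c).mapMatrix
              (Matrix.of fun i s => MvPolynomial.pderiv i (g t1 (e s))) := rfl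
        rw [h7, ← RingHom.map_det]
        exact hc1
      exact Matrix.eq_zero_of_vecMul_eq_zero h6 h5
    refine ⟨l / M t1, fun s => ?_⟩
    have h5 := congrFun h4 s
    rw [Pi.add_apply, Pi.smul_apply, smul_eq_mul, Pi.zero_apply] at h5
    rw [Nat.cast_one, one_mul]
    linear_combination h5

/-- The criterion of `CleanArrangements` is a special case. -/
theorem Detected.toW (g : (t : τ) → κ t → MvPolynomial σ ℂ) (hg : ∀ t, ∃ j, g t j ≠ 0) (ν : ℕ)
    (M : τ → ℕ) (h : Detected g ν M) : DetectedW g ν M := by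
  rcases h with h | ⟨rfl, hM, hhom, t1, e, he⟩
  · exact Or.inl h
  · exact Or.inr (cone_init g hg M hM hhom t1 e he)

/-- **The root of a detected component.** -/
theorem detectedW_root (a : τ → ℕ) (ha : ∀ t, 0 < a t) (g : (t : τ) → κ t → MvPolynomial σ ℂ)
    (hg : ∀ t, ∃ j, g t j ≠ 0) (ν : ℕ) (M : τ → ℕ) (h : DetectedW g ν M)
    (hN : 0 < ∑ t, a t * M t) (b : Polynomial ℂ) (hb : IsBFunction (powProd a g) b) :
    b.eval (-(ν : ℂ) / (∑ t, a t * M t : ℕ)) = 0 := by
  rcases h with h | ⟨p, ⟨D⟩⟩
  · exact detected_root a ha g hg ν M (Or.inl h) hN b hb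
  · exact init_root a ha g ν M p D hN b hb

/-- **The poles of topological zeta functions.** -/
theorem topW {I : Type} [Fintype I] (g : (t : τ) → κ t → MvPolynomial σ ℂ)
    (hg : ∀ t, ∃ j, g t j ≠ 0) (a : τ → ℕ) (ha : ∀ t, 0 < a t) (ν : I → ℕ) (hν : ∀ i, 0 < ν i)
    (M : I → τ → ℕ) (χ : Finset (I ⊕ τ) → ℤ)
    (hE : ∀ J, χ J ≠ 0 → ∀ i, Sum.inl i ∈ J → DetectedW g (ν i) (M i)) (s₀ : ℂ)
    (hs : (topZ (Sum.elim ν fun _ => 1) (mulR a M) χ).denom.eval s₀ = 0)
    (b : Polynomial ℂ) (hb : IsBFunction (powProd a g) b) : b.eval s₀ = 0 := by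
  obtain ⟨J, hJ, x, hx, hN, rfl⟩ := pole_topZ' _ _ χ (by
    rintro (i | t)
    · exact hν i
    · exact one_pos) s₀ hs
  rcases x with i | t
  · exact detectedW_root a ha g hg (ν i) (M i) (hE J hJ i hx) hN b hb
  · have h := (powData_global a g hg b hb).strict t 0 (ha t)
    rw [Nat.cast_zero, add_zero] at h
    change b.eval (-((1 : ℕ) : ℂ) / a t) = 0
    rw [Nat.cast_one]
    exact h

end

end Pool.Agent.V7H1.LV
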