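import Pool.Agent.V7H1.LV.Wt
import Pool.Agent.V7H1.LV.Chart

set_option autoImplicit false
set_option linter.unusedSectionVars false
set_option linter.unusedVariables false

/-! # Initial forms for weights, and Rees divisors -/

namespace Pool.Agent.V7H1.LV

open MvPowerSeries Pool.Agent.W574.SM Pool.Agent.W574.LM Pool.Agent.W574.HS
  Pool.Agent.TH187.SA Pool.Agent.Y231.RF
  Pool.Agent.TH192.DT Pool.Agent.R852.SC

variable {σ τ : Type} [Fintype σ] [DecidableEq σ] [Fintype τ] [DecidableEq τ] {κ : τ → Type}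
  [∀ t, Fintype (κ t)] [∀ t, DecidableEq (κ t)]

/-- The ideal generated by the monomials of weight at least `m` in the functions `h s` with the
weights `w s`. -/
noncomputable def Filt (h : σ → MvPolynomial σ ℂ) (w : σ → ℕ) (m : ℕ) : Ideal (MvPolynomial σ ℂ) :=
  Ideal.span {F : MvPolynomial σ ℂ | ∃ α : σ → ℕ, m ≤ ∑ s, w s * α s ∧ F = ∏ s, h s ^ α s}

/-- The initial forms of families of polynomials at a point `p`, for local coordinates `h s` with the
weights `w s`. The centre is given by the equations `h s = 0`, `w s ≠ 0`. Up to the factor `u`,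
`u(p) ≠ 0`, the polynomial `g t j` is the value at `h` of a weighted homogeneous polynomial `G t j` of
degree `M t`, the initial form, plus terms of higher weight and terms of weight at least `M t` with
coefficients which are zero at `p`. The maps of the weighted projective space of the centre given
by the `G t j` (one for each `t`) are defined at the point `c`, and together they are unramified
there: a tangent vector `x` in the direction of the fibre, in which all the quotients `G t j / G t j'`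
have the derivative zero, is a multiple of the vector `(w s * c s)`, which represents zero. -/
structure InitialData (g : (t : τ) → κ t → MvPolynomial σ ℂ) (ν : ℕ) (M : τ → ℕ)
    (p : σ → ℂ) where
  /-- local coordinates at `p` (up to their values at `p`) -/
  h : σ → MvPolynomial σ ℂ
  /-- the weights -/
  w : σ → ℕ
  /-- a denominator -/
  u : MvPolynomial σ ℂ
  /-- the initial forms -/
  G : (t : τ) → κ t → MvPolynomial σ ℂ
  /-- a point of the weighted projective space -/
  c : σ → ℂ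
  det_ne : (Matrix.of fun i s => MvPolynomial.eval p (MvPolynomial.pderiv i (h s))).det ≠ 0
  centre : ∀ s, w s ≠ 0 → MvPolynomial.eval p (h s) = 0
  outside : ∀ s, w s = 0 → MvPolynomial.eval p (h s) = c s
  eval_u : MvPolynomial.eval p u ≠ 0
  sum_w : ∑ s, w s = ν
  weighted : ∀ t j α, MvPolynomial.coeff α (G t j) ≠ 0 → ∑ s, w s * α s = M t
  initial : ∀ t j, u * g t j - MvPolynomial.aeval h (G t j) ∈
    Filt h w (M t + 1) ⊔ RingHom.ker (MvPolynomial.eval p) * Filt h w (M t)
  defined : ∀ t, ∃ j, MvPolynomial.eval c (G t j) ≠ 0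
  unramified : ∀ x : σ → ℂ, (∀ s, w s = 0 → x s = 0) →
    (∀ t j j', MvPolynomial.eval c (G t j') * dif c x (G t j) =
      MvPolynomial.eval c (G t j) * dif c x (G t j')) →
    ∃ a : ℂ, ∀ s, x s = a * (w s * c s)

section

variable {g : (t : τ) → κ t → MvPolynomial σ ℂ} {ν : ℕ} {M : τ → ℕ} {p : σ → ℂ}

/-- a coordinate of positive weight which is not zero at `c` -/
theorem InitialData.exists_z (D : InitialData g ν M p) (hM : ∃ t, M t ≠ 0) :
    ∃ z, D.w z ≠ 0 ∧ D.c z ≠ 0 := by
  by_contra hcon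
  push Not at hcon
  obtain ⟨t, ht⟩ := hM
  obtain ⟨j, hj⟩ := D.defined t
  apply hj
  rw [MvPolynomial.eval_eq']
  refine Finset.sum_eq_zero fun α hα => ?_
  have h1 := D.weighted t j α (MvPolynomial.mem_support_iff.1 hα)
  obtain ⟨s, _, hs⟩ := Finset.exists_ne_zero_of_sum_ne_zero (h1 ▸ ht)
  have h2 : D.c s ^ α s = 0 := by
    rw [hcon s (left_ne_zero_of_mul hs), zero_pow (right_ne_zero_of_mul hs)]
  rw [Finset.prod_eq_zero (Finset.mem_univ s) h2, mul_zero]

/-- the remainder terms -/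
theorem rem_form (h : σ → MvPolynomial σ ℂ) (w : σ → ℕ) (p : σ → ℂ) (z : σ)
    (ξ θ : σ → MvPowerSeries σ ℂ)
    (hcc : ∀ q, constantCoeff (MvPolynomial.aeval ξ q) = MvPolynomial.eval p q)
    (hh : ∀ s, MvPolynomial.aeval ξ (h s) = X z ^ w s * θ s)
    (had : ∀ r, w r ≠ 0 → r ≠ z → ∀ q : MvPolynomial σ ℂ,
      constantCoeff (pderiv ℂ r (MvPolynomial.aeval ξ q)) = 0) (m : ℕ) (R : MvPolynomial σ ℂ)
    (hR : R ∈ Filt h w (m + 1) ⊔ RingHom.ker (MvPolynomial.eval p) * Filt h w m) :
    ∃ ρ : MvPowerSeries σ ℂ, MvPolynomial.aeval ξ R = X z ^ m * ρ ∧ constantCoeff ρ = 0 ∧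
      ∀ r, w r ≠ 0 → r ≠ z → constantCoeff (pderiv ℂ r ρ) = 0 := by
  obtain ⟨R1, hR1, R2, hR2, rfl⟩ := Submodule.mem_sup.1 hR
  have h1 : ∃ ρ : MvPowerSeries σ ℂ, MvPolynomial.aeval ξ R1 = X z ^ m * ρ ∧
      constantCoeff ρ = 0 ∧
      ∀ r, w r ≠ 0 → r ≠ z → constantCoeff (pderiv ℂ r ρ) = 0 := by
    obtain ⟨v, hv⟩ := dvd_of_weight h w z ξ θ hh (m + 1) R1 hR1
    refine ⟨X z * v, ?_, ?_, fun r _ hrz => ?_⟩
    · rw [hv]
      ring
    · rw [map_mul, constantCoeff_X, zero_mul]
    · rw [cc_der, pderiv_X_of_ne (Ne.symm hrz), map_zero, mul_zero, add_zero, constantCoeff_X,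
        zero_mul]
  have h2 : ∃ ρ : MvPowerSeries σ ℂ, MvPolynomial.aeval ξ R2 = X z ^ m * ρ ∧
      constantCoeff ρ = 0 ∧
      ∀ r, w r ≠ 0 → r ≠ z → constantCoeff (pderiv ℂ r ρ) = 0 := by
    clear hR h1
    induction hR2 using Submodule.mul_induction_on' with
    | mem_mul_mem q hq F hF =>
      obtain ⟨v, hv⟩ := dvd_of_weight h w z ξ θ hh m F hF
      have hq0 : MvPolynomial.eval p q = 0 := hq
      refine ⟨MvPolynomial.aeval ξ q * v, ?_, ?_, fun r hr hrz => ?_⟩
      · rw [map_mul, hv]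
        ring
      · rw [map_mul, hcc, hq0, zero_mul]
      · rw [cc_der, hcc, hq0, zero_mul, zero_add, had r hr hrz, mul_zero]
    | add R R' _ _ h h' =>
      obtain ⟨ρ, e1, e2, e3⟩ := h
      obtain ⟨ρ', e1', e2', e3'⟩ := h'
      refine ⟨ρ + ρ', by rw [map_add, e1, e1', mul_add], by rw [map_add, e2, e2', add_zero],
        fun r hr hrz => by rw [map_add, map_add, e3 r hr hrz, e3' r hr hrz, add_zero]⟩
  obtain ⟨ρ, e1, e2, e3⟩ := h1
  obtain ⟨ρ', e1', e2', e3'⟩ := h2
  refine ⟨ρ + ρ', by rw [map_add, e1, e1', mul_add], by rw [map_add, e2, e2', add_zero],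
    fun r hr hrz => by rw [map_add, map_add, e3 r hr hrz, e3' r hr hrz, add_zero]⟩

/-- **The chart of the Rees divisor which belongs to unramified initial forms.** -/
theorem exists_wchart (D : InitialData g ν M p) (hM : ∃ t, M t ≠ 0) (A : τ → Prop)
    (hA : ∀ t, A t) :
    ∃ E : Chart g, E.k + 1 = ν ∧ E.m = M ∧ E.IsRees A ∧
      ∀ H, MvPolynomial.eval p H ≠ 0 → constantCoeff (MvPolynomial.aeval E.ξ H) ≠ 0 := by
  classical
  obtain ⟨z, hz, hcz⟩ := D.exists_z hM
  obtain ⟨ξ, hcc, ⟨U0, hU0, hJac⟩, hh, had⟩ :=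
    exists_wblow D.h D.w p D.c D.det_ne D.centre D.outside z hz hcz
  set θ : σ → MvPowerSeries σ ℂ := theta D.c z with hθ
  have huu : constantCoeff (MvPolynomial.aeval ξ D.u) ≠ 0 := by
    rw [hcc]
    exact D.eval_u
  have huinv : MvPolynomial.aeval ξ D.u * (MvPolynomial.aeval ξ D.u)⁻¹ = 1 :=
    MvPowerSeries.mul_inv_cancel _ huu
  have hui : constantCoeff (MvPolynomial.aeval ξ D.u)⁻¹ ≠ 0 := by
    intro h0
    have h2 := congrArg constantCoeff huinv
    rw [map_mul, h0, mul_zero, map_one] at h2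
    exact zero_ne_one h2
  -- the generators in the chart
  have hgen : ∀ t j, ∃ B : MvPowerSeries σ ℂ,
      MvPolynomial.aeval ξ D.u * MvPolynomial.aeval ξ (g t j) = X z ^ M t * B ∧
      constantCoeff B = MvPolynomial.eval D.c (D.G t j) ∧
      ∀ r, D.w r ≠ 0 → r ≠ z → constantCoeff (pderiv ℂ r B) =
        MvPolynomial.eval D.c (MvPolynomial.pderiv r (D.G t j)) := by
    intro t j
    obtain ⟨ρ, e1, e2, e3⟩ := rem_form D.h D.w p z ξ θ hcc hh had (M t) _ (D.initial t j)
    rw [map_sub, map_mul, aeval_weighted D.h D.w z ξ θ hh (M t) _ (D.weighted t j),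
      sub_eq_iff_eq_add] at e1
    have hc' : ∀ i, constantCoeff (θ i) = D.c i := fun i => cc_theta D.c z i
    refine ⟨MvPolynomial.aeval θ (D.G t j) + ρ, ?_, ?_, fun r hr hrz => ?_⟩
    · rw [e1]
      ring
    · rw [map_add, e2, add_zero, cc_aeval' θ D.c hc']
    · rw [map_add, map_add, e3 r hr hrz, add_zero, pderiv_aeval, map_sum,
        Finset.sum_eq_single r]
      · rw [hθ, der_theta D.c z r r hrz, if_pos rfl, mul_one, cc_aeval' _ D.c hc']
      · intro s _ hsr
        rw [hθ, der_theta D.c z s r hrz, if_neg (Ne.symm hsr), mul_zero, map_zero]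
      · intro h
        exact absurd (Finset.mem_univ r) h
  choose B hB hB0 hB1 using hgen
  have hV : ∀ t j, MvPolynomial.aeval ξ (g t j) =
      X z ^ M t * ((MvPolynomial.aeval ξ D.u)⁻¹ * B t j) := by
    intro t j
    calc MvPolynomial.aeval ξ (g t j) = (MvPolynomial.aeval ξ D.u)⁻¹ *
          (MvPolynomial.aeval ξ D.u * MvPolynomial.aeval ξ (g t j)) := by
          rw [← mul_assoc, mul_comm _ (MvPolynomial.aeval ξ D.u), huinv, one_mul]
      _ = _ := by
          rw [hB t j]
          ring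
  have hdef := D.defined
  choose j0 hj0 using hdef
  have hBj0 : ∀ t, constantCoeff (B t (j0 t)) ≠ 0 := fun t => by
    rw [hB0]
    exact hj0 t
  -- the quotients of the generators
  have hquo : ∀ t j, ∃ W : MvPowerSeries σ ℂ, constantCoeff W = 0 ∧
      (∃ cf : κ t → ℂ, ∑ j, cf j • MvPolynomial.aeval ξ (g t j) =
        MvPolynomial.aeval ξ (g t (j0 t)) * W) ∧
      ∀ r, D.w r ≠ 0 → r ≠ z → constantCoeff (pderiv ℂ r W) =
        (MvPolynomial.eval D.c (D.G t (j0 t)) ^ 2)⁻¹ *
          (MvPolynomial.eval D.c (D.G t (j0 t)) *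
              MvPolynomial.eval D.c (MvPolynomial.pderiv r (D.G t j)) -
            MvPolynomial.eval D.c (D.G t j) *
              MvPolynomial.eval D.c (MvPolynomial.pderiv r (D.G t (j0 t)))) := by
    intro t j
    set b0 := MvPolynomial.eval D.c (D.G t (j0 t)) with hb0
    set b1 := MvPolynomial.eval D.c (D.G t j) with hb1
    have hb : b0 ≠ 0 := hj0 t
    have hinv : B t (j0 t) * (B t (j0 t))⁻¹ = 1 := MvPowerSeries.mul_inv_cancel _ (hBj0 t)
    set W : MvPowerSeries σ ℂ := (B t j - C (b1 / b0) * B t (j0 t)) * (B t (j0 t))⁻¹ with hW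
    have hWB : W * B t (j0 t) = B t j - C (b1 / b0) * B t (j0 t) := by
      rw [hW, mul_assoc, mul_comm (B t (j0 t))⁻¹, hinv, mul_one]
    have hW0 : constantCoeff W = 0 := by
      rw [hW, map_mul, map_sub, map_mul, constantCoeff_C, hB0, hB0, ← hb0, ← hb1,
        div_mul_cancel₀ _ hb, sub_self, zero_mul]
    clear_value W
    clear hW
    refine ⟨W, hW0, ⟨fun i => (if i = j then 1 else 0) - (b1 / b0) * (if i = j0 t then 1 else 0),
      ?_⟩, fun r hr hrz => ?_⟩
    · have h1 : ∑ i, ((if i = j then (1 : ℂ) else 0) -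
          (b1 / b0) * (if i = j0 t then 1 else 0)) • MvPolynomial.aeval ξ (g t i) =
          MvPolynomial.aeval ξ (g t j) - C (b1 / b0) * MvPolynomial.aeval ξ (g t (j0 t)) := by
        simp only [sub_smul, Finset.sum_sub_distrib, ite_smul, one_smul, zero_smul,
          Finset.sum_ite_eq', Finset.mem_univ, if_true, mul_ite, mul_one, mul_zero,
          smul_eq_C_mul]
      rw [h1, hV t j, hV t (j0 t)]
      calc X z ^ M t * ((MvPolynomial.aeval ξ D.u)⁻¹ * B t j) -
            C (b1 / b0) * (X z ^ M t * ((MvPolynomial.aeval ξ D.u)⁻¹ * B t (j0 t))) =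
          X z ^ M t * (MvPolynomial.aeval ξ D.u)⁻¹ * (B t j - C (b1 / b0) * B t (j0 t)) := by
            ring
        _ = _ := by
            rw [← hWB]
            ring
    · have h1 : constantCoeff (pderiv ℂ r (W * B t (j0 t))) =
          constantCoeff (pderiv ℂ r (B t j - C (b1 / b0) * B t (j0 t))) := by rw [hWB]
      rw [cc_der, hW0, zero_mul, zero_add, map_sub, map_sub, cc_der, pderiv_C, map_zero, mul_zero,
        add_zero, constantCoeff_C, hB0, hB1 t j r hr hrz, hB1 t (j0 t) r hr hrz, ← hb0] at h1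
      have h2 : b0 * constantCoeff (pderiv ℂ r W) =
          MvPolynomial.eval D.c (MvPolynomial.pderiv r (D.G t j)) -
            b1 / b0 * MvPolynomial.eval D.c (MvPolynomial.pderiv r (D.G t (j0 t))) := h1
      have h3 : constantCoeff (pderiv ℂ r W) = b0⁻¹ *
          (MvPolynomial.eval D.c (MvPolynomial.pderiv r (D.G t j)) -
            b1 / b0 * MvPolynomial.eval D.c (MvPolynomial.pderiv r (D.G t (j0 t)))) := by
        rw [← h2, ← mul_assoc, inv_mul_cancel₀ hb, one_mul]
      rw [h3]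
      field_simp
  -- the covectors
  let Dd : Type := {r : σ // D.w r ≠ 0 ∧ r ≠ z}
  let CC : Set (Dd → ℂ) := {ℓ | ∃ t j, ∀ r : Dd, ℓ r =
    MvPolynomial.eval D.c (D.G t (j0 t)) *
        MvPolynomial.eval D.c (MvPolynomial.pderiv r.1 (D.G t j)) -
      MvPolynomial.eval D.c (D.G t j) *
        MvPolynomial.eval D.c (MvPolynomial.pderiv r.1 (D.G t (j0 t)))}
  have hspan : Submodule.span ℂ CC = ⊤ := by
    by_contra hcon
    obtain ⟨y, hy⟩ : ∃ y, y ∉ Submodule.span ℂ CC := by
      by_contra h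
      push Not at h
      exact hcon (eq_top_iff.2 fun y _ => h y)
    obtain ⟨v, hv, hyv⟩ := separate _ _ hy
    set x : σ → ℂ := fun s => if hs : D.w s ≠ 0 ∧ s ≠ z then v ⟨s, hs⟩ else 0 with hx
    have hdif : ∀ q : MvPolynomial σ ℂ, dif D.c x q =
        ∑ r : Dd, v r * MvPolynomial.eval D.c (MvPolynomial.pderiv r.1 q) := by
      intro q
      unfold dif
      have h1 : ∑ i, x i * MvPolynomial.eval D.c (MvPolynomial.pderiv i q) =
          ∑ i ∈ Finset.univ.filter (fun i => D.w i ≠ 0 ∧ i ≠ z),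
            x i * MvPolynomial.eval D.c (MvPolynomial.pderiv i q) := by
        symm
        refine Finset.sum_subset (Finset.subset_univ _) fun i _ hi => ?_
        have h2 : ¬ (D.w i ≠ 0 ∧ i ≠ z) := fun h => hi (Finset.mem_filter.2 ⟨Finset.mem_univ i, h⟩)
        rw [hx]
        simp only
        rw [dif_neg h2, zero_mul]
      rw [h1, Finset.sum_subtype (p := fun i => D.w i ≠ 0 ∧ i ≠ z) _ (fun i => by simp)]
      refine Finset.sum_congr rfl fun r _ => ?_
      congr 1
      rw [hx]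
      simp only
      rw [dif_pos r.2]
    have hℓ : ∀ t j, MvPolynomial.eval D.c (D.G t (j0 t)) * dif D.c x (D.G t j) =
        MvPolynomial.eval D.c (D.G t j) * dif D.c x (D.G t (j0 t)) := by
      intro t j
      have h1 := hv _ (Submodule.subset_span ⟨t, j, fun r => rfl⟩)
      rw [dotProduct] at h1
      rw [hdif, hdif, Finset.mul_sum, Finset.mul_sum, ← sub_eq_zero, ← Finset.sum_sub_distrib,
        ← h1]
      refine Finset.sum_congr rfl fun r _ => ?_
      ring
    obtain ⟨a, ha⟩ := D.unramified x (fun s hs => by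
      rw [hx]
      simp only
      exact dif_neg fun h => h.1 hs) fun t j j' => by
        have e1 := hℓ t j
        have e2 := hℓ t j'
        apply mul_left_cancel₀ (hj0 t)
        linear_combination MvPolynomial.eval D.c (D.G t j') * e1 -
          MvPolynomial.eval D.c (D.G t j) * e2
    have ha0 : a = 0 := by
      have h1 := ha z
      have h2 : x z = 0 := by
        rw [hx]
        simp only
        exact dif_neg fun h => h.2 rfl
      rw [h2] at h1
      exact (mul_eq_zero.1 h1.symm).resolve_right (mul_ne_zero (Nat.cast_ne_zero.2 hz) hcz)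
    have hv0 : v = 0 := by
      funext r
      have h1 := ha r.1
      rw [ha0, zero_mul, hx] at h1
      simp only at h1
      rw [dif_pos r.2] at h1
      exact h1
    rw [hv0, dotProduct_zero] at hyv
    exact hyv rfl
  obtain ⟨β, hβ, hβli⟩ := exists_basis_in CC hspan
  -- the coordinates
  have hex : ∀ r : σ, ∃ w : MvPowerSeries σ ℂ, ∃ u : ℂ, u ≠ 0 ∧ constantCoeff w = 0 ∧
      (¬ (D.w r ≠ 0 ∧ r ≠ z) → w = X r) ∧
      ∀ hr : D.w r ≠ 0 ∧ r ≠ z, (∀ r' : Dd, constantCoeff (pderiv ℂ r'.1 w) = u * β ⟨r, hr⟩ r') ∧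
        ∃ t, A t ∧ ∃ cf : κ t → ℂ, ∑ j, cf j • MvPolynomial.aeval ξ (g t j) =
          MvPolynomial.aeval ξ (g t (j0 t)) * w := by
    intro r
    by_cases hr : D.w r ≠ 0 ∧ r ≠ z
    · obtain ⟨t, j, hℓ⟩ := hβ ⟨r, hr⟩
      obtain ⟨W, hW0, hcf, hW1⟩ := hquo t j
      refine ⟨W, (MvPolynomial.eval D.c (D.G t (j0 t)) ^ 2)⁻¹,
        inv_ne_zero (pow_ne_zero 2 (hj0 t)), hW0, fun h => absurd hr h,
        fun _ => ⟨fun r' => ?_, t, hA t, hcf⟩⟩
      rw [hW1 r'.1 r'.2.1 r'.2.2, hℓ r']
    · exact ⟨X r, 1, one_ne_zero, constantCoeff_X r, fun _ => rfl, fun h => absurd h hr⟩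
  choose w u hu hw0 hwX hwN using hex
  have hdet : (Matrix.of fun s t => constantCoeff (pderiv ℂ s (w t))).det ≠ 0 := by
    intro hdet0
    obtain ⟨x, hx0, hx⟩ := Matrix.exists_mulVec_eq_zero_iff.2 hdet0
    apply hx0
    have hrow : ∀ r, ∑ s, constantCoeff (pderiv ℂ r (w s)) * x s = 0 := fun r => congrFun hx r
    have hD : ∀ r : Dd, x r.1 = 0 := by
      have h1 : ∑ r : Dd, (u r.1 * x r.1) • β r = 0 := by
        funext r'
        rw [Finset.sum_apply, Pi.zero_apply, ← hrow r'.1]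
        have h2 : ∀ s, ¬ (D.w s ≠ 0 ∧ s ≠ z) → constantCoeff (pderiv ℂ r'.1 (w s)) * x s = 0 := by
          intro s hs
          have hne : r'.1 ≠ s := fun h => hs (h ▸ r'.2)
          rw [hwX s hs, pderiv_X_of_ne (Ne.symm hne), map_zero, zero_mul]
        have h3 : ∑ s, constantCoeff (pderiv ℂ r'.1 (w s)) * x s =
            ∑ r : Dd, constantCoeff (pderiv ℂ r'.1 (w r.1)) * x r.1 := by
          rw [← Finset.sum_subset (Finset.subset_univ
            (Finset.univ.filter fun s => D.w s ≠ 0 ∧ s ≠ z))]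
          · exact Finset.sum_subtype _ (fun s => by simp) _
          · intro s _ hs
            exact h2 s fun h => hs (Finset.mem_filter.2 ⟨Finset.mem_univ s, h⟩)
        rw [h3]
        refine Finset.sum_congr rfl fun r _ => ?_
        rw [(hwN r.1 r.2).1 r', Pi.smul_apply, smul_eq_mul]
        ring
      intro r
      have h2 := Fintype.linearIndependent_iff.1 hβli _ h1 r
      exact (mul_eq_zero.1 h2).resolve_left (hu r.1)
    funext r
    by_cases hr : D.w r ≠ 0 ∧ r ≠ z
    · exact hD ⟨r, hr⟩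
    · have h2 := hrow r
      rw [Finset.sum_eq_single r] at h2
      · rw [hwX r hr, pderiv_X_self, map_one, one_mul] at h2
        exact h2
      · intro s _ hsr
        by_cases hs : D.w s ≠ 0 ∧ s ≠ z
        · rw [hD ⟨s, hs⟩, mul_zero]
        · rw [hwX s hs, pderiv_X_of_ne hsr, map_zero, zero_mul]
      · intro h
        exact absurd (Finset.mem_univ r) h
  refine ⟨⟨z, ξ, ∑ s, D.w s - 1, M, j0, ⟨U0, hU0, hJac⟩, fun t j => ⟨_, hV t j⟩,
    fun t => ⟨_, ?_, hV t (j0 t)⟩⟩, ?_, rfl, ⟨w, hwX z fun h => h.2 rfl, hw0, hdet,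
    fun s hsz => ?_⟩, fun H hH => ?_⟩
  · rw [map_mul]
    exact mul_ne_zero hui (hBj0 t)
  · change ∑ s, D.w s - 1 + 1 = ν
    have h1 : 0 < ∑ s, D.w s := lt_of_lt_of_le (Nat.pos_of_ne_zero hz)
      (Finset.single_le_sum (fun _ _ => Nat.zero_le _) (Finset.mem_univ z))
    rw [Nat.sub_add_cancel h1]
    exact D.sum_w
  · by_cases hs : D.w s ≠ 0
    · obtain ⟨t, hAt, cf, hcf⟩ := (hwN s ⟨hs, hsz⟩).2
      exact Or.inr ⟨t, hAt, cf, hcf⟩
    · refine Or.inl ⟨D.h s - MvPolynomial.C (MvPolynomial.eval p (D.h s)), ?_⟩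
      have hs' : D.w s = 0 := not_not.1 hs
      change MvPolynomial.aeval ξ (D.h s - MvPolynomial.C (MvPolynomial.eval p (D.h s))) = w s
      rw [hwX s fun h => hs h.1, map_sub, hh s, hs', pow_zero, one_mul, MvPolynomial.aeval_C,
        D.outside s hs', hθ, theta, if_neg hsz]
      change C (D.c s) + X s - C (D.c s) = X s
      rw [add_sub_cancel_left]
  · change constantCoeff (MvPolynomial.aeval ξ H) ≠ 0
    rw [hcc]
    exact hH

end

end Pool.Agent.V7H1.LV
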