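import Pool.Agent.V7H1.LV.Init
import Pool.Agent.V7H1.LV.Fin

set_option autoImplicit false
set_option linter.unusedSectionVars false
set_option linter.unusedVariables false

/-! # The roots and the poles which belong to unramified initial forms -/

namespace Pool.Agent.V7H1.LV

open MvPowerSeries Pool.Agent.W574.SM Pool.Agent.W574.LM Pool.Agent.W574.HS
  Pool.Agent.H628R4.TP Pool.Agent.TH187.SA Pool.Agent.Y231.RF Pool.Agent.Y228.RR
  Pool.Agent.TH192.DT Pool.Agent.R852.SC

section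

variable {σ τ : Type} [Fintype σ] [DecidableEq σ] [Fintype τ] [DecidableEq τ] {κ : τ → Type}
  [∀ t, Fintype (κ t)] [∀ t, DecidableEq (κ t)]

/-- **The root of a component with unramified initial forms.** -/
theorem init_root (a : τ → ℕ) (ha : ∀ t, 0 < a t) (g : (t : τ) → κ t → MvPolynomial σ ℂ)
    (ν : ℕ) (M : τ → ℕ) (p : σ → ℂ) (D : InitialData g ν M p)
    (hN : 0 < ∑ t, a t * M t) (b : Polynomial ℂ) (hb : IsBFunction (powProd a g) b) :
    b.eval (-(ν : ℂ) / (∑ t, a t * M t : ℕ)) = 0 := by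
  obtain ⟨t0, _, ht0⟩ := Finset.exists_ne_zero_of_sum_ne_zero hN.ne'
  obtain ⟨H, hH, hHb⟩ := locEq_global a g b hb ⟨t0, left_ne_zero_of_mul ht0⟩
  have hHp : MvPolynomial.eval p H ≠ 0 := by
    have h1 := hH fun s => C (p s)
    have h2 : (constantCoeff : MvPowerSeries σ ℂ →+* ℂ).comp
        (MvPolynomial.aeval fun s => (C (p s) : MvPowerSeries σ ℂ) :
          MvPolynomial σ ℂ →ₐ[ℂ] MvPowerSeries σ ℂ).toRingHom = MvPolynomial.eval p := by
      refine MvPolynomial.ringHom_ext (fun r => ?_) fun i => ?_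
      · rw [RingHom.comp_apply, MvPolynomial.eval_C]
        change constantCoeff (MvPolynomial.aeval _ (MvPolynomial.C r)) = r
        rw [MvPolynomial.aeval_C]
        exact constantCoeff_C r
      · rw [RingHom.comp_apply, MvPolynomial.eval_X]
        change constantCoeff (MvPolynomial.aeval _ (MvPolynomial.X i)) = p i
        rw [MvPolynomial.aeval_X]
        exact constantCoeff_C _
    rw [← h2]
    exact h1
  obtain ⟨E, hk, hm, hR, hE⟩ := exists_wchart D ⟨t0, right_ne_zero_of_mul ht0⟩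
    (fun t => a t ≠ 0) (fun t => (ha t).ne')
  have h1 := rees_prod a g b H hHb E hR (hE H hHp) 0 (by rw [Chart.mul, hm]; exact hN) 1
    ⟨1, by rw [map_one]; exact one_ne_zero, by rw [map_one, pow_zero, one_mul]⟩
  rw [Nat.cast_zero, add_zero, Chart.mul, hm] at h1
  rw [← hk]
  push_cast at h1 ⊢
  exact h1

/-- **The poles of topological zeta functions.** -/
theorem top_init {I : Type} [Fintype I] (g : (t : τ) → κ t → MvPolynomial σ ℂ)
    (hg : ∀ t, ∃ j, g t j ≠ 0) (a : τ → ℕ) (ha : ∀ t, 0 < a t) (ν : I → ℕ) (hν : ∀ i, 0 < ν i)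
    (M : I → τ → ℕ) (χ : Finset (I ⊕ τ) → ℤ)
    (hE : ∀ J, χ J ≠ 0 → ∀ i, Sum.inl i ∈ J → ∃ p, Nonempty (InitialData g (ν i) (M i) p))
    (s₀ : ℂ)
    (hs : (topZ (Sum.elim ν fun _ => 1) (mulR a M) χ).denom.eval s₀ = 0)
    (b : Polynomial ℂ) (hb : IsBFunction (powProd a g) b) : b.eval s₀ = 0 := by
  obtain ⟨J, hJ, x, hx, hN, rfl⟩ := pole_topZ' _ _ χ (by
    rintro (i | t)
    · exact hν i
    · exact one_pos) s₀ hs
  rcases x with i | t
  · obtain ⟨p, ⟨D⟩⟩ := hE J hJ i hx
    exact init_root a ha g (ν i) (M i) p D hN b hb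
  · have h := (powData_global a g hg b hb).strict t 0 (ha t)
    rw [Nat.cast_zero, add_zero] at h
    change b.eval (-((1 : ℕ) : ℂ) / a t) = 0
    rw [Nat.cast_one]
    exact h

end

end Pool.Agent.V7H1.LV
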