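import Pool.Agent.V7H1.LV.Fin
import Pool.Agent.TH187.SA.Mult

set_option autoImplicit false
set_option linter.unusedSectionVars false
set_option linter.unusedVariables false

/-! # Linear subspaces -/

namespace Pool.Agent.V7H1.LV

open Module Pool.Agent.W574.HS
  Pool.Agent.H628R4.TP Pool.Agent.TH187.SA Pool.Agent.Y228.RR
  Pool.Agent.TH192.DT

section poles

variable {σ S T I : Type} [Fintype σ] [DecidableEq σ] [Fintype S] [DecidableEq S] [Fintype T]
  [DecidableEq T] [Fintype I] {κ : S → Type} [∀ s, Fintype (κ s)] [∀ s, DecidableEq (κ s)]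

/-- there is a subspace `H s ⊇ G`, `s ∈ A`, and the partition inequality holds -/
def Admissible {V S : Type} [AddCommGroup V] [Module ℂ V] [Fintype S]
    (H : S → Submodule ℂ V) (A : S → Prop) (G : Submodule ℂ V) : Prop :=
  (∃ s, A s ∧ G ≤ H s) ∧ PartitionIneq H A G

theorem zeros_ne (c : (s : S) → κ s → σ → ℂ) (hc : ∀ s, ∃ j, c s j ≠ 0) (s : S) :
    zeros (c s) ≠ ⊤ := by
  obtain ⟨j, hj⟩ := hc s
  intro h
  apply hj
  funext i
  have h1 : (Pi.single i (1 : ℂ) : σ → ℂ) ∈ zeros (c s) := by
    rw [h]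
    trivial
  have h2 := (mem_zeros (c s) _).1 h1 j
  rwa [dotProduct_single, mul_one] at h2

theorem top_lin (c : (s : S) → κ s → σ → ℂ) (hc : ∀ s, ∃ j, c s j ≠ 0) (e : T → S → ℕ)
    (a : T → ℕ) (G : I → Submodule ℂ (σ → ℂ)) (hG : ∀ i, G i ≠ ⊤) (χ : Finset (I ⊕ T) → ℤ)
    (hE : ∀ J, χ J ≠ 0 → ∀ i, Sum.inl i ∈ J →
      Admissible (fun s => zeros (c s)) (Occurs e a) (G i)) (s₀ : ℂ)
    (hs : (topZ (nuA G T) (mulA (fun s => zeros (c s)) e a G) χ).denom.eval s₀ = 0)
    (b : Polynomial ℂ) (hb : IsBFunction (powProd a fun t => arrGen c (e t)) b) :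
    b.eval s₀ = 0 := by
  obtain ⟨J, hJ, x, hx, hN, rfl⟩ := pole_topZ' _ _ χ (by
    rintro (i | t)
    · have h2 := Submodule.finrank_lt (hG i)
      rw [Module.finrank_fintype_fun_eq_card] at h2
      change 0 < Fintype.card σ - Module.finrank ℂ (G i)
      omega
    · exact one_pos) s₀ hs
  have hd : PowData a (fun t => arrGen c (e t)) b :=
    powData_global a _ (fun t => arrGen_ne c hc (e t)) b hb
  rcases x with i | t
  · have hR : IsReesFlat (fun s => zeros (c s)) (Occurs e a) (G i) :=
      rees_of_ineq _ _ _ (fun s _ => zeros_ne c hc s) (hE J hJ i hx).1 (hE J hJ i hx).2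
    have h1 := pow_arr c e a (fun _ : Unit => G i) (fun _ => hR) b hd (Sum.inl ()) 0 hN
    rw [Nat.cast_zero, add_zero] at h1
    exact h1
  · have h := hd.strict t 0 hN
    rw [Nat.cast_zero, add_zero] at h
    change b.eval (-((1 : ℕ) : ℂ) / a t) = 0
    rw [Nat.cast_one]
    exact h

end poles

section generic

variable {V : Type} [AddCommGroup V] [Module ℂ V] [FiniteDimensional ℂ V]

theorem codim_bot : codim (⊥ : Submodule ℂ V) = finrank ℂ V := by
  have h1 := codim_add (⊥ : Submodule ℂ V)
  rw [finrank_bot, add_zero] at h1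
  exact h1

theorem codim_pos' {W : Submodule ℂ V} (h : W ≠ ⊤) : 1 ≤ codim W := by
  have h1 := codim_add W
  have h2 := Submodule.finrank_lt h
  omega

/-- **Subspaces in general position.** -/
theorem generic_iff {S : Type} [Fintype S] (L : S → Submodule ℂ V) (A : Finset S)
    (hA : A.Nonempty) (hL : ∀ s ∈ A, L s ≠ ⊤)
    (hgen : ∀ B ⊆ A, codim (⨅ s ∈ B, L s) = min (finrank ℂ V) (∑ s ∈ B, codim (L s))) :
    IsReesFlat L (· ∈ A) ⊥ ↔ finrank ℂ V + A.card ≤ 1 + ∑ s ∈ A, codim (L s) := by
  classical
  have hab : above L (· ∈ A) (⊥ : Submodule ℂ V) = A := by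
    ext s
    rw [mem_above]
    exact ⟨fun h => h.1, fun h => ⟨h, bot_le⟩⟩
  rw [rees_iff L (· ∈ A) ⊥ hL]
  constructor
  · rintro ⟨_, h⟩
    have h1 := h id
    rw [hab, codim_bot, Finset.image_id] at h1
    have h2 : ∑ k ∈ A, codim (⨅ s ∈ A.filter fun s => id s = k, L s) = ∑ s ∈ A, codim (L s) := by
      refine Finset.sum_congr rfl fun k hk => ?_
      have h3 : (A.filter fun s => id s = k) = {k} := by
        ext s
        simp only [Finset.mem_filter, Finset.mem_singleton, id]
        exact ⟨fun h => h.2, fun h => ⟨h ▸ hk, h⟩⟩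
      rw [h3]
      simp
    rw [← h2]
    exact h1
  · intro h
    obtain ⟨s0, hs0⟩ := id hA
    refine ⟨⟨s0, hs0, bot_le⟩, fun p => ?_⟩
    rw [hab, codim_bot]
    have hc1 : ∀ s ∈ A, 1 ≤ codim (L s) := fun s hs => codim_pos' (hL s hs)
    have hblock : ∀ k, codim (⨅ s ∈ A.filter fun s => p s = k, L s) =
        min (finrank ℂ V) (∑ s ∈ A.filter (fun s => p s = k), codim (L s)) :=
      fun k => hgen _ (Finset.filter_subset _ _)
    have hone : ∀ k ∈ A.image p, 1 ≤ codim (⨅ s ∈ A.filter fun s => p s = k, L s) := by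
      intro k hk
      obtain ⟨s, hs, rfl⟩ := Finset.mem_image.1 hk
      refine (hc1 s hs).trans (codim_mono (iInf₂_le s ?_))
      exact Finset.mem_filter.2 ⟨hs, rfl⟩
    have key : finrank ℂ V + (A.image p).card ≤
        1 + ∑ k ∈ A.image p, codim (⨅ s ∈ A.filter fun s => p s = k, L s) := by
      by_cases hfull : ∃ k ∈ A.image p,
          finrank ℂ V ≤ ∑ s ∈ A.filter (fun s => p s = k), codim (L s)
      · obtain ⟨k, hk, hfk⟩ := hfull
        rw [← Finset.add_sum_erase _ _ hk, hblock k, min_eq_left hfk,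
          ← Finset.card_erase_add_one hk]
        have h2 : ((A.image p).erase k).card ≤ ∑ k ∈ (A.image p).erase k,
            codim (⨅ s ∈ A.filter fun s => p s = k, L s) := by
          rw [Finset.card_eq_sum_ones]
          exact Finset.sum_le_sum fun j hj => hone j (Finset.mem_of_mem_erase hj)
        omega
      · push Not at hfull
        have h2 : ∑ k ∈ A.image p, codim (⨅ s ∈ A.filter fun s => p s = k, L s) =
            ∑ s ∈ A, codim (L s) := by
          rw [← Finset.sum_fiberwise_of_maps_to (s := A) (t := A.image p) (g := p)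
            (fun s hs => Finset.mem_image_of_mem p hs) fun s => codim (L s)]
          refine Finset.sum_congr rfl fun k hk => ?_
          rw [hblock k, min_eq_right (hfull k hk).le]
        rw [h2]
        have h3 : (A.image p).card ≤ A.card := Finset.card_image_le
        omega
    exact key

end generic

section multiples

variable {ι S : Type} [Fintype ι] [DecidableEq ι] [Fintype S]

theorem codim_pow (m : ℕ) (X : Submodule ℂ (ι → ℂ)) : codim (power m X) = m * codim X := by
  have h1 := codim_add (power m X)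
  have h2 := codim_add X
  have h3 := codim_power m X
  rw [finrank_fintype_fun_eq_card] at h1 h2
  have h4 : codim X = Fintype.card ι - finrank ℂ X := by omega
  have h5 : codim (power m X) = Fintype.card (ι × Fin m) - finrank ℂ (power m X) := by omega
  rw [h4, h5, h3]

theorem zeros_copies (m : ℕ) (a : ι → ℂ) : zeros (copies m a) = power m (hyp a) := by
  ext x
  rw [mem_zeros_copies]
  rfl

theorem power_iInf (m : ℕ) (B : Finset S) (X : S → Submodule ℂ (ι → ℂ)) :
    ⨅ s ∈ B, power m (X s) = power m (⨅ s ∈ B, X s) := by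
  ext x
  simp only [Submodule.mem_iInf]
  constructor
  · intro h k
    simp only [Submodule.mem_iInf]
    exact fun s hs => h s hs k
  · intro h s hs k
    have h1 := h k
    simp only [Submodule.mem_iInf] at h1
    exact h1 s hs

theorem hyp_ne (a : ι → ℂ) (ha : a ≠ 0) : hyp a ≠ ⊤ := by
  intro h
  apply ha
  funext i
  have h1 : (Pi.single i (1 : ℂ) : ι → ℂ) ∈ hyp a := by
    rw [h]
    trivial
  have h2 : a ⬝ᵥ Pi.single i (1 : ℂ) = 0 := h1
  rwa [dotProduct_single, mul_one] at h2

open Classical in
/-- **Multiples of hyperplane arrangements.** -/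
theorem multiple_iff (m : ℕ) (hm : 0 < m) (α : S → ι → ℂ) (A : S → Prop)
    (X : Submodule ℂ (ι → ℂ)) (h0 : ∀ s, A s → α s ≠ 0) :
    IsReesFlat (fun s => zeros (copies m (α s))) A (power m X) ↔
      (∃ s, A s ∧ X ≤ hyp (α s)) ∧ ∀ p : S → S,
        m * codim X + ((above (fun s => hyp (α s)) A X).image p).card ≤
          1 + m * ∑ k ∈ (above (fun s => hyp (α s)) A X).image p,
            codim (⨅ s ∈ (above (fun s => hyp (α s)) A X).filter fun s => p s = k,
              hyp (α s)) := by
  have hle : ∀ s, power m X ≤ zeros (copies m (α s)) ↔ X ≤ hyp (α s) :=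
    fun s => power_le_copies m hm (α s) X
  have hab : above (fun s => zeros (copies m (α s))) A (power m X) =
      above (fun s => hyp (α s)) A X := by
    ext s
    rw [mem_above, mem_above, hle]
  rw [rees_iff _ A _ fun s hs => by
    intro h
    apply hyp_ne _ (h0 s hs)
    have h2 := (power_le_copies m hm (α s) ⊤).1 (by rw [h]; exact le_top)
    exact eq_top_iff.2 fun x _ => h2 x trivial]
  refine and_congr ?_ (forall_congr' fun p => ?_)
  · exact exists_congr fun s => and_congr_right fun _ => hle s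
  · rw [hab, codim_pow, Finset.mul_sum]
    have h1 : ∀ k, codim (⨅ s ∈ (above (fun s => hyp (α s)) A X).filter fun s => p s = k,
        zeros (copies m (α s))) = m * codim (⨅ s ∈ (above (fun s => hyp (α s)) A X).filter
          fun s => p s = k, hyp (α s)) := by
      intro k
      rw [← codim_pow, ← power_iInf]
      congr 2
      funext s
      rw [zeros_copies]
    rw [Finset.sum_congr rfl fun k _ => h1 k]

end multiples

end Pool.Agent.V7H1.LV
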