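import Pool.Agent.V7H1.LV.Max

set_option autoImplicit false
set_option linter.unusedSectionVars false
set_option linter.unusedVariables false

/-! # The generic hyperplane theorem of Lovász -/

namespace Pool.Agent.V7H1.LV

open Module Filter Topology

variable {V S : Type*} [AddCommGroup V] [Module ℂ V] [DecidableEq S] {X : Finset S}
  {A : S → Submodule ℂ (Dual ℂ V)}

/-- the sum of the members with the label `k` -/
def Cl (X : Finset S) (A : S → Submodule ℂ (Dual ℂ V)) (p : S → S) (k : S) :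
    Submodule ℂ (Dual ℂ V) := ⨆ i ∈ X.filter fun i => p i = k, A i

theorem le_cl {p : S → S} {k i : S} (hi : i ∈ X) (hk : p i = k) : A i ≤ Cl X A p k :=
  le_iSup₂_of_le (f := fun i (_ : i ∈ X.filter fun i => p i = k) => A i) i
    (Finset.mem_filter.2 ⟨hi, hk⟩) le_rfl

/-- the sections of the sums of related members -/
theorem cl_le {v : V} (hv : Adm X A v) (p : S → S) (k : S) (hk : k ∈ X)
    (hrel : ∀ i ∈ X, p i = k → Rel X A v i k) : Cl X A p k ⊓ ann v ≤ Bd X A v := by
  obtain ⟨a, ha, ha1⟩ := hv k hk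
  have h1 : ∀ x ∈ Cl X A p k, x - x v • a ∈ Bd X A v := by
    intro x hx
    have h2 : Cl X A p k ≤ (Bd X A v).comap (LinearMap.id - (Dual.eval ℂ V v).smulRight a) := by
      refine iSup₂_le fun i hi y hy => ?_
      obtain ⟨hi, hpi⟩ := Finset.mem_filter.1 hi
      rw [Submodule.mem_comap, LinearMap.sub_apply, LinearMap.id_apply, LinearMap.smulRight_apply,
        Dual.eval_apply]
      exact hrel i hi hpi y hy (y v • a) (Submodule.smul_mem _ _ ha) (by
        rw [LinearMap.smul_apply, ha1, smul_eq_mul, mul_one])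
    have h3 := h2 hx
    rwa [Submodule.mem_comap, LinearMap.sub_apply, LinearMap.id_apply, LinearMap.smulRight_apply,
      Dual.eval_apply] at h3
  rintro x ⟨hx, hx0⟩
  have h4 := h1 x hx
  rwa [mem_ann.1 hx0, zero_smul, sub_zero] at h4

/-- the labels: one index of each class -/
theorem exists_label {v : V} (hv : Adm X A v) : ∃ p : S → S, (∀ i ∈ X, p i ∈ X) ∧
    (∀ i ∈ X, p (p i) = p i) ∧ ∀ i ∈ X, ∀ j ∈ X, p i = p j ↔ Rel X A v i j := by
  classical
  let r : Setoid S :=
    { r := fun i j => i = j ∨ (i ∈ X ∧ j ∈ X ∧ Rel X A v i j)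
      iseqv :=
        { refl := fun i => Or.inl rfl
          symm := by
            rintro i j (rfl | ⟨hi, hj, h⟩)
            · exact Or.inl rfl
            · exact Or.inr ⟨hj, hi, h.symm⟩
          trans := by
            rintro i j k (rfl | ⟨hi, hj, h⟩) (rfl | ⟨hj', hk, h'⟩)
            · exact Or.inl rfl
            · exact Or.inr ⟨hj', hk, h'⟩
            · exact Or.inr ⟨hi, hj, h⟩
            · exact Or.inr ⟨hi, hk, h.trans hv hj h'⟩ } }
  let p : S → S := fun i => (Quotient.mk r i).out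
  have hp : ∀ i, r.r (p i) i := fun i => Quotient.exact (Quotient.out_eq (Quotient.mk r i))
  have hpp : ∀ i j, p i = p j ↔ r.r i j := by
    intro i j
    constructor
    · intro h
      exact r.iseqv.trans (r.iseqv.symm (hp i)) (h ▸ hp j)
    · intro h
      have : Quotient.mk r i = Quotient.mk r j := Quotient.sound h
      simp only [p, this]
  refine ⟨p, fun i hi => ?_, fun i hi => (hpp _ _).2 (hp i), fun i hi j hj => ?_⟩
  · rcases hp i with h | ⟨h, _⟩
    · rw [h]; exact hi
    · exact h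
  · rw [hpp]
    constructor
    · rintro (rfl | ⟨_, _, h⟩)
      · exact rel_refl hi
      · exact h
    · exact fun h => Or.inr ⟨hi, hj, h⟩

section

variable [FiniteDimensional ℂ V]

theorem sum_mem_bd {v : V} (hv : Adm X A v)
    (hmax : ∀ v', Adm X A v' → finrank ℂ (Bd X A v') ≤ finrank ℂ (Bd X A v))
    (hgen : ∀ w : V, ∀ᶠ t : ℂ in 𝓝 0, ∀ i ∈ X, ∀ j ∈ X, Rel X A (v + t • w) i j ↔ Rel X A v i j)
    (p : S → S) (hpX : ∀ i ∈ X, p i ∈ X) (hpp : ∀ i ∈ X, p (p i) = p i)
    (hp : ∀ i ∈ X, ∀ j ∈ X, p i = p j ↔ Rel X A v i j) (a : S → Dual ℂ V)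
    (ha : ∀ k ∈ X, a k ∈ A k ∧ a k v = 1) (φ : S → Dual ℂ V)
    (hφ : ∀ k ∈ X.image p, φ k ∈ Cl X A p k ⊓ ann v) (hsum : ∑ k ∈ X.image p, φ k = 0) (w : V) :
    ∑ k ∈ X.image p, φ k w • a k ∈ Bd X A v := by
  have hK : ∀ k ∈ X.image p, k ∈ X ∧ p k = k := by
    intro k hk
    obtain ⟨i, hi, rfl⟩ := Finset.mem_image.1 hk
    exact ⟨hpX i hi, hpp i hi⟩
  set z : Dual ℂ V := ∑ k ∈ X.image p, (a k w • φ k - φ k w • a k) with hz
  have hz0 : z ∈ Bd X A v := by
    by_contra hcon
    have h1 := eventually_notMem hv w hmax (eventually_adm hv w) z 0 hcon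
    have h2 : ∀ᶠ t : ℂ in 𝓝[≠] 0, z ∈ Bd X A (v + t • w) := by
      have e1 : ∀ᶠ t : ℂ in 𝓝[≠] 0, Adm X A (v + t • w) :=
        (eventually_adm hv w).filter_mono nhdsWithin_le_nhds
      have e2 : ∀ᶠ t : ℂ in 𝓝[≠] 0, ∀ i ∈ X, ∀ j ∈ X, Rel X A (v + t • w) i j ↔ Rel X A v i j :=
        (hgen w).filter_mono nhdsWithin_le_nhds
      filter_upwards [e1, e2, self_mem_nhdsWithin] with t ht1 ht2 ht0
      have ht0' : t ≠ 0 := ht0
      have h3 : ∀ k ∈ X.image p, a k (v + t • w) • φ k - φ k (v + t • w) • a k ∈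
          Bd X A (v + t • w) := by
        intro k hk
        obtain ⟨hkX, hkp⟩ := hK k hk
        refine cl_le ht1 p k hkX (fun i hi hik => (ht2 i hi k hkX).2
          ((hp i hi k hkX).1 (hik.trans hkp.symm))) ⟨?_, ?_⟩
        · exact Submodule.sub_mem _ (Submodule.smul_mem _ _ (hφ k hk).1)
            (Submodule.smul_mem _ _ (le_cl hkX hkp (ha k hkX).1))
        · rw [SetLike.mem_coe, mem_ann, LinearMap.sub_apply, LinearMap.smul_apply,
            LinearMap.smul_apply, smul_eq_mul, smul_eq_mul, mul_comm, sub_self]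
      have h4 := Submodule.sum_mem _ h3
      have h5 : ∑ k ∈ X.image p, (a k (v + t • w) • φ k - φ k (v + t • w) • a k) = t • z := by
        have h6 : ∀ k ∈ X.image p, a k (v + t • w) • φ k - φ k (v + t • w) • a k =
            φ k + t • (a k w • φ k - φ k w • a k) := by
          intro k hk
          obtain ⟨hkX, hkp⟩ := hK k hk
          rw [map_add, map_add, map_smul, map_smul, (ha k hkX).2, mem_ann.1 (hφ k hk).2, zero_add,
            smul_eq_mul, smul_eq_mul, add_smul, one_smul, smul_sub, smul_smul, smul_smul]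
          abel
        rw [Finset.sum_congr rfl h6, Finset.sum_add_distrib, hsum, zero_add, ← Finset.smul_sum]
      rw [h5, Submodule.smul_mem_iff _ ht0'] at h4
      exact h4
    have h7 : ∀ᶠ t : ℂ in 𝓝[≠] 0, z + t • (0 : Dual ℂ V) ∉ Bd X A (v + t • w) :=
      h1.filter_mono nhdsWithin_le_nhds
    obtain ⟨t, ht, ht'⟩ := (h2.and h7).exists
    rw [smul_zero, add_zero] at ht'
    exact ht' ht
  have h8 : ∑ k ∈ X.image p, a k w • φ k ∈ Bd X A v := by
    refine Submodule.sum_mem _ fun k hk => Submodule.smul_mem _ _ ?_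
    obtain ⟨hkX, hkp⟩ := hK k hk
    exact cl_le hv p k hkX (fun i hi hik => (hp i hi k hkX).1 (hik.trans hkp.symm)) (hφ k hk)
  have h9 := Submodule.sub_mem _ h8 hz0
  rw [hz, Finset.sum_sub_distrib, sub_sub_cancel] at h9
  exact h9

open Classical in
/-- the sections of the classes are independent -/
theorem indep {v : V} (hv : Adm X A v)
    (hmax : ∀ v', Adm X A v' → finrank ℂ (Bd X A v') ≤ finrank ℂ (Bd X A v))
    (hgen : ∀ w : V, ∀ᶠ t : ℂ in 𝓝 0, ∀ i ∈ X, ∀ j ∈ X, Rel X A (v + t • w) i j ↔ Rel X A v i j)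
    (p : S → S) (hpX : ∀ i ∈ X, p i ∈ X) (hpp : ∀ i ∈ X, p (p i) = p i)
    (hp : ∀ i ∈ X, ∀ j ∈ X, p i = p j ↔ Rel X A v i j) :
    ∀ (n : ℕ) (φ : S → Dual ℂ V), (∀ k ∈ X.image p, φ k ∈ Cl X A p k ⊓ ann v) →
      ∑ k ∈ X.image p, φ k = 0 → ((X.image p).filter fun k => φ k ≠ 0).card ≤ n →
      ∀ k ∈ X.image p, φ k = 0 := by
  have hK : ∀ k ∈ X.image p, k ∈ X ∧ p k = k := by
    intro k hk
    obtain ⟨i, hi, rfl⟩ := Finset.mem_image.1 hk
    exact ⟨hpX i hi, hpp i hi⟩
  have ha : ∃ a : S → Dual ℂ V, ∀ k ∈ X, a k ∈ A k ∧ a k v = 1 := by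
    have : ∀ k, ∃ a : Dual ℂ V, k ∈ X → a ∈ A k ∧ a v = 1 := by
      intro k
      by_cases hk : k ∈ X
      · obtain ⟨a, ha, h1⟩ := hv k hk
        exact ⟨a, fun _ => ⟨ha, h1⟩⟩
      · exact ⟨0, fun h => absurd h hk⟩
    choose a ha using this
    exact ⟨a, ha⟩
  obtain ⟨a, ha⟩ := ha
  intro n
  induction n with
  | zero =>
    intro φ hφ hsum hcard k hk
    by_contra hne
    have h1 := Finset.card_eq_zero.1 (Nat.le_zero.1 hcard)
    have h2 : k ∈ (X.image p).filter fun k => φ k ≠ 0 := Finset.mem_filter.2 ⟨hk, hne⟩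
    rw [h1] at h2
    simp at h2
  | succ n ih =>
    intro φ hφ hsum hcard
    by_contra hcon
    push Not at hcon
    obtain ⟨k0, hk0, hne⟩ := hcon
    have hdiff : ∀ k ∈ X.image p, φ k ≠ 0 → k = k0 := by
      intro k hk hkne
      have hmem : a k - a k0 ∈ Bd X A v := by
        by_contra hnot
        obtain ⟨l, hl, hlB⟩ := Submodule.exists_le_ker_of_notMem hnot
        have h1 := ih (fun j => (l (a j) - l (a k0)) • φ j)
          (fun j hj => Submodule.smul_mem _ _ (hφ j hj)) ?_ ?_ k hk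
        · rcases smul_eq_zero.1 h1 with h2 | h2
          · rw [map_sub] at hl
            exact hl h2
          · exact hkne h2
        · have h3 : ∀ w : V, ∑ j ∈ X.image p, φ j w * l (a j) = 0 := by
            intro w
            have h4 := hlB (sum_mem_bd hv hmax hgen p hpX hpp hp a ha φ hφ hsum w)
            rw [LinearMap.mem_ker, map_sum] at h4
            simpa only [map_smul, smul_eq_mul] using h4
          have h5 : ∑ j ∈ X.image p, l (a j) • φ j = 0 := by
            ext w
            rw [LinearMap.sum_apply, LinearMap.zero_apply, ← h3 w]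
            refine Finset.sum_congr rfl fun j _ => ?_
            rw [LinearMap.smul_apply, smul_eq_mul, mul_comm]
          simp only [sub_smul, Finset.sum_sub_distrib]
          rw [h5, ← Finset.smul_sum, hsum, smul_zero, sub_zero]
        · have hsub : ((X.image p).filter fun j => (l (a j) - l (a k0)) • φ j ≠ 0) ⊆
              ((X.image p).filter fun j => φ j ≠ 0).erase k0 := by
            intro j hj
            obtain ⟨hj1, hj2⟩ := Finset.mem_filter.1 hj
            refine Finset.mem_erase.2 ⟨?_, Finset.mem_filter.2 ⟨hj1, fun h => hj2 (by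
              rw [h, smul_zero])⟩⟩
            rintro rfl
            exact hj2 (by rw [sub_self, zero_smul])
          have h6 := Finset.card_le_card hsub
          rw [Finset.card_erase_of_mem (Finset.mem_filter.2 ⟨hk0, hne⟩)] at h6
          omega
      obtain ⟨hkX, hkp⟩ := hK k hk
      obtain ⟨hk0X, hk0p⟩ := hK k0 hk0
      have hrel : Rel X A v k k0 := by
        intro x hx y hy hxy
        have e1 : x - x v • a k ∈ Bd X A v := mem_bd hkX
          (Submodule.sub_mem _ hx (Submodule.smul_mem _ _ (ha k hkX).1)) (by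
            rw [LinearMap.sub_apply, LinearMap.smul_apply, (ha k hkX).2, smul_eq_mul, mul_one,
              sub_self])
        have e2 : y - y v • a k0 ∈ Bd X A v := mem_bd hk0X
          (Submodule.sub_mem _ hy (Submodule.smul_mem _ _ (ha k0 hk0X).1)) (by
            rw [LinearMap.sub_apply, LinearMap.smul_apply, (ha k0 hk0X).2, smul_eq_mul, mul_one,
              sub_self])
        have e3 := Submodule.add_mem _ (Submodule.sub_mem _ e1 e2)
          (Submodule.smul_mem _ (x v) hmem)
        convert e3 using 1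
        rw [hxy, smul_sub]
        abel
      rw [← hkp, ← hk0p]
      exact (hp k hkX k0 hk0X).2 hrel
    have h10 : ∑ k ∈ X.image p, φ k = φ k0 := by
      refine Finset.sum_eq_single k0 (fun k hk hkk => ?_) fun h => absurd hk0 h
      by_contra h
      exact hkk (hdiff k hk h)
    exact hne (h10 ▸ hsum)

theorem finrank_inf_ann (W : Submodule ℂ (Dual ℂ V)) (v : V) :
    finrank ℂ W ≤ finrank ℂ (W ⊓ ann v : Submodule ℂ (Dual ℂ V)) + 1 := by
  have h1 := Submodule.finrank_sup_add_finrank_inf_eq W (ann v)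
  have h2 := Submodule.finrank_le (W ⊔ ann v)
  have h3 := LinearMap.finrank_range_add_finrank_ker (Dual.eval ℂ V v)
  have h4 : finrank ℂ (LinearMap.range (Dual.eval ℂ V v)) ≤ 1 := by
    have := Submodule.finrank_le (LinearMap.range (Dual.eval ℂ V v))
    rwa [finrank_self] at this
  change _ + finrank ℂ (ann v) = _ at h3
  omega

/-- the dimension of the span of independent subspaces -/
theorem finrank_indep (W : S → Submodule ℂ (Dual ℂ V)) (T : Finset S)
    (h : ∀ φ : S → Dual ℂ V, (∀ k ∈ T, φ k ∈ W k) → ∑ k ∈ T, φ k = 0 → ∀ k ∈ T, φ k = 0) :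
    ∑ k ∈ T, finrank ℂ (W k) ≤ finrank ℂ (⨆ k ∈ T, W k : Submodule ℂ (Dual ℂ V)) := by
  induction T using Finset.induction_on with
  | empty => rw [Finset.sum_empty]; exact Nat.zero_le _
  | insert k0 T hk0 ih =>
    have h1 := ih fun φ hφ hs k hk => by
      have h2 := h (fun j => if j = k0 then 0 else φ j) (fun j hj => by
        split_ifs with h3
        · exact Submodule.zero_mem _
        · exact hφ j (Finset.mem_of_mem_insert_of_ne hj h3)) (by
        rw [Finset.sum_insert hk0, if_pos rfl, zero_add, ← hs]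
        refine Finset.sum_congr rfl fun j hj => if_neg ?_
        rintro rfl
        exact hk0 hj) k (Finset.mem_insert_of_mem hk)
      have h3 : k ≠ k0 := by
        rintro rfl
        exact hk0 hk
      rwa [if_neg h3] at h2
    have h4 : W k0 ⊓ (⨆ k ∈ T, W k) = ⊥ := by
      rw [eq_bot_iff]
      rintro x ⟨hx0, hx⟩
      obtain ⟨μ, hμ⟩ := (Submodule.mem_iSup_finset_iff_exists_sum _ _).1 hx
      have h5 := h (fun j => if j = k0 then -x else (μ j : Dual ℂ V)) (fun j hj => by
        split_ifs with h3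
        · rw [h3]; exact Submodule.neg_mem _ hx0
        · exact (μ j).2) (by
        rw [Finset.sum_insert hk0, if_pos rfl]
        have h6 : ∑ j ∈ T, (if j = k0 then -x else (μ j : Dual ℂ V)) = x := by
          rw [← hμ]
          refine Finset.sum_congr rfl fun j hj => if_neg ?_
          rintro rfl
          exact hk0 hj
        rw [h6, neg_add_cancel]) k0 (Finset.mem_insert_self _ _)
      rw [if_pos rfl, neg_eq_zero] at h5
      exact (Submodule.mem_bot ℂ).2 h5
    have h7 := Submodule.finrank_sup_add_finrank_inf_eq (W k0) (⨆ k ∈ T, W k)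
    rw [h4, finrank_bot, add_zero] at h7
    rw [Finset.sum_insert hk0, Finset.iSup_insert, h7]
    exact Nat.add_le_add_left h1 _

/-- **The generic hyperplane theorem** (Lovász). For some `v` the sections of the `A i` with the
hyperplane `v = 0` of the dual space have a span of the dimension `∑ (dim A_P - 1)` for some
partition. -/
theorem exists_section (hA : ∀ i ∈ X, A i ≠ ⊥) : ∃ v, Adm X A v ∧ ∃ p : S → S,
    ∑ k ∈ X.image p, finrank ℂ (Cl X A p k) ≤ finrank ℂ (Bd X A v) + (X.image p).card := by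
  classical
  obtain ⟨v, hv, hmax, hgen⟩ := exists_gen hA
  obtain ⟨p, hpX, hpp, hp⟩ := exists_label hv
  refine ⟨v, hv, p, ?_⟩
  have hK : ∀ k ∈ X.image p, k ∈ X ∧ p k = k := by
    intro k hk
    obtain ⟨i, hi, rfl⟩ := Finset.mem_image.1 hk
    exact ⟨hpX i hi, hpp i hi⟩
  have hle : ∀ k ∈ X.image p, Cl X A p k ⊓ ann v ≤ Bd X A v := fun k hk =>
    cl_le hv p k (hK k hk).1 fun i hi hik => (hp i hi k (hK k hk).1).1 (hik.trans (hK k hk).2.symm)
  have h5 := finrank_indep (fun k => Cl X A p k ⊓ ann v) (X.image p) fun φ hφ hs =>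
    indep hv hmax hgen p hpX hpp hp _ φ hφ hs le_rfl
  have h5' : finrank ℂ (⨆ k ∈ X.image p, Cl X A p k ⊓ ann v : Submodule ℂ (Dual ℂ V)) ≤
      finrank ℂ (Bd X A v) := Submodule.finrank_mono (iSup₂_le hle)
  have h6 : ∑ k ∈ X.image p, finrank ℂ (Cl X A p k) ≤
      ∑ k ∈ X.image p, (finrank ℂ (Cl X A p k ⊓ ann v : Submodule ℂ (Dual ℂ V)) + 1) :=
    Finset.sum_le_sum fun k _ => finrank_inf_ann _ v
  rw [Finset.sum_add_distrib, Finset.sum_const, smul_eq_mul, mul_one] at h6
  omega

end

end Pool.Agent.V7H1.LV
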