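import Pool.Agent.V7H1.LV.Core

set_option autoImplicit false
set_option linter.unusedSectionVars false
set_option linter.unusedVariables false

/-! # A vector in general position -/

namespace Pool.Agent.V7H1.LV

open Module Filter Topology

variable {V S : Type*} [AddCommGroup V] [Module ℂ V] {X : Finset S}
  {A : S → Submodule ℂ (Dual ℂ V)}

theorem exists_adm [FiniteDimensional ℂ V] (hA : ∀ i ∈ X, A i ≠ ⊥) : ∃ v, Adm X A v := by
  classical
  by_contra hcon
  push Not at hcon
  have hcov : (⋃ i : X, (((A i.1).dualCoannihilator : Subspace ℂ V) : Set V)) = Set.univ := by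
    rw [Set.eq_univ_iff_forall]
    intro v
    have h1 := hcon v
    unfold Adm at h1
    push Not at h1
    obtain ⟨i, hi, h2⟩ := h1
    rw [Set.mem_iUnion]
    refine ⟨⟨i, hi⟩, ?_⟩
    rw [SetLike.mem_coe, Submodule.mem_dualCoannihilator]
    intro φ hφ
    by_contra h3
    exact h2 ((φ v)⁻¹ • φ) (Submodule.smul_mem _ _ hφ) (by
      rw [LinearMap.smul_apply, smul_eq_mul, inv_mul_cancel₀ h3])
  obtain ⟨⟨i, hi⟩, h⟩ := Subspace.exists_eq_top_of_iUnion_eq_univ hcov
  apply hA i hi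
  rw [eq_bot_iff]
  intro x hx
  rw [Submodule.mem_bot]
  ext v
  have h1 : v ∈ (A i).dualCoannihilator := by rw [h]; trivial
  exact (Submodule.mem_dualCoannihilator v).1 h1 x hx

theorem eventually_adm {v : V} (hv : Adm X A v) (w : V) :
    ∀ᶠ t : ℂ in 𝓝 0, Adm X A (v + t • w) := by
  have h : ∀ i ∈ X, ∀ᶠ t : ℂ in 𝓝 0, ∃ x ∈ A i, x (v + t • w) = 1 := by
    intro i hi
    obtain ⟨x, hx, h1⟩ := hv i hi
    have hc : Continuous fun t : ℂ => 1 + t * x w := by fun_prop
    have h2 : ∀ᶠ t : ℂ in 𝓝 0, 1 + t * x w ≠ 0 :=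
      hc.continuousAt.eventually_ne (by rw [zero_mul, add_zero]; exact one_ne_zero)
    filter_upwards [h2] with t ht
    refine ⟨(1 + t * x w)⁻¹ • x, Submodule.smul_mem _ _ hx, ?_⟩
    rw [LinearMap.smul_apply, map_add, map_smul, h1, smul_eq_mul, smul_eq_mul,
      inv_mul_cancel₀ ht]
  have h3 := (Filter.eventually_all_finset X).2 h
  exact h3

/-- a vector in general position: the dimension of the span of the sections is maximal, and the
number of the pairs of members which give different points is maximal -/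
theorem exists_gen [FiniteDimensional ℂ V] (hA : ∀ i ∈ X, A i ≠ ⊥) :
    ∃ v, Adm X A v ∧ (∀ v', Adm X A v' → finrank ℂ (Bd X A v') ≤ finrank ℂ (Bd X A v)) ∧
      ∀ w : V, ∀ᶠ t : ℂ in 𝓝 0, ∀ i ∈ X, ∀ j ∈ X, Rel X A (v + t • w) i j ↔ Rel X A v i j := by
  classical
  let n : V → ℕ := fun v => ((X ×ˢ X).filter fun q => ¬ Rel X A v q.1 q.2).card
  let N : ℕ := (X ×ˢ X).card
  let F : V → ℕ := fun v => finrank ℂ (Bd X A v) * (N + 1) + n v
  have hn : ∀ v, n v ≤ N := fun v => Finset.card_filter_le _ _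
  have hF : ∀ v, F v ≤ finrank ℂ (Dual ℂ V) * (N + 1) + N := fun v =>
    add_le_add (Nat.mul_le_mul_right _ (Submodule.finrank_le _)) (hn v)
  obtain ⟨v0, hv0⟩ := exists_adm hA
  -- a maximum
  obtain ⟨v, hv, hmax⟩ : ∃ v, Adm X A v ∧ ∀ v', Adm X A v' → F v' ≤ F v := by
    let s : Set ℕ := {k | ∃ v, Adm X A v ∧ F v = k}
    have hs : s.Nonempty := ⟨_, v0, hv0, rfl⟩
    have hb : BddAbove s := ⟨_, by rintro k ⟨v, -, rfl⟩; exact hF v⟩
    obtain ⟨v, hv, hk⟩ := Nat.sSup_mem hs hb
    exact ⟨v, hv, fun v' hv' => by rw [hk]; exact le_csSup hb ⟨v', hv', rfl⟩⟩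
  have hd : ∀ v', Adm X A v' → finrank ℂ (Bd X A v') ≤ finrank ℂ (Bd X A v) := by
    intro v' hv'
    by_contra hlt
    rw [not_le] at hlt
    have h1 := hmax v' hv'
    have h2 := hn v
    have h3 : (finrank ℂ (Bd X A v) + 1) * (N + 1) ≤ finrank ℂ (Bd X A v') * (N + 1) :=
      Nat.mul_le_mul_right _ hlt
    simp only [F] at h1
    nlinarith
  refine ⟨v, hv, hd, fun w => ?_⟩
  have hadm := eventually_adm hv w
  have hnot : ∀ q ∈ X ×ˢ X, ∀ᶠ t : ℂ in 𝓝 0,
      ¬ Rel X A v q.1 q.2 → ¬ Rel X A (v + t • w) q.1 q.2 := by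
    rintro ⟨i, j⟩ hq
    by_cases hr : Rel X A v i j
    · exact Eventually.of_forall fun t h => absurd hr h
    have hr' := hr
    unfold Rel at hr'
    push Not at hr'
    obtain ⟨x, hx, y, hy, hxy, hne⟩ := hr'
    have hi := (Finset.mem_product.1 hq).1
    have hj := (Finset.mem_product.1 hq).2
    have hc : x v ≠ 0 := by
      intro h0
      apply hne
      exact Submodule.sub_mem _ (mem_bd hi hx h0) (mem_bd hj hy (hxy ▸ h0))
    have hp : x v • x - x v • y ∉ Bd X A v := by
      rw [← smul_sub, Submodule.smul_mem_iff _ hc]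
      exact hne
    filter_upwards [eventually_notMem hv w hd hadm _ (y w • x - x w • y) hp] with t ht _ hrel
    apply ht
    have h1 := hrel (y (v + t • w) • x) (Submodule.smul_mem _ _ hx) (x (v + t • w) • y)
      (Submodule.smul_mem _ _ hy) (by
        rw [LinearMap.smul_apply, LinearMap.smul_apply, smul_eq_mul, smul_eq_mul, mul_comm])
    convert h1 using 1
    rw [map_add, map_add, map_smul, map_smul, hxy, smul_eq_mul, smul_eq_mul, smul_sub, smul_smul,
      smul_smul, add_smul, add_smul]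
    abel
  have hall := (Filter.eventually_all_finset (X ×ˢ X)).2 hnot
  filter_upwards [hadm, eventually_finrank hv w, hall] with t ht hdim hsub i hi j hj
  have hle := hmax _ ht
  have hdim' : finrank ℂ (Bd X A (v + t • w)) = finrank ℂ (Bd X A v) := le_antisymm (hd _ ht) hdim
  have hn' : n (v + t • w) ≤ n v := by
    simp only [F, hdim'] at hle
    omega
  have hss : ((X ×ˢ X).filter fun q => ¬ Rel X A v q.1 q.2) ⊆
      (X ×ˢ X).filter fun q => ¬ Rel X A (v + t • w) q.1 q.2 := by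
    intro q hq
    rw [Finset.mem_filter] at hq ⊢
    exact ⟨hq.1, hsub q hq.1 hq.2⟩
  have heq := Finset.eq_of_subset_of_card_le hss hn'
  have h1 : (i, j) ∈ ((X ×ˢ X).filter fun q => ¬ Rel X A v q.1 q.2) ↔
      (i, j) ∈ (X ×ˢ X).filter fun q => ¬ Rel X A (v + t • w) q.1 q.2 := by rw [heq]
  rw [Finset.mem_filter, Finset.mem_filter] at h1
  have h2 : (i, j) ∈ X ×ˢ X := Finset.mem_product.2 ⟨hi, hj⟩
  simp only [h2, true_and] at h1
  exact (not_iff_not.1 h1).symm

end Pool.Agent.V7H1.LV
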