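import Pool.Agent.V7H1.LV.Form

set_option autoImplicit false
set_option linter.unusedSectionVars false
set_option linter.unusedVariables false

/-! # Poles for multiples of hyperplane arrangements -/

namespace Pool.Agent.V7H1.LV

open Module Pool.Agent.W574.HS
  Pool.Agent.H628R4.TP Pool.Agent.TH187.SA Pool.Agent.Y228.RR
  Pool.Agent.TH192.DT

variable {ι S T I : Type} [Fintype ι] [DecidableEq ι] [Fintype S] [DecidableEq S] [Fintype T]
  [DecidableEq T] [Fintype I]

/-- **Multiples of hyperplane arrangements.** -/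
theorem top_mul (m : ℕ) (hm : 0 < m) (α : S → ι → ℂ) (h0 : ∀ s, α s ≠ 0) (e : T → S → ℕ)
    (a : T → ℕ) (X : I → Submodule ℂ (ι → ℂ)) (hX : ∀ i, X i ≠ ⊤) (χ : Finset (I ⊕ T) → ℤ)
    (hE : ∀ J, χ J ≠ 0 → ∀ i, Sum.inl i ∈ J → IsIrreducibleFlat α (Occurs e a) (X i) ∧
      ShortRelations m α (Occurs e a) (X i)) (s₀ : ℂ)
    (hs : (topZ (nuA (fun i => power m (X i)) T)
      (mulA (fun s => zeros (copies m (α s))) e a fun i => power m (X i)) χ).denom.eval s₀ = 0)
    (b : Polynomial ℂ)
    (hb : IsBFunction (powProd a fun t => arrGen (fun s => copies m (α s)) (e t)) b) :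
    b.eval s₀ = 0 := by
  have hc : ∀ s, ∃ j, copies m (α s) j ≠ 0 := by
    intro s
    refine ⟨⟨0, hm⟩, fun h => h0 s ?_⟩
    funext i
    have h1 := congrFun h (i, ⟨0, hm⟩)
    simpa [copies] using h1
  have hne : ∀ i, power m (X i) ≠ ⊤ := by
    intro i h
    apply hX i
    rw [eq_top_iff]
    intro x _
    have h1 : (fun p : ι × Fin m => x p.1) ∈ power m (X i) := by
      rw [h]
      trivial
    exact h1 ⟨0, hm⟩
  refine top_lin (fun s => copies m (α s)) hc e a (fun i => power m (X i)) hne χ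
    (fun J hJ i hi => ?_) s₀ hs b hb
  have h1 := rees_short m hm α (Occurs e a) (X i) (fun s _ => h0 s) (hE J hJ i hi).1
    (hE J hJ i hi).2
  exact (rees_iff _ _ _ fun s _ => zeros_ne (fun s => copies m (α s)) hc s).1 h1

end Pool.Agent.V7H1.LV
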