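import Pool.Agent.V7H1.LV.Blow

set_option autoImplicit false
set_option linter.unusedSectionVars false
set_option linter.unusedVariables false

/-! # The roots of the components of a resolution of products of ideals of smooth varieties -/

namespace Pool.Agent.V7H1.LV

open MvPowerSeries Pool.Agent.W574.SM Pool.Agent.W574.LM Pool.Agent.W574.HS
  Pool.Agent.TH187.SA Pool.Agent.Y231.RF
  Pool.Agent.TH192.DT Pool.Agent.R852.SC

variable {σ τ : Type} [Fintype σ] [DecidableEq σ] [Fintype τ] [DecidableEq τ] {κ : τ → Type}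
  [∀ t, Fintype (κ t)] [∀ t, DecidableEq (κ t)]

/-- the covectors of a family with the chart of a blow-up -/
theorem exists_covs {g : (t : τ) → κ t → MvPolynomial σ ℂ} {c : ℕ} {M : τ → ℕ} {p : σ → ℂ}
    (L : LocalData g c M p) (w₀ : σ → ℂ) (hwK : ∀ s, w₀ ∉ tang p (L.K s))
    (hw2 : ∀ v, (∀ s, v ∈ tang p (L.K s) ⊔ Submodule.span ℂ {w₀}) →
      v ∈ tang p L.J ⊔ Submodule.span ℂ {w₀})
    (z : σ) (hz : z ∈ L.N) (hω : dif p w₀ (L.h z) ≠ 0) (e : σ → σ → ℂ)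
    (he : ∀ r s, dif p (e r) (L.h s) = if r = s then 1 else 0) (W : Submodule ℂ (σ → ℂ))
    (hW : ∀ s, ∀ k₁ ∈ L.K s, dif p w₀ k₁ = 0 →
      ∃ ℓ ∈ W, ∀ r ∈ L.N, r ≠ z → ℓ r = dif p (e r) k₁) (s : σ) (hs : s ∈ L.N) (hsz : s ≠ z) :
    ∃ ℓ ∈ W, ∀ r ∈ L.N, r ≠ z → ℓ r = if r = s then 1 else 0 := by
  -- the restriction to the directions of the fibre
  let R : (σ → ℂ) →ₗ[ℂ] (σ → ℂ) :=
    LinearMap.pi fun l => if l ∈ L.N ∧ l ≠ z then LinearMap.proj l else 0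
  have hR1 : ∀ (ℓ : σ → ℂ) l, l ∈ L.N → l ≠ z → R ℓ l = ℓ l := by
    intro ℓ l h1 h2
    simp only [R, LinearMap.pi_apply]
    rw [if_pos ⟨h1, h2⟩]
    rfl
  have hR0 : ∀ (ℓ : σ → ℂ) l, ¬ (l ∈ L.N ∧ l ≠ z) → R ℓ l = 0 := by
    intro ℓ l h1
    simp only [R, LinearMap.pi_apply]
    rw [if_neg h1]
    rfl
  have hdual : (Pi.single s 1 : σ → ℂ) ∈ W.map R := by
    by_contra hcon
    obtain ⟨v, hv, hvs⟩ := separate _ _ hcon
    rw [single_dotProduct, one_mul] at hvs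
    set v' : σ → ℂ := ∑ r ∈ L.N.erase z, v r • e r with hv'
    have hdv' : ∀ q : MvPolynomial σ ℂ, dif p v' q = ∑ r ∈ L.N.erase z, v r * dif p (e r) q := by
      intro q
      rw [hv', dif_sum_dir]
      exact Finset.sum_congr rfl fun r _ => dif_smul_dir _ _ _ _
    have hkill : ∀ s', ∀ k₁ ∈ L.K s', dif p w₀ k₁ = 0 → dif p v' k₁ = 0 := by
      intro s' k₁ hk₁ hd
      obtain ⟨ℓ, hℓW, hℓ⟩ := hW s' k₁ hk₁ hd
      have h1 := hv (R ℓ) (Submodule.mem_map_of_mem hℓW)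
      rw [hdv', ← h1, dotProduct, ← Finset.sum_subset (Finset.subset_univ (L.N.erase z))]
      · refine Finset.sum_congr rfl fun r hr => ?_
        obtain ⟨hrz, hrN⟩ := Finset.mem_erase.1 hr
        rw [hR1 ℓ r hrN hrz, hℓ r hrN hrz, mul_comm]
      · intro r _ hr
        rw [hR0 ℓ r fun h => hr (Finset.mem_erase.2 ⟨h.2, h.1⟩), zero_mul]
    have hmem : v' ∈ tang p L.J ⊔ Submodule.span ℂ {w₀} := by
      refine hw2 v' fun s' => ?_
      have h1 := hwK s'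
      rw [mem_tang] at h1
      push Not at h1
      obtain ⟨k0, hk0, hne⟩ := h1
      refine Submodule.mem_sup.2 ⟨v' - (dif p v' k0 / dif p w₀ k0) • w₀, ?_,
        (dif p v' k0 / dif p w₀ k0) • w₀, Submodule.smul_mem _ _
          (Submodule.mem_span_singleton_self w₀), sub_add_cancel _ _⟩
      intro k hk
      have h2 := hkill s' (k + MvPolynomial.C (-(dif p w₀ k / dif p w₀ k0)) * k0)
        (Ideal.add_mem _ hk (Ideal.mul_mem_left _ _ hk0)) (by
          rw [dif_add, dif_mul, MvPolynomial.eval_C]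
          have h3 : dif p w₀ (MvPolynomial.C (-(dif p w₀ k / dif p w₀ k0))) = 0 := by
            simp [dif]
          rw [h3, mul_zero, add_zero]
          field_simp
          ring)
      rw [dif_add, dif_mul, MvPolynomial.eval_C] at h2
      have h3 : dif p v' (MvPolynomial.C (-(dif p w₀ k / dif p w₀ k0))) = 0 := by
        simp [dif]
      rw [h3, mul_zero, add_zero] at h2
      rw [sub_eq_add_neg, ← neg_smul, dif_add_dir, dif_smul_dir]
      field_simp at h2 ⊢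
      linear_combination h2
    obtain ⟨j, hj, y, hy, hjy⟩ := Submodule.mem_sup.1 hmem
    obtain ⟨r, rfl⟩ := Submodule.mem_span_singleton.1 hy
    rw [mem_tang_J] at hj
    have h1 : ∀ s' ∈ L.N, dif p v' (L.h s') = r * dif p w₀ (L.h s') := by
      intro s' hs'
      rw [← hjy, dif_add_dir, dif_smul_dir, hj s' hs', zero_add]
    have h2 : dif p v' (L.h z) = 0 := by
      rw [hdv']
      refine Finset.sum_eq_zero fun r hr => ?_
      rw [he, if_neg (Finset.ne_of_mem_erase hr), mul_zero]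
    have h3 : r = 0 := by
      have h4 := h1 z hz
      rw [h2] at h4
      exact (mul_eq_zero.1 h4.symm).resolve_right hω
    have h5 : dif p v' (L.h s) = v s := by
      rw [hdv', Finset.sum_eq_single s]
      · rw [he, if_pos rfl, mul_one]
      · intro r _ hr
        rw [he, if_neg hr, mul_zero]
      · intro h
        exact absurd (Finset.mem_erase.2 ⟨hsz, hs⟩) h
    apply hvs
    rw [← h5, h1 s hs, h3, zero_mul]
  obtain ⟨ℓ, hℓ, hℓs⟩ := (Submodule.mem_map).1 hdual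
  refine ⟨ℓ, hℓ, fun r hr hrz => ?_⟩
  rw [← hR1 ℓ r hr hrz, hℓs, Pi.single_apply]

/-- a generator of the family of minimal order -/
theorem exists_unit_gen {ι : Type} [Fintype ι] (f : ι → MvPolynomial σ ℂ) (z : σ)
    (ξ : σ → MvPowerSeries σ ℂ) (A : ℕ) (hord : HasOrd z ξ A f) :
    ∃ V : ι → MvPowerSeries σ ℂ, (∀ j, MvPolynomial.aeval ξ (f j) = X z ^ A * V j) ∧
      ∃ j0, constantCoeff (V j0) ≠ 0 := by
  obtain ⟨hdiv, F, hF, UF, hUF, hFU⟩ := hord
  choose V hV using hdiv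
  refine ⟨V, hV, ?_⟩
  have hXa : (X z : MvPowerSeries σ ℂ) ^ A ≠ 0 := pow_ne_zero _ (X_ne0 z)
  obtain ⟨c0, hc0⟩ := (Submodule.mem_span_range_iff_exists_fun ℂ).1 hF
  have h1 : UF = ∑ j, c0 j • V j := by
    apply mul_left_cancel₀ hXa
    rw [← hFU, ← hc0, map_sum, Finset.mul_sum]
    refine Finset.sum_congr rfl fun j _ => ?_
    rw [map_smul, hV j, mul_smul_comm]
  by_contra hcon
  push Not at hcon
  apply hUF
  rw [h1, map_sum]
  refine Finset.sum_eq_zero fun j _ => ?_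
  rw [smul_eq_C_mul, map_mul, hcon j, mul_zero]

/-- a block matrix with an identity block and a multiple of the identity as the other block -/
theorem det_tri (N : Finset σ) (z : σ) (w : σ → MvPowerSeries σ ℂ) (u : ℂ) (hu : u ≠ 0)
    (hX : ∀ s, ¬ (s ∈ N ∧ s ≠ z) → w s = X s)
    (hN : ∀ s ∈ N, s ≠ z → ∀ r ∈ N, r ≠ z →
      constantCoeff (pderiv ℂ r (w s)) = if r = s then u else 0) :
    (Matrix.of fun s t => constantCoeff (pderiv ℂ s (w t))).det ≠ 0 := by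
  intro hdet0
  obtain ⟨x, hx0, hx⟩ := Matrix.exists_mulVec_eq_zero_iff.2 hdet0
  apply hx0
  have hrow : ∀ r, ∑ s, constantCoeff (pderiv ℂ r (w s)) * x s = 0 := fun r => congrFun hx r
  have h1 : ∀ r ∈ N, r ≠ z → x r = 0 := by
    intro r hr hrz
    have h2 := hrow r
    rw [Finset.sum_eq_single r] at h2
    · rw [hN r hr hrz r hr hrz, if_pos rfl] at h2
      exact (mul_eq_zero.1 h2).resolve_left hu
    · intro s _ hsr
      by_cases hs : s ∈ N ∧ s ≠ z
      · rw [hN s hs.1 hs.2 r hr hrz, if_neg (Ne.symm hsr), zero_mul]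
      · rw [hX s hs, pderiv_X_of_ne hsr, map_zero, zero_mul]
    · intro h
      exact absurd (Finset.mem_univ r) h
  funext r
  by_cases hr : r ∈ N ∧ r ≠ z
  · exact h1 r hr.1 hr.2
  · have h2 := hrow r
    rw [Finset.sum_eq_single r] at h2
    · rw [hX r hr, pderiv_X_self, map_one, one_mul] at h2
      exact h2
    · intro s _ hsr
      by_cases hs : s ∈ N ∧ s ≠ z
      · rw [h1 s hs.1 hs.2, mul_zero]
      · rw [hX s hs, pderiv_X_of_ne hsr, map_zero, zero_mul]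
    · intro h
      exact absurd (Finset.mem_univ r) h

/-- the coordinates of a chart -/
theorem exists_w {ι : Type} [Fintype ι] (f : ι → MvPolynomial σ ℂ) (N : Finset σ) (z : σ)
    (ξ : σ → MvPowerSeries σ ℂ) (A : ℕ) (V : MvPowerSeries σ ℂ) (hV : constantCoeff V ≠ 0)
    (hcov : ∀ s ∈ N, s ≠ z → ∃ ℓ : σ → ℂ, Cov z ξ A f ℓ ∧
      ∀ r ∈ N, r ≠ z → ℓ r = if r = s then 1 else 0) :
    ∃ w : σ → MvPowerSeries σ ℂ, (∀ s, ¬ (s ∈ N ∧ s ≠ z) → w s = X s) ∧
      (∀ s, constantCoeff (w s) = 0) ∧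
      (∀ s ∈ N, s ≠ z → ∀ r ∈ N, r ≠ z →
        constantCoeff (pderiv ℂ r (w s)) = if r = s then constantCoeff V⁻¹ else 0) ∧
      ∀ s ∈ N, s ≠ z → ∃ cf : ι → ℂ,
        ∑ j, cf j • MvPolynomial.aeval ξ (f j) = X z ^ A * V * w s := by
  have hex : ∀ s, ∃ w : MvPowerSeries σ ℂ, (¬ (s ∈ N ∧ s ≠ z) → w = X s) ∧
      constantCoeff w = 0 ∧ (s ∈ N → s ≠ z → (∀ r ∈ N, r ≠ z →
        constantCoeff (pderiv ℂ r w) = if r = s then constantCoeff V⁻¹ else 0) ∧
        ∃ cf : ι → ℂ, ∑ j, cf j • MvPolynomial.aeval ξ (f j) = X z ^ A * V * w) := by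
    intro s
    by_cases hs : s ∈ N ∧ s ≠ z
    · obtain ⟨ℓ, ⟨G, hG, y, hy0, hy1, hy2⟩, hℓs⟩ := hcov s hs.1 hs.2
      obtain ⟨cf, hcf⟩ := (Submodule.mem_span_range_iff_exists_fun ℂ).1 hG
      refine ⟨y * V⁻¹, fun h => absurd hs h, ?_, fun _ _ => ⟨fun r hr hrz => ?_, cf, ?_⟩⟩
      · rw [map_mul, hy0, zero_mul]
      · have h2 : coeff (Finsupp.single r 1) y = constantCoeff (pderiv ℂ r y) := by
          rw [← coeff_zero_eq_constantCoeff_apply, coeff_pderiv]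
          simp
        rw [cc_der, hy0, zero_mul, zero_add, ← h2, hy1 r hrz, hℓs r hr hrz, mul_ite, mul_one,
          mul_zero]
      · have h3 : X z ^ A * V * (y * V⁻¹) = X z ^ A * y := by
          have h4 : V * V⁻¹ = 1 := MvPowerSeries.mul_inv_cancel _ hV
          calc X z ^ A * V * (y * V⁻¹) = X z ^ A * y * (V * V⁻¹) := by ring
            _ = X z ^ A * y := by rw [h4, mul_one]
        rw [h3, ← hy2, ← hcf, map_sum]
        exact Finset.sum_congr rfl fun j _ => (map_smul _ _ _).symm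
    · exact ⟨X s, fun _ => rfl, constantCoeff_X s, fun h1 h2 => absurd ⟨h1, h2⟩ hs⟩
  choose w h1 h2 h3 using hex
  exact ⟨w, h1, h2, fun s hs hsz => (h3 s hs hsz).1, fun s hs hsz => (h3 s hs hsz).2⟩

/-- the root which belongs to a chart -/
theorem root_of_chart {ι : Type} [Fintype ι] (f : ι → MvPolynomial σ ℂ) (b : Polynomial ℂ)
    (H : MvPolynomial σ ℂ) (hb : IsLocEq H f b) (N : Finset σ) (z : σ) (hz : z ∈ N)
    (ξ : σ → MvPowerSeries σ ℂ) (hHc : constantCoeff (MvPolynomial.aeval ξ H) ≠ 0)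
    (A l : ℕ) (hl : l < A) (U0 : MvPowerSeries σ ℂ) (hU0 : constantCoeff U0 ≠ 0)
    (hJac : (Matrix.of fun t i => pderiv ℂ t (ξ i)).det = X z ^ (N.card - 1) * U0)
    (q : σ → MvPolynomial σ ℂ) (hq : ∀ s, s ∉ N → MvPolynomial.aeval ξ (q s) = X s)
    (hz' : MvPolynomial σ ℂ) (ω : ℂ) (hω : ω ≠ 0) (hhz : MvPolynomial.aeval ξ hz' = X z * C ω)
    (hord : HasOrd z ξ A f)
    (hcov : ∀ s ∈ N, s ≠ z → ∃ ℓ : σ → ℂ, Cov z ξ A f ℓ ∧
      ∀ r ∈ N, r ≠ z → ℓ r = if r = s then 1 else 0) :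
    b.eval (-((N.card : ℂ) + l) / A) = 0 := by
  obtain ⟨V, hV, j0, hj0⟩ := exists_unit_gen f z ξ A hord
  have hV0 : constantCoeff (V j0)⁻¹ ≠ 0 := by
    intro h0
    have h2 := congrArg constantCoeff (MvPowerSeries.mul_inv_cancel (V j0) hj0)
    rw [map_mul, h0, mul_zero, map_one] at h2
    exact zero_ne_one h2
  obtain ⟨w, hwX, hw0, hwN, hwc⟩ := exists_w f N z ξ A (V j0) hj0 hcov
  have hdet := det_tri N z w _ hV0 hwX hwN
  have hkc : ((N.card - 1 : ℕ) : ℂ) + 1 = N.card := by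
    have h2 : N.card - 1 + 1 = N.card := Nat.sub_add_cancel (Finset.card_pos.2 ⟨z, hz⟩)
    have h3 := congrArg (fun n : ℕ => (n : ℂ)) h2
    simpa using h3
  have hU2 : constantCoeff (C (ω ^ l) : MvPowerSeries σ ℂ) ≠ 0 := by
    rw [constantCoeff_C]
    exact pow_ne_zero _ hω
  have hp : MvPolynomial.aeval ξ (hz' ^ l) = X z ^ l * C (ω ^ l) := by
    rw [map_pow, hhz, mul_pow, map_pow]
  have hwz : w z = X z := hwX z fun h => h.2 rfl
  have htype : ∀ t, t ≠ z → (∃ q : MvPolynomial σ ℂ, MvPolynomial.aeval ξ q = w t) ∨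
      ∃ c : ι → ℂ, ∑ j, c j • MvPolynomial.aeval ξ (f j) =
        MvPolynomial.aeval ξ (f j0) * w t := by
    intro s hsz
    by_cases hs : s ∈ N
    · obtain ⟨cf, hcf⟩ := hwc s hs hsz
      exact Or.inr ⟨cf, by rw [hcf, hV j0]⟩
    · exact Or.inl ⟨q s, by rw [hq s hs, hwX s fun h => hs h.1]⟩
  have hf : ∀ j, X z ^ A ∣ MvPolynomial.aeval ξ (f j) := fun j => ⟨V j, hV j⟩
  have key : b.eval (-(((N.card - 1 : ℕ) : ℂ) + 1 + l) / A) = 0 := by
    refine rees_coordsL f b H hb z ξ hHc (N.card - 1) A l hl U0 (V j0) (C (ω ^ l)) hU0 hj0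
      hU2 ?_ j0 ?_ ?_ (hz' ^ l) ?_ w ?_ ?_ ?_ ?_
    · exact hJac
    · exact hf
    · exact hV j0
    · exact hp
    · exact hwz
    · exact hw0
    · exact hdet
    · exact htype
  rw [hkc] at key
  exact key

/-- **The roots of a component.** -/
theorem comp_root (a : τ → ℕ) (ha : ∀ t, 0 < a t) (g : (t : τ) → κ t → MvPolynomial σ ℂ)
    (c : ℕ) (M : τ → ℕ) (p : σ → ℂ) (L : LocalData g c M p)
    (hR : IsReesFlat (fun s => tang p (L.K s)) (fun _ => True) (tang p L.J))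
    (b : Polynomial ℂ) (H : MvPolynomial σ ℂ) (hH : MvPolynomial.eval p H ≠ 0)
    (hb : IsLocEq H (prodFam fun q : Σ t, Fin (a t) => g q.1) b) (l : ℕ)
    (hl : l < ∑ t, a t * M t) :
    b.eval (-((c : ℂ) + l) / (∑ t, a t * M t : ℕ)) = 0 := by
  obtain ⟨⟨s0, _, _⟩, w₀, hw1, hw2⟩ := hR
  have hle : ∀ s, tang p L.J ≤ tang p (L.K s) := fun s => tang_mono p (L.le_center s)
  have hwK : ∀ s, w₀ ∉ tang p (L.K s) := fun s => hw1 s trivial (hle s)
  obtain ⟨z, hz, hω⟩ : ∃ z ∈ L.N, dif p w₀ (L.h z) ≠ 0 := by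
    by_contra hcon
    push Not at hcon
    exact hwK s0 (hle s0 ((mem_tang_J L).2 hcon))
  obtain ⟨ξ, e, hcc, ⟨U0, hU0, hJac⟩, he, hT, hhz, had, hJ⟩ :=
    exists_blow L.h L.N p w₀ L.det_ne L.eval_h z hz hω
  have hone := one_ideal L w₀ z hz ξ e hcc had hJ hwK
  have hA : ∑ q : Σ t, Fin (a t), M q.1 = ∑ t, a t * M t := by
    rw [Fintype.sum_sigma]
    refine Finset.sum_congr rfl fun t _ => ?_
    simp only [Finset.sum_const, Finset.card_univ, Fintype.card_fin, smul_eq_mul]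
  have hord : HasOrd z ξ (∑ q : Σ t, Fin (a t), M q.1)
      (prodFam fun q : Σ t, Fin (a t) => g q.1) :=
    hasOrd_prod z ξ (fun q : Σ t, Fin (a t) => M q.1) (fun q : Σ t, Fin (a t) => g q.1)
      fun q => (hone q.1).1
  let W : Submodule ℂ (σ → ℂ) :=
    { carrier := {ℓ | Cov z ξ (∑ q : Σ t, Fin (a t), M q.1)
        (prodFam fun q : Σ t, Fin (a t) => g q.1) ℓ}
      add_mem' := fun h h' => cov_add h h'
      zero_mem' := cov_zero
      smul_mem' := fun r _ h => cov_smul r h }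
  have hW : ∀ s, ∀ k₁ ∈ L.K s, dif p w₀ k₁ = 0 →
      ∃ ℓ ∈ W, ∀ r ∈ L.N, r ≠ z → ℓ r = dif p (e r) k₁ := by
    intro s k₁ hk₁ hd
    obtain ⟨t, ht⟩ := L.occurs s
    obtain ⟨ℓ, hℓ, hℓr⟩ := (hone t).2 s ht k₁ hk₁ hd
    refine ⟨ℓ, ?_, hℓr⟩
    exact cov_prod z ξ (fun q : Σ t, Fin (a t) => M q.1) (fun q : Σ t, Fin (a t) => g q.1)
      (fun q => (hone q.1).1) ⟨t, ⟨0, ha t⟩⟩ ℓ hℓ
  have hcov := fun s hs hsz => exists_covs L w₀ hwK
    (fun v hv => hw2 v fun s _ _ => hv s) z hz hω e he W hW s hs hsz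
  have key := root_of_chart _ b H hb L.N z hz ξ (by rw [hcc]; exact hH) _ l
    (by rw [hA]; exact hl) U0 hU0 hJac
    (fun s => L.h s - MvPolynomial.C (MvPolynomial.eval p (L.h s))) hT (L.h z) _ hω hhz hord
    fun s hs hsz => hcov s hs hsz
  have h2 : (L.N.card : ℂ) = c := congrArg _ L.card_eq
  rw [h2, hA] at key
  exact key

end Pool.Agent.V7H1.LV
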