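import Pool.Agent.R852.SC.Smooth

set_option autoImplicit false
set_option linter.unusedSectionVars false
set_option linter.unusedVariables false

/-! # Tangent spaces, and the chart of the blow-up of a smooth centre in a given direction -/

namespace Pool.Agent.V7H1.LV

open MvPowerSeries Pool.Agent.W574.SM Pool.Agent.TH187.SA Pool.Agent.Y231.RF
  Pool.Agent.TH192.DT Pool.Agent.R852.SC

variable {σ : Type} [Fintype σ] [DecidableEq σ]

/-- The derivative of the polynomial `f` at the point `p` in the direction `v`. -/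
noncomputable def dif (p v : σ → ℂ) (f : MvPolynomial σ ℂ) : ℂ :=
  ∑ i, v i * MvPolynomial.eval p (MvPolynomial.pderiv i f)

theorem dif_add (p v : σ → ℂ) (f g : MvPolynomial σ ℂ) : dif p v (f + g) = dif p v f + dif p v g := by
  simp only [dif, map_add, mul_add, Finset.sum_add_distrib]

theorem dif_mul (p v : σ → ℂ) (f g : MvPolynomial σ ℂ) :
    dif p v (f * g) = MvPolynomial.eval p f * dif p v g + MvPolynomial.eval p g * dif p v f := by
  simp only [dif, Finset.mul_sum]
  rw [← Finset.sum_add_distrib]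
  refine Finset.sum_congr rfl fun i _ => ?_
  rw [Derivation.leibniz, map_add, smul_eq_mul, smul_eq_mul, map_mul, map_mul]
  ring

theorem dif_zero (p v : σ → ℂ) : dif p v 0 = 0 := by
  simp [dif]

theorem dif_add_dir (p v v' : σ → ℂ) (f : MvPolynomial σ ℂ) :
    dif p (v + v') f = dif p v f + dif p v' f := by
  simp only [dif, Pi.add_apply, add_mul, Finset.sum_add_distrib]

theorem dif_smul_dir (p v : σ → ℂ) (r : ℂ) (f : MvPolynomial σ ℂ) :
    dif p (r • v) f = r * dif p v f := by
  simp only [dif, Pi.smul_apply, smul_eq_mul, mul_assoc, Finset.mul_sum]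

theorem dif_zero_dir (p : σ → ℂ) (f : MvPolynomial σ ℂ) : dif p 0 f = 0 := by
  simp [dif]

theorem dif_sum_dir {ι : Type} (s : Finset ι) (p : σ → ℂ) (v : ι → σ → ℂ) (f : MvPolynomial σ ℂ) :
    dif p (∑ i ∈ s, v i) f = ∑ i ∈ s, dif p (v i) f := by
  classical
  induction s using Finset.induction_on with
  | empty => rw [Finset.sum_empty, Finset.sum_empty, dif_zero_dir]
  | insert a s ha ih => rw [Finset.sum_insert ha, Finset.sum_insert ha, dif_add_dir, ih]

/-- The tangent space at the point `p` of the scheme defined by the ideal `K`: the directions in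
which the derivatives at `p` of all the elements of `K` vanish. -/
def tang (p : σ → ℂ) (K : Ideal (MvPolynomial σ ℂ)) : Submodule ℂ (σ → ℂ) where
  carrier := {v | ∀ f ∈ K, dif p v f = 0}
  add_mem' := by
    intro v v' hv hv' f hf
    rw [dif_add_dir, hv f hf, hv' f hf, add_zero]
  zero_mem' := fun f _ => dif_zero_dir p f
  smul_mem' := by
    intro r v hv f hf
    rw [dif_smul_dir, hv f hf, mul_zero]

theorem mem_tang {p v : σ → ℂ} {K : Ideal (MvPolynomial σ ℂ)} :
    v ∈ tang p K ↔ ∀ f ∈ K, dif p v f = 0 := Iff.rfl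

theorem tang_mono (p : σ → ℂ) {K K' : Ideal (MvPolynomial σ ℂ)} (h : K ≤ K') :
    tang p K' ≤ tang p K := fun _ hv f hf => hv f (h hf)

/-- **The chart of the blow-up of a smooth centre**, at the point which belongs to the direction
`w₀`. -/
theorem exists_blow (h : σ → MvPolynomial σ ℂ) (N : Finset σ) (p w₀ : σ → ℂ)
    (hdet : (Matrix.of fun i s => MvPolynomial.eval p (MvPolynomial.pderiv i (h s))).det ≠ 0)
    (hNp : ∀ s ∈ N, MvPolynomial.eval p (h s) = 0) (z : σ) (hz : z ∈ N)
    (hω : dif p w₀ (h z) ≠ 0) :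
    ∃ (ξ : σ → MvPowerSeries σ ℂ) (e : σ → σ → ℂ),
      (∀ q, constantCoeff (MvPolynomial.aeval ξ q) = MvPolynomial.eval p q) ∧
      (∃ U : MvPowerSeries σ ℂ, constantCoeff U ≠ 0 ∧
        (Matrix.of fun t i => pderiv ℂ t (ξ i)).det = X z ^ (N.card - 1) * U) ∧
      (∀ r s, dif p (e r) (h s) = if r = s then 1 else 0) ∧
      (∀ s, s ∉ N → MvPolynomial.aeval ξ (h s - MvPolynomial.C (MvPolynomial.eval p (h s))) =
        X s) ∧
      MvPolynomial.aeval ξ (h z) = X z * C (dif p w₀ (h z)) ∧
      (∀ r ∈ N, r ≠ z → ∀ q : MvPolynomial σ ℂ,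
        constantCoeff (pderiv ℂ r (MvPolynomial.aeval ξ q)) = 0) ∧
      ∀ f ∈ Ideal.span (h '' (N : Set σ)), MvPolynomial.eval p f = 0 ∧
        ∃ v : MvPowerSeries σ ℂ, MvPolynomial.aeval ξ f = X z * v ∧ constantCoeff v = dif p w₀ f ∧
          ∀ r ∈ N, r ≠ z → constantCoeff (pderiv ℂ r v) = dif p (e r) f := by
  set φ : σ → MvPolynomial σ ℂ := fun s => h s - MvPolynomial.C (MvPolynomial.eval p (h s))
    with hφdef
  have hφ0 : ∀ s, MvPolynomial.eval p (φ s) = 0 := by
    intro s
    rw [hφdef]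
    simp
  have hφd : ∀ i s, MvPolynomial.pderiv i (φ s) = MvPolynomial.pderiv i (h s) := by
    intro i s
    rw [hφdef]
    simp
  have hφN : ∀ s ∈ N, φ s = h s := by
    intro s hs
    rw [hφdef]
    simp [hNp s hs]
  set ω : σ → ℂ := fun s => if s ∈ N then dif p w₀ (h s) else 0 with hωdef
  have hωz : ω z = dif p w₀ (h z) := if_pos hz
  set L : Matrix σ σ ℂ := Matrix.of fun i s => if i = z then ω s else if i = s then 1 else 0
    with hLdef
  have hLdet : L.det ≠ 0 := by
    intro h0
    obtain ⟨x, hx0, hx⟩ := Matrix.exists_mulVec_eq_zero_iff.2 h0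
    apply hx0
    have h1 : ∀ i, i ≠ z → x i = 0 := by
      intro i hi
      have h2 := congrFun hx i
      rw [Matrix.mulVec, dotProduct] at h2
      simp only [hLdef, Matrix.of_apply, if_neg hi, ite_mul, one_mul, zero_mul,
        Finset.sum_ite_eq, Finset.mem_univ, if_true, Pi.zero_apply] at h2
      exact h2
    funext i
    by_cases hi : i = z
    · subst hi
      have h2 := congrFun hx i
      rw [Matrix.mulVec, dotProduct, Finset.sum_eq_single i] at h2
      · simp only [hLdef, Matrix.of_apply, if_true, Pi.zero_apply] at h2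
        rw [hωz] at h2
        exact (mul_eq_zero.1 h2).resolve_left hω
      · intro j _ hj
        rw [h1 j hj, mul_zero]
      · intro hni
        exact absurd (Finset.mem_univ i) hni
    · exact h1 i hi
  let D : Lc σ := ⟨L, hLdet, z, Nᶜ, by simp [hz], 0⟩
  -- the coordinates of the chart
  have hxi : ∀ s, D.xi s = C (ω s) * X z + if s = z then 0 else D.eta s := by
    intro s
    rw [Lc.xi]
    change C ((0 : σ → ℂ) s) + ∑ i, C (L i s) * D.eta i = _
    rw [Pi.zero_apply, map_zero, zero_add, ← Finset.add_sum_erase _ _ (Finset.mem_univ z)]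
    have h1 : D.eta z = X z := D.eta_z
    have h2 : L z s = ω s := by rw [hLdef, Matrix.of_apply, if_pos rfl]
    rw [h1, h2]
    congr 1
    have h3 : ∀ i ∈ Finset.univ.erase z, C (L i s) * D.eta i = if i = s then D.eta i else 0 := by
      intro i hi
      rw [hLdef, Matrix.of_apply, if_neg (Finset.ne_of_mem_erase hi)]
      by_cases his : i = s
      · rw [if_pos his, if_pos his, map_one, one_mul]
      · rw [if_neg his, if_neg his, map_zero, zero_mul]
    rw [Finset.sum_congr rfl h3, Finset.sum_ite_eq']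
    by_cases hsz : s = z
    · rw [if_pos hsz, if_neg (fun h => (Finset.ne_of_mem_erase h) hsz)]
    · rw [if_neg hsz, if_pos (Finset.mem_erase.2 ⟨hsz, Finset.mem_univ s⟩)]
  have htz : D.xi z = C (dif p w₀ (h z)) * X z := by
    rw [hxi, if_pos rfl, add_zero, hωz]
  have htN : ∀ s ∈ N, s ≠ z → D.xi s = C (dif p w₀ (h s)) * X z + X z * X s := by
    intro s hs hsz
    rw [hxi, if_neg hsz]
    have h1 : D.eta s = X z * X s := D.eta_N (fun h => (Finset.mem_compl.1 h) hs) hsz
    rw [h1, hωdef]
    simp only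
    rw [if_pos hs]
  have htT : ∀ s, s ∉ N → D.xi s = X s := by
    intro s hs
    have hsz : s ≠ z := by
      rintro rfl
      exact hs hz
    have h1 : D.eta s = X s := D.eta_T (Finset.mem_compl.2 hs)
    have h2 : ω s = 0 := if_neg hs
    rw [hxi, if_neg hsz, h1, h2, map_zero, zero_mul, zero_add]
  obtain ⟨ξ, hξ0, hξ⟩ := exists_inverse φ p hφ0 (by simp only [hφd]; exact hdet) D.xi D.cc_xi
  have hcc : ∀ q : MvPolynomial σ ℂ, constantCoeff (MvPolynomial.aeval ξ q) =
      MvPolynomial.eval p q := fun q => cc_aeval' ξ p hξ0 q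
  set P : Matrix σ σ (MvPowerSeries σ ℂ) := Matrix.of fun t i => pderiv ℂ t (ξ i) with hPdef
  set K : Matrix σ σ (MvPowerSeries σ ℂ) :=
    Matrix.of fun i s => MvPolynomial.aeval ξ (MvPolynomial.pderiv i (h s)) with hKdef
  have hPK : (Matrix.of fun t i => pderiv ℂ t (D.xi i)) = P * K := by
    ext1 t s
    rw [Matrix.mul_apply, Matrix.of_apply, ← hξ s, pderiv_aeval]
    refine Finset.sum_congr rfl fun i _ => ?_
    rw [hφd, mul_comm]
    rfl
  have hKcc : constantCoeff K.det ≠ 0 := by
    rw [RingHom.map_det]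
    convert hdet using 2
    ext1 i s
    change constantCoeff (MvPolynomial.aeval ξ (MvPolynomial.pderiv i (h s))) = _
    rw [hcc]
    rfl
  have hKinv : K.det * (K.det)⁻¹ = 1 := MvPowerSeries.mul_inv_cancel _ hKcc
  have hcard : Fintype.card σ - 1 - D.T.card = N.card - 1 := by
    have h1 : D.T.card = Fintype.card σ - N.card := Finset.card_compl N
    have h2 := Finset.card_le_univ N
    have h3 : 0 < N.card := Finset.card_pos.2 ⟨z, hz⟩
    omega
  have hinv0 : constantCoeff (K.det)⁻¹ ≠ 0 := by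
    intro h0
    have h2 := congrArg constantCoeff hKinv
    rw [map_mul, h0, mul_zero, map_one] at h2
    exact zero_ne_one h2
  obtain ⟨U, hU, hJac⟩ := D.jacobian
  have hhz : MvPolynomial.aeval ξ (h z) = X z * C (dif p w₀ (h z)) := by
    rw [← hφN z hz, hξ, htz, hφN z hz]
    ring
  have hhs : ∀ s ∈ N, s ≠ z → MvPolynomial.aeval ξ (h s) = X z * (C (dif p w₀ (h s)) + X s) := by
    intro s hs hsz
    rw [← hφN s hs, hξ, htN s hs hsz, hφN s hs]
    ring
  -- the derivatives of the chart in the directions of the fibre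
  have hJe0 : ∀ r ∈ N, r ≠ z → ∀ s, constantCoeff (pderiv ℂ r (D.xi s)) = 0 := by
    intro r hr hrz s
    by_cases hs : s ∈ N
    · by_cases hsz : s = z
      · rw [hsz, htz, Derivation.leibniz, pderiv_X_of_ne (Ne.symm hrz), pderiv_C, smul_zero,
          smul_zero, add_zero, map_zero]
      · rw [htN s hs hsz, map_add, Derivation.leibniz, Derivation.leibniz,
          pderiv_X_of_ne (Ne.symm hrz), pderiv_C]
        simp
    · rw [htT s hs, pderiv_X_of_ne, map_zero]
      rintro rfl
      exact hs hr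
  have hξd : ∀ r ∈ N, r ≠ z → ∀ i, constantCoeff (pderiv ℂ r (ξ i)) = 0 := by
    intro r hr hrz
    have h1 : Matrix.vecMul (fun i => constantCoeff (pderiv ℂ r (ξ i)))
        (Matrix.of fun i s => MvPolynomial.eval p (MvPolynomial.pderiv i (h s))) = 0 := by
      funext s
      have h2 := hJe0 r hr hrz s
      rw [← hξ s, pderiv_aeval, map_sum] at h2
      rw [Matrix.vecMul, dotProduct, Pi.zero_apply, ← h2]
      refine Finset.sum_congr rfl fun i _ => ?_
      rw [map_mul, hcc, hφd, mul_comm]
      rfl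
    have h2 := Matrix.eq_zero_of_vecMul_eq_zero hdet h1
    exact fun i => congrFun h2 i
  have had : ∀ r ∈ N, r ≠ z → ∀ q : MvPolynomial σ ℂ,
      constantCoeff (pderiv ℂ r (MvPolynomial.aeval ξ q)) = 0 := by
    intro r hr hrz q
    rw [pderiv_aeval, map_sum]
    refine Finset.sum_eq_zero fun i _ => ?_
    rw [map_mul, hξd r hr hrz, mul_zero]
  set M : Matrix σ σ ℂ := Matrix.of fun i s => MvPolynomial.eval p (MvPolynomial.pderiv i (h s))
    with hMdef
  have hMM : M⁻¹ * M = 1 := Matrix.nonsing_inv_mul _ (isUnit_iff_ne_zero.2 hdet)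
  have he : ∀ r s, dif p (M⁻¹ r) (h s) = if r = s then 1 else 0 := by
    intro r s
    have h1 := congrFun (congrFun hMM r) s
    rw [Matrix.mul_apply, Matrix.one_apply] at h1
    rw [← h1, dif]
    rfl
  refine ⟨ξ, fun r => M⁻¹ r, hcc, ⟨U * (K.det)⁻¹, ?_, ?_⟩, he, fun s hs => ?_, hhz, had, ?_⟩
  · rw [map_mul]
    exact mul_ne_zero hU hinv0
  · have h1 : P.det * K.det = X z ^ (N.card - 1) * U := by
      rw [← Matrix.det_mul, ← hPK, hJac, hcard]
    rw [← mul_assoc, ← h1, mul_assoc, hKinv, mul_one]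
  · change MvPolynomial.aeval ξ (φ s) = X s
    rw [hξ, htT s hs]
  · intro f hf
    induction hf using Submodule.span_induction with
    | mem f hf =>
      obtain ⟨s, hs, rfl⟩ := hf
      refine ⟨hNp s hs, ?_⟩
      by_cases hsz : s = z
      · subst hsz
        refine ⟨_, hhz, by rw [constantCoeff_C], fun r hr hrz => ?_⟩
        rw [pderiv_C, map_zero, he, if_neg hrz]
      · refine ⟨_, hhs s hs hsz, by rw [map_add, constantCoeff_C, constantCoeff_X, add_zero],
          fun r hr hrz => ?_⟩
        rw [map_add, pderiv_C, zero_add, he]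
        by_cases hrs : r = s
        · subst hrs
          rw [if_pos rfl, pderiv_X_self, map_one]
        · rw [if_neg hrs, pderiv_X_of_ne (Ne.symm hrs), map_zero]
    | zero =>
      refine ⟨map_zero _, 0, by rw [map_zero, mul_zero], by rw [map_zero, dif_zero],
        fun r _ _ => by rw [map_zero, map_zero, dif_zero]⟩
    | add f g _ _ hf hg =>
      obtain ⟨hf0, v, hv, hv0, hvr⟩ := hf
      obtain ⟨hg0, w, hw, hw0, hwr⟩ := hg
      refine ⟨by rw [map_add, hf0, hg0, add_zero], v + w, by rw [map_add, hv, hw, mul_add],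
        by rw [map_add, hv0, hw0, dif_add], fun r hr hrz => ?_⟩
      rw [map_add, map_add, hvr r hr hrz, hwr r hr hrz, dif_add]
    | smul q f _ hf =>
      obtain ⟨hf0, v, hv, hv0, hvr⟩ := hf
      refine ⟨by rw [smul_eq_mul, map_mul, hf0, mul_zero], MvPolynomial.aeval ξ q * v, ?_, ?_,
        fun r hr hrz => ?_⟩
      · rw [smul_eq_mul, map_mul, hv]
        ring
      · rw [map_mul, hv0, hcc, smul_eq_mul, dif_mul, hf0, zero_mul, add_zero]
      · rw [Derivation.leibniz, smul_eq_mul, smul_eq_mul, map_add, map_mul, map_mul,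
          had r hr hrz q, mul_zero, add_zero, hcc, hvr r hr hrz, smul_eq_mul, dif_mul, hf0,
          zero_mul, add_zero]

end Pool.Agent.V7H1.LV
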