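import Pool.Agent.V7H1.LV.Roots

set_option autoImplicit false
set_option linter.unusedSectionVars false
set_option linter.unusedVariables false

/-! # Charts of weighted blow-ups -/

namespace Pool.Agent.V7H1.LV

open MvPowerSeries Pool.Agent.W574.SM Pool.Agent.W574.LM Pool.Agent.W574.HS
  Pool.Agent.TH187.SA Pool.Agent.Y231.RF
  Pool.Agent.TH192.DT Pool.Agent.R852.SC

variable {σ : Type} [Fintype σ] [DecidableEq σ]

/-- the coordinates on the exceptional divisor near the point `c` -/
noncomputable def theta (c : σ → ℂ) (z s : σ) : MvPowerSeries σ ℂ :=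
  if s = z then C (c z) else C (c s) + X s

theorem cc_theta (c : σ → ℂ) (z s : σ) : constantCoeff (theta c z s) = c s := by
  unfold theta
  split_ifs with h
  · rw [constantCoeff_C, h]
  · rw [map_add, constantCoeff_C, constantCoeff_X, add_zero]

theorem der_theta (c : σ → ℂ) (z s r : σ) (hr : r ≠ z) :
    pderiv ℂ r (theta c z s) = if r = s then 1 else 0 := by
  unfold theta
  by_cases h : s = z
  · rw [if_pos h, pderiv_C, if_neg (fun h' => hr (h'.trans h))]
  · rw [if_neg h, map_add, pderiv_C, zero_add]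
    by_cases h' : r = s
    · rw [if_pos h', h', pderiv_X_self]
    · rw [if_neg h', pderiv_X_of_ne (Ne.symm h')]

theorem det_diag (z : σ) (E : Matrix σ σ (MvPowerSeries σ ℂ))
    (h : ∀ t, t ≠ z → ∀ s, t ≠ s → E t s = 0) : E.det = ∏ s, E s s := by
  rw [Matrix.det_apply', Finset.sum_eq_single 1]
  · simp
  · intro π _ hπ
    suffices h1 : ∃ i, E (π i) i = 0 by
      obtain ⟨i, hi⟩ := h1
      exact mul_eq_zero_of_right _ (Finset.prod_eq_zero (f := fun i => E (π i) i)
        (Finset.mem_univ i) hi)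
    by_cases hz : π z = z
    · obtain ⟨t, ht⟩ : ∃ t, π t ≠ t := by
        by_contra hcon
        push Not at hcon
        exact hπ (Equiv.ext hcon)
      refine ⟨t, h _ (fun h1 => ?_) _ ht⟩
      have h2 : π t = π z := h1.trans hz.symm
      have h3 := π.injective h2
      rw [h3] at ht
      exact ht hz
    · exact ⟨z, h _ hz _ hz⟩
  · intro h1
    exact absurd (Finset.mem_univ _) h1

/-- **The chart of a weighted blow-up**, at the point `c` of the exceptional divisor. -/
theorem exists_wblow (h : σ → MvPolynomial σ ℂ) (w : σ → ℕ) (p c : σ → ℂ)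
    (hdet : (Matrix.of fun i s => MvPolynomial.eval p (MvPolynomial.pderiv i (h s))).det ≠ 0)
    (hN : ∀ s, w s ≠ 0 → MvPolynomial.eval p (h s) = 0)
    (hT : ∀ s, w s = 0 → MvPolynomial.eval p (h s) = c s) (z : σ) (hz : w z ≠ 0)
    (hc : c z ≠ 0) :
    ∃ ξ : σ → MvPowerSeries σ ℂ,
      (∀ q, constantCoeff (MvPolynomial.aeval ξ q) = MvPolynomial.eval p q) ∧
      (∃ U : MvPowerSeries σ ℂ, constantCoeff U ≠ 0 ∧
        (Matrix.of fun t i => pderiv ℂ t (ξ i)).det = X z ^ (∑ s, w s - 1) * U) ∧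
      (∀ s, MvPolynomial.aeval ξ (h s) = X z ^ w s * theta c z s) ∧
      ∀ r, w r ≠ 0 → r ≠ z → ∀ q : MvPolynomial σ ℂ,
        constantCoeff (pderiv ℂ r (MvPolynomial.aeval ξ q)) = 0 := by
  set φ : σ → MvPolynomial σ ℂ := fun s => h s - MvPolynomial.C (MvPolynomial.eval p (h s))
    with hφdef
  have hφ0 : ∀ s, MvPolynomial.eval p (φ s) = 0 := by
    intro s
    rw [hφdef]
    simp
  have hφd : ∀ i s, MvPolynomial.pderiv i (φ s) = MvPolynomial.pderiv i (h s) := by
    intro i s
    rw [hφdef]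
    simp
  have hη : ∀ s, constantCoeff (X z ^ w s * theta c z s -
      C (MvPolynomial.eval p (h s)) : MvPowerSeries σ ℂ) = 0 := by
    intro s
    rw [map_sub, map_mul, map_pow, constantCoeff_X, cc_theta, constantCoeff_C]
    by_cases hs : w s = 0
    · rw [hs, pow_zero, one_mul, hT s hs, sub_self]
    · rw [zero_pow hs, zero_mul, hN s hs, sub_zero]
  obtain ⟨ξ, hξ0, hξ⟩ := exists_inverse φ p hφ0 (by simp only [hφd]; exact hdet) _ hη
  have hcc : ∀ q : MvPolynomial σ ℂ, constantCoeff (MvPolynomial.aeval ξ q) =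
      MvPolynomial.eval p q := fun q => cc_aeval' ξ p hξ0 q
  have hh : ∀ s, MvPolynomial.aeval ξ (h s) = X z ^ w s * theta c z s := by
    intro s
    have h1 := hξ s
    rw [hφdef] at h1
    simp only [map_sub, MvPolynomial.aeval_C] at h1
    exact sub_left_inj.1 h1
  set P : Matrix σ σ (MvPowerSeries σ ℂ) := Matrix.of fun t i => pderiv ℂ t (ξ i) with hPdef
  set K : Matrix σ σ (MvPowerSeries σ ℂ) :=
    Matrix.of fun i s => MvPolynomial.aeval ξ (MvPolynomial.pderiv i (h s)) with hKdef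
  set E : Matrix σ σ (MvPowerSeries σ ℂ) :=
    Matrix.of fun t s => pderiv ℂ t (X z ^ w s * theta c z s) with hEdef
  have hPK : E = P * K := by
    ext1 t s
    rw [Matrix.mul_apply, hEdef, Matrix.of_apply, ← hh s, pderiv_aeval]
    refine Finset.sum_congr rfl fun i _ => ?_
    rw [mul_comm]
    rfl
  have hKcc : constantCoeff K.det ≠ 0 := by
    rw [RingHom.map_det]
    have h1 : (constantCoeff (σ := σ) (R := ℂ)).mapMatrix K =
        Matrix.of fun i s => MvPolynomial.eval p (MvPolynomial.pderiv i (h s)) := by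
      ext1 i s
      change constantCoeff (MvPolynomial.aeval ξ (MvPolynomial.pderiv i (h s))) = _
      rw [hcc]
      rfl
    rw [h1]
    exact hdet
  have hKinv : K.det * (K.det)⁻¹ = 1 := MvPowerSeries.mul_inv_cancel _ hKcc
  have hinv0 : constantCoeff (K.det)⁻¹ ≠ 0 := by
    intro h0
    have h2 := congrArg constantCoeff hKinv
    rw [map_mul, h0, mul_zero, map_one] at h2
    exact zero_ne_one h2
  -- the derivatives
  have hE : ∀ t, t ≠ z → ∀ s, E t s = if t = s then X z ^ w s else 0 := by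
    intro t ht s
    rw [hEdef, Matrix.of_apply, Derivation.leibniz, Derivation.leibniz_pow,
      pderiv_X_of_ne (Ne.symm ht), der_theta c z s t ht]
    by_cases hts : t = s
    · rw [if_pos hts, if_pos hts]
      simp
    · rw [if_neg hts, if_neg hts]
      simp
  have hEz : E z z = X z ^ (w z - 1) * C ((w z : ℂ) * c z) := by
    rw [hEdef, Matrix.of_apply, theta, if_pos rfl, Derivation.leibniz, Derivation.leibniz_pow,
      pderiv_X_self, pderiv_C, smul_zero, zero_add, smul_eq_mul, smul_eq_mul, mul_one, map_mul]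
    rw [nsmul_eq_mul]
    have h1 : (C (w z : ℂ) : MvPowerSeries σ ℂ) = (w z : MvPowerSeries σ ℂ) := map_natCast _ _
    rw [h1]
    ring
  have hEdet : E.det = X z ^ (∑ s, w s - 1) * C ((w z : ℂ) * c z) := by
    rw [det_diag z E fun t ht s hts => by rw [hE t ht s, if_neg hts],
      ← Finset.mul_prod_erase _ _ (Finset.mem_univ z), hEz]
    have h1 : ∏ s ∈ Finset.univ.erase z, E s s = ∏ s ∈ Finset.univ.erase z, X z ^ w s := by
      refine Finset.prod_congr rfl fun s hs => ?_
      rw [hE s (Finset.ne_of_mem_erase hs) s, if_pos rfl]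
    rw [h1, Finset.prod_pow_eq_pow_sum]
    have h2 : ∑ s, w s - 1 = (w z - 1) + ∑ s ∈ Finset.univ.erase z, w s := by
      rw [← Finset.add_sum_erase _ _ (Finset.mem_univ z)]
      omega
    rw [h2, pow_add]
    ring
  have hξd : ∀ r, w r ≠ 0 → r ≠ z → ∀ i, constantCoeff (pderiv ℂ r (ξ i)) = 0 := by
    intro r hr hrz
    have h1 : Matrix.vecMul (fun i => constantCoeff (pderiv ℂ r (ξ i)))
        (Matrix.of fun i s => MvPolynomial.eval p (MvPolynomial.pderiv i (h s))) = 0 := by
      funext s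
      have h2 : constantCoeff (E r s) = 0 := by
        rw [hE r hrz s]
        split_ifs with hrs
        · rw [map_pow, constantCoeff_X, zero_pow (hrs ▸ hr)]
        · rw [map_zero]
      rw [hPK, Matrix.mul_apply, map_sum] at h2
      rw [Matrix.vecMul, dotProduct, Pi.zero_apply, ← h2]
      refine Finset.sum_congr rfl fun i _ => ?_
      rw [map_mul]
      congr 1
      change _ = constantCoeff (MvPolynomial.aeval ξ (MvPolynomial.pderiv i (h s)))
      rw [hcc]
      rfl
    have h2 := Matrix.eq_zero_of_vecMul_eq_zero hdet h1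
    exact fun i => congrFun h2 i
  refine ⟨ξ, hcc, ⟨C ((w z : ℂ) * c z) * (K.det)⁻¹, ?_, ?_⟩, hh, fun r hr hrz q => ?_⟩
  · rw [map_mul, constantCoeff_C]
    exact mul_ne_zero (mul_ne_zero (Nat.cast_ne_zero.2 hz) hc) hinv0
  · have h1 : P.det * K.det = X z ^ (∑ s, w s - 1) * C ((w z : ℂ) * c z) := by
      rw [← Matrix.det_mul, ← hPK, hEdet]
    rw [← mul_assoc, ← h1, mul_assoc, hKinv, mul_one]
  · rw [pderiv_aeval, map_sum]
    refine Finset.sum_eq_zero fun i _ => ?_
    rw [map_mul, hξd r hr hrz, mul_zero]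

/-- the filtration by weights -/
theorem dvd_of_weight (h : σ → MvPolynomial σ ℂ) (w : σ → ℕ) (z : σ)
    (ξ : σ → MvPowerSeries σ ℂ) (θ : σ → MvPowerSeries σ ℂ)
    (hh : ∀ s, MvPolynomial.aeval ξ (h s) = X z ^ w s * θ s) (m : ℕ) (F : MvPolynomial σ ℂ)
    (hF : F ∈ Ideal.span {F : MvPolynomial σ ℂ | ∃ α : σ → ℕ, m ≤ ∑ s, w s * α s ∧
      F = ∏ s, h s ^ α s}) : (X z : MvPowerSeries σ ℂ) ^ m ∣ MvPolynomial.aeval ξ F := by
  induction hF using Submodule.span_induction with
  | mem F hF =>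
    obtain ⟨α, hα, rfl⟩ := hF
    rw [map_prod]
    have h1 : ∏ s, MvPolynomial.aeval ξ (h s ^ α s) =
        X z ^ (∑ s, w s * α s) * ∏ s, θ s ^ α s := by
      rw [← Finset.prod_pow_eq_pow_sum, ← Finset.prod_mul_distrib]
      refine Finset.prod_congr rfl fun s _ => ?_
      rw [map_pow, hh s, mul_pow, pow_mul]
    rw [h1]
    exact Dvd.dvd.mul_right (pow_dvd_pow _ hα) _
  | zero => rw [map_zero]; exact dvd_zero _
  | add F F' _ _ h1 h2 => rw [map_add]; exact dvd_add h1 h2
  | smul q F _ h1 => rw [smul_eq_mul, map_mul]; exact Dvd.dvd.mul_left h1 _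

/-- weighted homogeneous polynomials -/
theorem aeval_weighted (h : σ → MvPolynomial σ ℂ) (w : σ → ℕ) (z : σ)
    (ξ : σ → MvPowerSeries σ ℂ) (θ : σ → MvPowerSeries σ ℂ)
    (hh : ∀ s, MvPolynomial.aeval ξ (h s) = X z ^ w s * θ s) (m : ℕ) (G : MvPolynomial σ ℂ)
    (hG : ∀ α, MvPolynomial.coeff α G ≠ 0 → ∑ s, w s * α s = m) :
    MvPolynomial.aeval ξ (MvPolynomial.aeval h G) = X z ^ m * MvPolynomial.aeval θ G := by
  have h1 : MvPolynomial.aeval ξ (MvPolynomial.aeval h G) =
      MvPolynomial.aeval (fun s => X z ^ w s * θ s) G := by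
    rw [← AlgHom.comp_apply]
    have h2 : (MvPolynomial.aeval ξ : MvPolynomial σ ℂ →ₐ[ℂ] MvPowerSeries σ ℂ).comp
        (MvPolynomial.aeval h) = MvPolynomial.aeval fun s => X z ^ w s * θ s := by
      ext s
      rw [AlgHom.comp_apply, MvPolynomial.aeval_X, MvPolynomial.aeval_X, hh s]
    rw [h2]
  rw [h1, MvPolynomial.aeval_def, MvPolynomial.aeval_def, MvPolynomial.eval₂_eq',
    MvPolynomial.eval₂_eq', Finset.mul_sum]
  refine Finset.sum_congr rfl fun α hα => ?_
  have h3 : ∏ s, (X z ^ w s * θ s) ^ α s = X z ^ m * ∏ s, θ s ^ α s := by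
    rw [← hG α (MvPolynomial.mem_support_iff.1 hα), ← Finset.prod_pow_eq_pow_sum,
      ← Finset.prod_mul_distrib]
    refine Finset.prod_congr rfl fun s _ => ?_
    rw [mul_pow, pow_mul]
  rw [h3]
  ring

end Pool.Agent.V7H1.LV
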